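import Pool.Agent.R224.HV.Pl1
import Pool.Agent.TH959.HU.A12
import Pool.Agent.TH340.HU.B8

/-!
# The body: geometry, volumes and perimeters of cylindrical sets
-/

set_option autoImplicit false

open MeasureTheory Set Metric Filter Topology
open scoped ENNReal Real

noncomputable section

namespace Pool.Agent.R224.HV

open Pool.Agent.TH304.MI Pool.Agent.TH703.HU Pool.Agent.TH959.MI
open Pool.Agent.TH73.MI

/-! ## Geometry -/

lemma mem_Bo {κ : ℝ} {p : PP 1} : p ∈ Bo κ ↔ (|(xc p).re| < 1 ∧ |(xc p).im| < 3) ∧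
    |yc p 0| + max 0 (|(xc p).re| - 1 / 8) / 8 < 1 ∧ |yc p 0| + κ * |(xc p).im| < 1 := by
  unfold Bo RR ff ph
  simp only [Set.mem_ofPred_eq, lt_min_iff]
  constructor
  · rintro ⟨h1, h2, h3⟩
    exact ⟨h1, by linarith, by linarith⟩
  · rintro ⟨h1, h2, h3⟩
    exact ⟨h1, by linarith, by linarith⟩

lemma Bo_open (κ : ℝ) : IsOpen (Bo κ) := by
  have h : Bo κ = xc ⁻¹' RR ∩ {p : PP 1 | |yc p 0| < ff κ (xc p)} := rfl
  rw [h]
  exact (isOpen_RR.preimage continuous_xc).inter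
    (isOpen_lt (continuous_yc 0).abs ((continuous_ff κ).comp continuous_xc))

lemma lt_comb {x y B a c : ℝ} (hx : x < B) (hy : y < B) (ha : 0 ≤ a) (hc : 0 ≤ c)
    (hac : a + c = 1) : a * x + c * y < B := by
  rcases eq_or_lt_of_le ha with h | h
  · have : c = 1 := by linarith
    rw [← h, this]; linarith
  · have h1 := mul_lt_mul_of_pos_left hx h
    have h2 := mul_le_mul_of_nonneg_left hy.le hc
    have h3 : a * B + c * B = B := by rw [← add_mul, hac, one_mul]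
    linarith

lemma Bo_convex {κ : ℝ} (hκ : 0 ≤ κ) : Convex ℝ (Bo κ) := by
  intro p hp q hq a c ha hc hac
  rw [mem_Bo] at *
  obtain ⟨⟨p1, p2⟩, p3, p4⟩ := hp
  obtain ⟨⟨q1, q2⟩, q3, q4⟩ := hq
  have hre : |(xc (a • p + c • q)).re| ≤ a * |(xc p).re| + c * |(xc q).re| := by
    rw [xc_add, xc_smul, xc_smul, Complex.add_re, Complex.re_ofReal_mul, Complex.re_ofReal_mul]
    refine (abs_add_le _ _).trans ?_
    rw [abs_mul, abs_mul, abs_of_nonneg ha, abs_of_nonneg hc]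
  have him : |(xc (a • p + c • q)).im| ≤ a * |(xc p).im| + c * |(xc q).im| := by
    rw [xc_add, xc_smul, xc_smul, Complex.add_im, Complex.im_ofReal_mul, Complex.im_ofReal_mul]
    refine (abs_add_le _ _).trans ?_
    rw [abs_mul, abs_mul, abs_of_nonneg ha, abs_of_nonneg hc]
  have hy : |yc (a • p + c • q) 0| ≤ a * |yc p 0| + c * |yc q 0| := by
    rw [yc_add, yc_smul, yc_smul]
    refine (abs_add_le _ _).trans ?_
    rw [abs_mul, abs_mul, abs_of_nonneg ha, abs_of_nonneg hc]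
  refine ⟨⟨hre.trans_lt (lt_comb p1 q1 ha hc hac), him.trans_lt (lt_comb p2 q2 ha hc hac)⟩, ?_, ?_⟩
  · have hm : max 0 (|(xc (a • p + c • q)).re| - 1 / 8) ≤
        a * max 0 (|(xc p).re| - 1 / 8) + c * max 0 (|(xc q).re| - 1 / 8) := by
      have k1 := mul_le_mul_of_nonneg_left (le_max_left 0 (|(xc p).re| - 1 / 8)) ha
      have k2 := mul_le_mul_of_nonneg_left (le_max_left 0 (|(xc q).re| - 1 / 8)) hc
      have k3 := mul_le_mul_of_nonneg_left (le_max_right 0 (|(xc p).re| - 1 / 8)) ha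
      have k4 := mul_le_mul_of_nonneg_left (le_max_right 0 (|(xc q).re| - 1 / 8)) hc
      have k5 : a * (1 / 8) + c * (1 / 8) = 1 / 8 := by rw [← add_mul, hac, one_mul]
      refine max_le (by linarith) (by linarith)
    have := lt_comb p3 q3 ha hc hac
    linarith
  · have h1 := mul_le_mul_of_nonneg_left him hκ
    have := lt_comb p4 q4 ha hc hac
    linarith

lemma Bo_zero (κ : ℝ) : (0 : PP 1) ∈ Bo κ := by
  rw [mem_Bo, xc_zero]
  have : yc (0 : PP 1) 0 = 0 := rfl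
  rw [this]
  norm_num

lemma Bo_neg {κ : ℝ} : ∀ p ∈ Bo κ, -p ∈ Bo κ := by
  rintro p ⟨h1, h2⟩
  refine ⟨?_, ?_⟩
  · rw [xc_neg]; exact RR_neg h1
  · rw [xc_neg, yc_neg, abs_neg, ff_neg]; exact h2

lemma Bo_star {κ : ℝ} (hκ : 0 ≤ κ) : ∀ p ∈ Bo κ, ∀ t ∈ Icc (0 : ℝ) 1, t • p ∈ Bo κ := by
  intro p hp t ht
  have := Bo_convex hκ hp (Bo_zero κ) ht.1 (by linarith [ht.2] : 0 ≤ 1 - t) (by ring)
  rwa [smul_zero, add_zero] at this

lemma Bo_bdd {κ : ℝ} (hκ : 0 ≤ κ) : Bornology.IsBounded (Bo κ) := by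
  refine (isBounded_closedBall (x := (0 : PP 1)) (r := 6)).subset fun p hp => ?_
  rw [mem_closedBall_zero_iff]
  rw [mem_Bo] at hp
  obtain ⟨⟨h1, h2⟩, h3, h4⟩ := hp
  have h5 : |yc p 0| < 1 := by
    have := le_max_left 0 (|(xc p).re| - 1 / 8)
    linarith
  have h6 : ‖p‖ ^ 2 = p 0 ^ 2 + p 1 ^ 2 + p 2 ^ 2 := by
    rw [EuclideanSpace.norm_sq_eq, Fin.sum_univ_three]
    simp [Real.norm_eq_abs, sq_abs]
  have h7 : |p 0| < 1 := h1
  have h8 : |p 1| < 3 := h2
  have h9 : |p 2| < 1 := h5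
  have k1 : p 0 ^ 2 ≤ 1 := by
    rw [← sq_abs]; nlinarith [abs_nonneg (p 0)]
  have k2 : p 1 ^ 2 ≤ 9 := by
    rw [← sq_abs]; nlinarith [abs_nonneg (p 1)]
  have k3 : p 2 ^ 2 ≤ 1 := by
    rw [← sq_abs]; nlinarith [abs_nonneg (p 2)]
  nlinarith [norm_nonneg p]

/-! ## The body in split coordinates -/

/-- the body in split coordinates -/
def UU (κ : ℝ) : Set (ℂ × (Fin 1 → ℝ)) := {q | q.1 ∈ RR ∧ |q.2 0| < ff κ q.1}

lemma mem_Bo' {κ : ℝ} (p : PP 1) : p ∈ Bo κ ↔ T 1 p ∈ UU κ := Iff.rfl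

lemma isOpen_UU (κ : ℝ) : IsOpen (UU κ) := by
  have h : UU κ = Prod.fst ⁻¹' RR ∩ {q : ℂ × (Fin 1 → ℝ) | |q.2 0| < ff κ q.1} := rfl
  rw [h]
  have := continuous_ff κ
  exact (isOpen_RR.preimage continuous_fst).inter (isOpen_lt (by fun_prop) (by fun_prop))

lemma UU_sub (κ : ℝ) : UU κ ⊆ closedBall (0 : ℂ) 4 ×ˢ closedBall (0 : Fin 1 → ℝ) 1 := by
  rintro q ⟨h1, h2⟩
  have a1 : |q.1.re| < 1 := h1.1
  have a2 : |q.1.im| < 3 := h1.2
  constructor
  · rw [mem_closedBall_zero_iff]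
    have := Complex.norm_le_abs_re_add_abs_im q.1
    linarith
  · rw [mem_closedBall_zero_iff, pi_norm_le_iff_of_nonneg zero_le_one]
    intro i
    rw [Real.norm_eq_abs, Fin.fin_one_eq_zero i]
    exact h2.le.trans (ff_le_one _)

/-- the fibre over `x` -/
def fib (κ : ℝ) (x : ℂ) : Set (Fin 1 → ℝ) := {y | |y 0| < ff κ x}

lemma fib_meas (κ : ℝ) (x : ℂ) : MeasurableSet (fib κ x) := by
  have : Continuous fun y : Fin 1 → ℝ => |y 0| := by fun_prop
  exact (isOpen_lt this continuous_const).measurableSet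

lemma vol_fib (κ : ℝ) (x : ℂ) : volume (fib κ x) = ENNReal.ofReal (2 * ff κ x) := by
  have h : fib κ x = Set.pi univ fun _ : Fin 1 => Ioo (-ff κ x) (ff κ x) := by
    ext y
    rw [mem_univ_pi]
    constructor
    · intro hy i
      rw [Fin.fin_one_eq_zero i]
      exact abs_lt.1 hy
    · intro hy
      exact abs_lt.2 (hy 0)
  rw [h, Real.volume_pi_Ioo, Fin.prod_univ_one]
  congr 1
  ring

lemma real_fib {κ : ℝ} {x : ℂ} (h : 0 ≤ ff κ x) : volume.real (fib κ x) = 2 * ff κ x := by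
  rw [Measure.real, vol_fib, ENNReal.toReal_ofReal (by linarith)]

/-- **Volumes of cylindrical sets.** -/
theorem vol_cylO {κ : ℝ} (hκ0 : 0 ≤ κ) (hκ : κ ≤ 1 / 32) {A : Set ℂ} (hA : MeasurableSet A)
    (hAR : A ⊆ RR) : volume (cylO (Bo κ) A) = ENNReal.ofReal (2 * ma κ A) := by
  obtain ⟨e, he, hm⟩ := t_fub 1
  set S : Set (ℂ × (Fin 1 → ℝ)) := UU κ ∩ {q | q.1 ∈ A} with hS
  have hSm : MeasurableSet S := (isOpen_UU κ).measurableSet.inter (measurable_fst hA)
  have h1 : cylO (Bo κ) A = e ⁻¹' S := by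
    ext p
    rw [mem_preimage, he p]
    rfl
  rw [h1, hm.measure_preimage hSm.nullMeasurableSet, Measure.volume_eq_prod,
    Measure.prod_apply hSm]
  have h2 : ∀ x : ℂ, volume (Prod.mk x ⁻¹' S) =
      A.indicator (fun x => ENNReal.ofReal (2 * ff κ x)) x := by
    intro x
    by_cases hx : x ∈ A
    · rw [indicator_of_mem hx, ← vol_fib]
      congr 1
      ext y
      exact ⟨fun h => h.1.2, fun h => ⟨⟨hAR hx, h⟩, hx⟩⟩
    · rw [indicator_of_notMem hx]
      have : Prod.mk x ⁻¹' S = ∅ := by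
        ext z
        exact ⟨fun h => absurd h.2 hx, fun h => absurd h (notMem_empty _)⟩
      rw [this, measure_empty]
  rw [lintegral_congr h2, lintegral_indicator hA]
  unfold ma
  rw [← integral_const_mul, ofReal_integral_eq_lintegral_ofReal]
  · exact (ff_int hAR).const_mul 2
  · filter_upwards [ae_restrict_mem hA] with x hx
    have := ff_pos hκ0 hκ (hAR hx)
    simp only [Pi.zero_apply]
    linarith

theorem volr_cylO {κ : ℝ} (hκ0 : 0 ≤ κ) (hκ : κ ≤ 1 / 32) {A : Set ℂ} (hA : MeasurableSet A)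
    (hAR : A ⊆ RR) : volume.real (cylO (Bo κ) A) = 2 * ma κ A := by
  rw [Measure.real, vol_cylO hκ0 hκ hA hAR, ENNReal.toReal_ofReal]
  have : 0 ≤ ma κ A := setIntegral_nonneg hA fun x hx => (ff_pos hκ0 hκ (hAR hx)).le
  linarith

lemma cylO_RR (κ : ℝ) : cylO (Bo κ) RR = Bo κ := by
  ext p
  exact ⟨fun h => h.1, fun h => ⟨h, h.1⟩⟩

lemma cylO_inter (κ : ℝ) (A : Set ℂ) : cylO (Bo κ) (A ∩ RR) = cylO (Bo κ) A := by
  ext p
  exact ⟨fun h => ⟨h.1, h.2.1⟩, fun h => ⟨h.1, h.2, h.1.1⟩⟩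

/-! ## Perimeter of a cylindrical set from the planar perimeter -/

open Pool.Agent.TH959.HU in
theorem per_up {κ : ℝ} (hκ0 : 0 ≤ κ) (hκ : κ ≤ 1 / 32) {ε : ℝ} {A : Set ℂ}
    (hA : MeasurableSet A) {C : ℝ} (hP : PR κ A C) : PLe ε (Bo κ) (cylO (Bo κ) A) (2 * C) := by
  intro φ hφ
  have hF : ContDiff ℝ 1 (Fx φ) := (xL _).contDiff.comp (hφ.cd.comp (Sb _).contDiff)
  have hcF : HasCompactSupport (Fx φ) := (hcs_Sb hφ.cs).comp_left (g := xL _) (map_zero _)
  have hts : ∀ q ∈ tsupport (Fx φ), Sb _ q ∈ Bo κ := by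
    intro q hq
    have h1 : tsupport (Fx φ) ⊆ Sb _ ⁻¹' tsupport φ := by
      refine closure_minimal ?_ ((isClosed_tsupport φ).preimage (Sb _).continuous)
      intro q hq
      refine subset_tsupport _ fun h => hq ?_
      unfold Fx
      rw [h, map_zero]
    exact hφ.sub (h1 hq)
  have hz : ∀ x y, y ∉ fib κ x → Fx φ (x, y) = 0 := by
    intro x y hy
    by_contra h
    exact hy (hts (x, y) (subset_tsupport _ h)).2
  have hYc : ContDiff ℝ 1 fun x => (2 : ℝ)⁻¹ • ∫ y, Fx φ (x, y) := by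
    have := (contDiff_marg hF hcF).const_smul (2 : ℝ)⁻¹
    exact this
  have hTW : TR κ fun x => (2 : ℝ)⁻¹ • ∫ y, Fx φ (x, y) := by
    refine ⟨hYc, ?_, ?_, fun x hx => ?_⟩
    · refine HasCompactSupport.intro (K := Prod.fst '' tsupport (Fx φ))
        (hcF.isCompact.image continuous_fst) fun x hx => ?_
      have : ∀ y, Fx φ (x, y) = 0 := by
        intro y
        by_contra h'
        exact hx ⟨(x, y), subset_tsupport _ h', rfl⟩
      simp [this]
    · have h1 : tsupport (fun x => (2 : ℝ)⁻¹ • ∫ y, Fx φ (x, y)) ⊆ Prod.fst '' tsupport (Fx φ) := by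
        refine closure_minimal ?_ (hcF.isCompact.image continuous_fst).isClosed
        intro x hx
        by_contra h
        apply hx
        have : ∀ y, Fx φ (x, y) = 0 := by
          intro y
          by_contra h'
          exact h ⟨(x, y), subset_tsupport _ h', rfl⟩
        simp [this]
      refine h1.trans ?_
      rintro x ⟨⟨x', y⟩, hq, rfl⟩
      exact (hts _ hq).1
    · rw [norm_smul, norm_inv, Real.norm_ofNat, inv_mul_le_iff₀ two_pos]
      have h1 : ‖∫ y, Fx φ (x, y)‖ ≤ ∫ y, (fib κ x).indicator (fun _ => (1 : ℝ)) y := by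
        refine norm_integral_le_of_norm_le ?_ (ae_of_all _ fun y => ?_)
        · refine (integrable_indicator_iff (fib_meas κ x)).2 (integrableOn_const ?_)
          rw [vol_fib]
          exact ENNReal.ofReal_ne_top
        · by_cases hy : y ∈ fib κ x
          · rw [indicator_of_mem hy]
            exact (norm_xc_le ε _).trans (hφ.bd _)
          · rw [indicator_of_notMem hy, hz x y hy, norm_zero]
      have h2 : ∫ y, (fib κ x).indicator (fun _ => (1 : ℝ)) y = 2 * ff κ x := by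
        rw [integral_indicator (fib_meas κ x), setIntegral_const, smul_eq_mul, mul_one,
          real_fib (ff_pos hκ0 hκ hx).le]
      exact h1.trans h2.le
  have h1 := hP _ hTW
  have h2 : ∀ x, dv2 (fun x => (2 : ℝ)⁻¹ • ∫ y, Fx φ (x, y)) x =
      (2 : ℝ)⁻¹ * Lam (fderiv ℝ (fun x => ∫ y, Fx φ (x, y)) x) := fun x =>
    Lam_fderiv (contDiff_marg hF hcF) x
  simp_rw [h2] at h1
  rw [integral_const_mul, inv_mul_le_iff₀ two_pos] at h1
  rw [integral_cylO hφ.cd hφ.cs hφ.sub hA]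
  exact h1

end Pool.Agent.R224.HV
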