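import Pool.Agent.R224.HV.Pl6

/-!
# The competitor in the plane
-/

set_option autoImplicit false

open MeasureTheory Set Metric Filter Topology
open scoped ENNReal Real

noncomputable section

namespace Pool.Agent.R224.HV

open Pool.Agent.TH304.MI Pool.Agent.TH703.HU Pool.Agent.TH742.HU Pool.Agent.TH663.HU
open Pool.Agent.R224.Sl

/-! ## The shear -/

/-- the height function -/
def hp (β γ x : ℝ) : ℝ := β * (γ - x ^ 2)

lemma hp_cont (β γ : ℝ) : Continuous (hp β γ) := by unfold hp; fun_prop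

/-- the shear as a homeomorphism -/
def Sh (β γ : ℝ) : ℝ × ℝ ≃ₜ ℂ where
  toFun p := ⟨p.1, p.2 + hp β γ p.1⟩
  invFun z := (z.re, z.im - hp β γ z.re)
  left_inv p := by simp
  right_inv z := by
    apply Complex.ext <;> simp
  continuous_toFun := by
    have h : Continuous fun p : ℝ × ℝ => ((p.1 : ℂ) + ((p.2 + hp β γ p.1 : ℝ) : ℂ) * Complex.I) := by
      have := hp_cont β γ
      fun_prop
    refine h.congr fun p => ?_
    apply Complex.ext <;> simp
  continuous_invFun := by
    have := hp_cont β γ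
    fun_prop

lemma Sh_apply (β γ : ℝ) (p : ℝ × ℝ) : Sh β γ p = ⟨p.1, p.2 + hp β γ p.1⟩ := rfl

section shear

variable {β γ : ℝ} {g : ℂ → ℝ} (hg : ContDiff ℝ 1 g) (hc : HasCompactSupport g)

include hg hc

lemma fdc (v : ℂ) : Continuous (fun z => fderiv ℝ g z v) :=
  (hg.continuous_fderiv (by norm_num)).clm_apply continuous_const

lemma fds (v : ℂ) : HasCompactSupport (fun z => fderiv ℝ g z v) :=
  (hc.fderiv ℝ).comp_left (g := fun L : ℂ →L[ℝ] ℝ => L v) (by simp)

lemma sh_int (v : ℂ) : Integrable (fun p : ℝ × ℝ => fderiv ℝ g (Sh β γ p) v)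
    ((volume : Measure ℝ).prod volume) :=
  ((fdc hg hc v).comp (Sh β γ).continuous).integrable_of_hasCompactSupport
    ((fds hg hc v).comp_homeomorph (Sh β γ))

/-- vertical derivative -/
lemma sh_vert (x : ℝ) : ∫ s in Iic (0 : ℝ), fderiv ℝ g (Sh β γ (x, s)) Complex.I =
    g ⟨x, hp β γ x⟩ := by
  set f : ℝ → ℝ := fun s => g (Sh β γ (x, s)) with hf
  have hd : ∀ s, HasDerivAt f (fderiv ℝ g (Sh β γ (x, s)) Complex.I) s := by
    intro s
    have h1 : HasDerivAt (fun s : ℝ => Sh β γ (x, s)) Complex.I s := by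
      have h2 : HasDerivAt (fun s : ℝ => ((x : ℂ) + ((hp β γ x : ℝ) : ℂ) * Complex.I) +
          (s : ℂ) * Complex.I) ((1 : ℂ) * Complex.I) s :=
        ((Complex.ofRealCLM.hasDerivAt (x := s)).mul_const Complex.I).const_add _
      rw [one_mul] at h2
      refine h2.congr_of_eventuallyEq (Eventually.of_forall fun s => ?_)
      beta_reduce
      rw [Sh_apply]
      apply Complex.ext <;> simp [add_comm]
    exact (hg.differentiable (by norm_num) _).hasFDerivAt.comp_hasDerivAt s h1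
  have hfc : ContDiff ℝ 1 f := by
    rw [contDiff_one_iff_deriv]
    refine ⟨fun s => (hd s).differentiableAt, ?_⟩
    have : deriv f = fun s => fderiv ℝ g (Sh β γ (x, s)) Complex.I := funext fun s => (hd s).deriv
    rw [this]
    exact ((fdc hg hc Complex.I).comp (Sh β γ).continuous).comp (Continuous.prodMk_right x)
  have hfs : HasCompactSupport f := by
    have h1 : HasCompactSupport (fun p : ℝ × ℝ => g (Sh β γ p)) := hc.comp_homeomorph (Sh β γ)
    refine HasCompactSupport.intro (K := Prod.snd '' tsupport (fun p : ℝ × ℝ => g (Sh β γ p)))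
      (h1.isCompact.image continuous_snd) fun s hs => ?_
    by_contra h
    exact hs ⟨(x, s), subset_tsupport _ h, rfl⟩
  have h1 := hfs.integral_Iic_deriv_eq hfc 0
  have h2 : deriv f = fun s => fderiv ℝ g (Sh β γ (x, s)) Complex.I := funext fun s => (hd s).deriv
  rw [h2] at h1
  rw [h1]
  simp [hf, Sh_apply]

/-- horizontal derivative -/
lemma sh_hor : ∫ x : ℝ, ∫ s in Iic (0 : ℝ), (fderiv ℝ g (Sh β γ (x, s)) 1 +
    (-(2 * β * x)) * fderiv ℝ g (Sh β γ (x, s)) Complex.I) = 0 := by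
  set F : ℝ × ℝ → ℝ := fun p => fderiv ℝ g (Sh β γ p) 1 +
    (-(2 * β * p.1)) * fderiv ℝ g (Sh β γ p) Complex.I with hF
  have hc1 : Continuous F := by
    have a1 := (fdc hg hc 1).comp (Sh β γ).continuous
    have a2 := (fdc hg hc Complex.I).comp (Sh β γ).continuous
    have a3 : Continuous fun p : ℝ × ℝ => -(2 * β * p.1) := by fun_prop
    exact a1.add (a3.mul a2)
  have hs1 : HasCompactSupport F :=
    ((fds hg hc 1).comp_homeomorph (Sh β γ)).add
      (((fds hg hc Complex.I).comp_homeomorph (Sh β γ)).mul_left (f := fun p : ℝ × ℝ => -(2 * β * p.1)))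
  have hFi : Integrable F ((volume : Measure ℝ).prod volume) :=
    hc1.integrable_of_hasCompactSupport hs1
  have hFi2 : Integrable F ((volume : Measure ℝ).prod (volume.restrict (Iic (0 : ℝ)))) := by
    have := hFi.integrableOn (s := univ ×ˢ Iic (0 : ℝ))
    unfold IntegrableOn at this
    rwa [← Measure.prod_restrict, Measure.restrict_univ] at this
  have e1 : ∫ x : ℝ, ∫ s in Iic (0 : ℝ), F (x, s) = ∫ s in Iic (0 : ℝ), ∫ x : ℝ, F (x, s) :=
    integral_integral_swap hFi2
  have e2 : ∀ s : ℝ, ∫ x : ℝ, F (x, s) = 0 := by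
    intro s
    set f : ℝ → ℝ := fun x => g (Sh β γ (x, s)) with hf
    have hd : ∀ x, HasDerivAt f (F (x, s)) x := by
      intro x
      have h1 : HasDerivAt (fun x : ℝ => Sh β γ (x, s)) (1 + (-(2 * β * x) : ℝ) • Complex.I) x := by
        have h3 : HasDerivAt (fun x : ℝ => hp β γ x) (-(2 * β * x)) x := by
          unfold hp
          have := (((hasDerivAt_id x).pow 2).const_sub γ).const_mul β
          refine this.congr_deriv ?_
          simp; ring
        have h2 : HasDerivAt (fun x : ℝ => (x : ℂ) + ((s + hp β γ x : ℝ) : ℂ) * Complex.I)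
            ((1 : ℂ) + ((-(2 * β * x) : ℝ) : ℂ) * Complex.I) x := by
          refine (Complex.ofRealCLM.hasDerivAt (x := x)).add ?_
          exact ((h3.const_add s).ofReal_comp).mul_const Complex.I
        rw [Complex.real_smul]
        refine h2.congr_of_eventuallyEq (Eventually.of_forall fun x => ?_)
        beta_reduce
        rw [Sh_apply]
        apply Complex.ext <;> simp
      have h4 := (hg.differentiable (by norm_num) (Sh β γ (x, s))).hasFDerivAt.comp_hasDerivAt x h1
      rw [map_add, map_smul, smul_eq_mul] at h4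
      exact h4
    have hint : Integrable (fun x => F (x, s)) := by
      refine (hc1.comp (Continuous.prodMk_left s)).integrable_of_hasCompactSupport ?_
      refine HasCompactSupport.intro (K := Prod.fst '' tsupport F)
        (hs1.isCompact.image continuous_fst) fun x hx => ?_
      by_contra h
      exact hx ⟨(x, s), subset_tsupport _ h, rfl⟩
    have hfs : HasCompactSupport f := by
      have h1 : HasCompactSupport (fun p : ℝ × ℝ => g (Sh β γ p)) := hc.comp_homeomorph (Sh β γ)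
      refine HasCompactSupport.intro (K := Prod.fst '' tsupport (fun p : ℝ × ℝ => g (Sh β γ p)))
        (h1.isCompact.image continuous_fst) fun x hx => ?_
      by_contra h
      exact hx ⟨(x, s), subset_tsupport _ h, rfl⟩
    have hfc : Continuous f :=
      (hg.continuous.comp (Sh β γ).continuous).comp (Continuous.prodMk_left s)
    exact integral_eq_zero_of_hasDerivAt_of_integrable hd hint
      (hfc.integrable_of_hasCompactSupport hfs)
  rw [e1]
  simp_rw [e2]
  simp

end shear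

/-- subgraph in the plane -/
def Sg (β γ : ℝ) : Set ℂ := {z | z.im < hp β γ z.re}

lemma Sg_meas (β γ : ℝ) : MeasurableSet (Sg β γ) :=
  measurableSet_lt Complex.measurable_im ((hp_cont β γ).measurable.comp Complex.measurable_re)

/-- Fubini in `ℂ` -/
lemma int_C {F : ℂ → ℝ} (hF : Integrable F) : ∫ z, F z = ∫ x : ℝ, ∫ t : ℝ, F ⟨x, t⟩ := by
  have h1 := (Complex.volume_preserving_equiv_real_prod.symm).integral_comp
    Complex.measurableEquivRealProd.symm.measurableEmbedding F
  rw [← h1, Measure.volume_eq_prod, integral_prod]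
  · rfl
  · have := (Complex.volume_preserving_equiv_real_prod.symm).integrable_comp_emb
      Complex.measurableEquivRealProd.symm.measurableEmbedding (g := F)
    exact this.2 hF

lemma int_Sg {F : ℂ → ℝ} (hF : Integrable F) (β γ : ℝ) :
    ∫ z in Sg β γ, F z = ∫ x : ℝ, ∫ s in Iic (0 : ℝ), F (Sh β γ (x, s)) := by
  rw [← integral_indicator (Sg_meas β γ), int_C (hF.indicator (Sg_meas β γ))]
  refine integral_congr_ae (Eventually.of_forall fun x => ?_)
  simp only
  rw [← integral_add_right_eq_self (fun t : ℝ => (Sg β γ).indicator F ⟨x, t⟩) (hp β γ x),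
    integral_Iic_eq_integral_Iio, ← integral_indicator measurableSet_Iio]
  refine integral_congr_ae (Eventually.of_forall fun s => ?_)
  simp only
  by_cases hs : s ∈ Iio (0 : ℝ)
  · have : (⟨x, s + hp β γ x⟩ : ℂ) ∈ Sg β γ := by
      change s + hp β γ x < hp β γ x
      have : s < 0 := hs
      linarith
    rw [indicator_of_mem this, indicator_of_mem hs, Sh_apply]
  · have : (⟨x, s + hp β γ x⟩ : ℂ) ∉ Sg β γ := by
      intro h
      change s + hp β γ x < hp β γ x at h
      exact hs (by change s < 0; linarith)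
    rw [indicator_of_notMem this, indicator_of_notMem hs]

/-- The divergence theorem on the subgraph. -/
lemma div_Sg {Y : ℂ → ℂ} (hY : ContDiff ℝ 1 Y) (hc : HasCompactSupport Y) (β γ : ℝ) :
    ∫ z in Sg β γ, dv2 Y z =
      ∫ x : ℝ, ((Y ⟨x, hp β γ x⟩).im + 2 * β * x * (Y ⟨x, hp β γ x⟩).re) := by
  have h1 := re_cd hY
  have h2 := im_cd hY
  have s1 := re_cs hc
  have s2 := im_cs hc
  rw [int_Sg (dv2_int hY hc)]
  have i1 : ∀ x, IntegrableOn (fun s => fderiv ℝ (fun z => (Y z).re) (Sh β γ (x, s)) 1)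
      (Iic (0 : ℝ)) := by
    intro x
    refine Integrable.integrableOn (Continuous.integrable_of_hasCompactSupport
      (((fdc h1 s1 1).comp (Sh β γ).continuous).comp (Continuous.prodMk_right x)) ?_)
    have h3 := (fds h1 s1 1).comp_homeomorph (Sh β γ)
    refine HasCompactSupport.intro (K := Prod.snd '' tsupport
      ((fun z => fderiv ℝ (fun z => (Y z).re) z 1) ∘ (Sh β γ)))
      (h3.isCompact.image continuous_snd) fun s hs => ?_
    by_contra h
    exact hs ⟨(x, s), subset_tsupport _ h, rfl⟩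
  have iI : ∀ (g : ℂ → ℝ) (_ : ContDiff ℝ 1 g) (_ : HasCompactSupport g) (x : ℝ),
      IntegrableOn (fun s => fderiv ℝ g (Sh β γ (x, s)) Complex.I) (Iic (0 : ℝ)) := by
    intro g hg hgc x
    refine Integrable.integrableOn (Continuous.integrable_of_hasCompactSupport
      (((fdc hg hgc Complex.I).comp (Sh β γ).continuous).comp (Continuous.prodMk_right x)) ?_)
    have h3 := (fds hg hgc Complex.I).comp_homeomorph (Sh β γ)
    refine HasCompactSupport.intro (K := Prod.snd '' tsupport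
      ((fun z => fderiv ℝ g z Complex.I) ∘ (Sh β γ)))
      (h3.isCompact.image continuous_snd) fun s hs => ?_
    by_contra h
    exact hs ⟨(x, s), subset_tsupport _ h, rfl⟩
  have e1 : ∀ x : ℝ, ∫ s in Iic (0 : ℝ), dv2 Y (Sh β γ (x, s)) =
      (∫ s in Iic (0 : ℝ), (fderiv ℝ (fun z => (Y z).re) (Sh β γ (x, s)) 1 +
        (-(2 * β * x)) * fderiv ℝ (fun z => (Y z).re) (Sh β γ (x, s)) Complex.I)) +
      ((Y ⟨x, hp β γ x⟩).im + 2 * β * x * (Y ⟨x, hp β γ x⟩).re) := by
    intro x
    simp_rw [dv2_eq hY]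
    rw [integral_add (i1 x) (iI _ h2 s2 x), integral_add (i1 x) ((iI _ h1 s1 x).const_mul _),
      integral_const_mul, sh_vert h2 s2, sh_vert h1 s1]
    ring
  simp_rw [e1]
  have iP : Integrable (fun x : ℝ => ∫ s in Iic (0 : ℝ),
      (fderiv ℝ (fun z => (Y z).re) (Sh β γ (x, s)) 1 +
        (-(2 * β * x)) * fderiv ℝ (fun z => (Y z).re) (Sh β γ (x, s)) Complex.I)) := by
    have hFi : Integrable (fun p : ℝ × ℝ => fderiv ℝ (fun z => (Y z).re) (Sh β γ p) 1 +
        (-(2 * β * p.1)) * fderiv ℝ (fun z => (Y z).re) (Sh β γ p) Complex.I)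
        ((volume : Measure ℝ).prod volume) := by
      have a1 := (fdc h1 s1 1).comp (Sh β γ).continuous
      have a2 := (fdc h1 s1 Complex.I).comp (Sh β γ).continuous
      have a3 : Continuous fun p : ℝ × ℝ => -(2 * β * p.1) := by fun_prop
      exact (a1.add (a3.mul a2)).integrable_of_hasCompactSupport
        (((fds h1 s1 1).comp_homeomorph (Sh β γ)).add
        (((fds h1 s1 Complex.I).comp_homeomorph (Sh β γ)).mul_left
          (f := fun p : ℝ × ℝ => -(2 * β * p.1))))
    have hFi2 := hFi.integrableOn (s := univ ×ˢ Iic (0 : ℝ))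
    unfold IntegrableOn at hFi2
    rw [← Measure.prod_restrict, Measure.restrict_univ] at hFi2
    exact hFi2.integral_prod_left
  have hmap : Continuous fun x : ℝ => (⟨x, hp β γ x⟩ : ℂ) := by
    have h3 : (fun x : ℝ => (⟨x, hp β γ x⟩ : ℂ)) = fun x => Sh β γ (x, 0) := by
      funext x; rw [Sh_apply]; simp
    rw [h3]
    exact (Sh β γ).continuous.comp (Continuous.prodMk_left 0)
  have cs1 : ∀ (g : ℂ → ℝ), HasCompactSupport g → HasCompactSupport fun x : ℝ => g ⟨x, hp β γ x⟩ := by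
    intro g hgc
    refine HasCompactSupport.intro (K := Complex.re '' tsupport g)
      (hgc.isCompact.image Complex.continuous_re) fun x hx => ?_
    by_contra h
    exact hx ⟨⟨x, hp β γ x⟩, subset_tsupport _ h, rfl⟩
  have iQ : Integrable (fun x : ℝ => (Y ⟨x, hp β γ x⟩).im + 2 * β * x * (Y ⟨x, hp β γ x⟩).re) := by
    refine Continuous.integrable_of_hasCompactSupport ?_ ?_
    · have a1 := h2.continuous.comp hmap
      have a2 := h1.continuous.comp hmap
      have a3 : Continuous fun x : ℝ => 2 * β * x := by fun_prop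
      exact a1.add (a3.mul a2)
    · exact (cs1 _ s2).add ((cs1 _ s1).mul_left (f := fun x : ℝ => 2 * β * x))
  rw [integral_add iP iQ, sh_hor h1 s1, zero_add]

/-! ## The competitor -/

/-- competitor -/
def Cm (β γ : ℝ) : Set ℂ := RR ∩ Sg β γ

lemma Cm_meas (β γ : ℝ) : MeasurableSet (Cm β γ) := isOpen_RR.measurableSet.inter (Sg_meas β γ)

lemma Cm_per {κ : ℝ} (β γ : ℝ) :
    PR κ (Cm β γ) (∫ x in Ioo (-1 : ℝ) 1, (1 + 2 * β ^ 2 * x ^ 2) * fp κ ⟨x, hp β γ x⟩) := by
  intro Y hY
  have e0 : ∫ z in Cm β γ, dv2 Y z = ∫ z in Sg β γ, dv2 Y z := by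
    unfold Cm
    rw [inter_comm, ← setIntegral_indicator isOpen_RR.measurableSet]
    refine integral_congr_ae (Eventually.of_forall fun z => ?_)
    by_cases hz : z ∈ RR
    · simp only [indicator_of_mem hz]
    · simp only [indicator_of_notMem hz]
      exact (dv2_out fun h => hz (hY.sub h)).symm
  rw [e0, div_Sg hY.cd hY.cs]
  have hzero : ∀ x ∉ Ioo (-1 : ℝ) 1,
      (Y ⟨x, hp β γ x⟩).im + 2 * β * x * (Y ⟨x, hp β γ x⟩).re = 0 := by
    intro x hx
    have : Y ⟨x, hp β γ x⟩ = 0 := by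
      apply image_eq_zero_of_notMem_tsupport
      intro h
      exact hx (mem_RR.1 (hY.sub h)).1
    rw [this]; simp
  rw [← setIntegral_eq_integral_of_forall_compl_eq_zero hzero]
  refine setIntegral_mono_on ?_ ?_ measurableSet_Ioo fun x hx => ?_
  · have hmap : Continuous fun x : ℝ => (⟨x, hp β γ x⟩ : ℂ) := by
      have h3 : (fun x : ℝ => (⟨x, hp β γ x⟩ : ℂ)) = fun x => Sh β γ (x, 0) := by
        funext x; rw [Sh_apply]; simp
      rw [h3]
      exact (Sh β γ).continuous.comp (Continuous.prodMk_left 0)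
    have a1 := (im_cd hY.cd).continuous.comp hmap
    have a2 := (re_cd hY.cd).continuous.comp hmap
    have a3 : Continuous fun x : ℝ => 2 * β * x := by fun_prop
    have a4 := (a1.add (a3.mul a2)).continuousOn (s := Icc (-1 : ℝ) 1)
    exact (a4.integrableOn_compact isCompact_Icc).mono_set Ioo_subset_Icc_self
  · have hmap : Continuous fun x : ℝ => (⟨x, hp β γ x⟩ : ℂ) := by
      have h3 : (fun x : ℝ => (⟨x, hp β γ x⟩ : ℂ)) = fun x => Sh β γ (x, 0) := by
        funext x; rw [Sh_apply]; simp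
      rw [h3]
      exact (Sh β γ).continuous.comp (Continuous.prodMk_left 0)
    have a1 := (fp_cont κ).comp hmap
    have a3 : Continuous fun x : ℝ => 1 + 2 * β ^ 2 * x ^ 2 := by fun_prop
    have a4 := (a3.mul a1).continuousOn (s := Icc (-1 : ℝ) 1)
    exact (a4.integrableOn_compact isCompact_Icc).mono_set Ioo_subset_Icc_self
  · set w : ℂ := Y ⟨x, hp β γ x⟩ with hw
    have h1 : ‖w‖ ≤ fp κ ⟨x, hp β γ x⟩ := by
      by_cases hR : (⟨x, hp β γ x⟩ : ℂ) ∈ RR
      · exact (hY.le _ hR).trans (le_max_right _ _)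
      · have : w = 0 := by
          apply image_eq_zero_of_notMem_tsupport
          exact fun h => hR (hY.sub h)
        rw [this, norm_zero]
        exact fp_nonneg _ _
    have h2 : w.im + 2 * β * x * w.re ≤ (1 + 2 * β ^ 2 * x ^ 2) * ‖w‖ := by
      have h3 : (w.im + 2 * β * x * w.re) ^ 2 ≤ ((1 + 2 * β ^ 2 * x ^ 2) * ‖w‖) ^ 2 := by
        have h4 : ‖w‖ ^ 2 = w.re ^ 2 + w.im ^ 2 := by
          rw [← Complex.normSq_eq_norm_sq, Complex.normSq_apply]; ring
        rw [mul_pow, h4]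
        have h5 : (w.im + 2 * β * x * w.re) ^ 2 ≤ (1 + (2 * β * x) ^ 2) * (w.re ^ 2 + w.im ^ 2) := by
          nlinarith [sq_nonneg (2 * β * x * w.im - w.re)]
        have h6 : 1 + (2 * β * x) ^ 2 ≤ (1 + 2 * β ^ 2 * x ^ 2) ^ 2 := by
          nlinarith [sq_nonneg (β ^ 2 * x ^ 2)]
        exact h5.trans (mul_le_mul_of_nonneg_right h6 (by positivity))
      exact abs_le_of_sq_le_sq' h3 (by positivity) |>.2
    exact h2.trans (mul_le_mul_of_nonneg_left h1 (by positivity))

lemma x2_int : ∫ x in Ioo (-1 : ℝ) 1, x ^ 2 = 2 / 3 := by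
  rw [← integral_Ioc_eq_integral_Ioo, ← intervalIntegral.integral_of_le (by norm_num), integral_pow]
  norm_num

/-- cost of the competitor -/
lemma Cm_cost {κ γ : ℝ} (hκ0 : 0 ≤ κ) (hγ : 31 / 100 ≤ γ) (hκ1 : κ ≤ 1 / 1000) (hγ1 : γ ≤ 1) :
    ∫ x in Ioo (-1 : ℝ) 1, (1 + 2 * (κ / 32) ^ 2 * x ^ 2) * fp κ ⟨x, hp (κ / 32) γ x⟩ ≤
      M0 - κ ^ 2 / 1000 := by
  set β := κ / 32 with hβ
  have hβ0 : 0 ≤ β := by positivity
  have e1 : M0 = ∫ x in Ioo (-1 : ℝ) 1, ph x := by
    unfold M0
    rw [intervalIntegral.integral_of_le (by norm_num), integral_Ioc_eq_integral_Ioo]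
  have hmap : Continuous fun x : ℝ => (⟨x, hp β γ x⟩ : ℂ) := by
    have h3 : (fun x : ℝ => (⟨x, hp β γ x⟩ : ℂ)) = fun x => Sh β γ (x, 0) := by
      funext x; rw [Sh_apply]; simp
    rw [h3]
    exact (Sh β γ).continuous.comp (Continuous.prodMk_left 0)
  have i1 : IntegrableOn (fun x => (1 + 2 * β ^ 2 * x ^ 2) * fp κ ⟨x, hp β γ x⟩)
      (Ioo (-1 : ℝ) 1) := by
    have a1 := (fp_cont κ).comp hmap
    have a3 : Continuous fun x : ℝ => 1 + 2 * β ^ 2 * x ^ 2 := by fun_prop
    have a4 := (a3.mul a1).continuousOn (s := Icc (-1 : ℝ) 1)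
    exact (a4.integrableOn_compact isCompact_Icc).mono_set Ioo_subset_Icc_self
  have i2 : IntegrableOn ph (Ioo (-1 : ℝ) 1) :=
    (continuous_ph.continuousOn.integrableOn_compact isCompact_Icc).mono_set Ioo_subset_Icc_self
  have i3 : IntegrableOn (fun x => 2 * β ^ 2 * x ^ 2) (Ioo (-1 : ℝ) 1) := by
    have hc : Continuous fun x : ℝ => 2 * β ^ 2 * x ^ 2 := by fun_prop
    exact (hc.continuousOn.integrableOn_compact isCompact_Icc).mono_set Ioo_subset_Icc_self
  have i4 : IntegrableOn ((Ioo (-(1 / 8) : ℝ) (1 / 8)).indicator (fun x => κ * hp β γ x))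
      (Ioo (-1 : ℝ) 1) := by
    have hc := (hp_cont β γ).const_mul κ
    refine Integrable.indicator ?_ measurableSet_Ioo
    exact (hc.continuousOn.integrableOn_compact isCompact_Icc).mono_set Ioo_subset_Icc_self
  have hpb : ∀ x ∈ Ioo (-1 : ℝ) 1, |hp β γ x| ≤ 1 := by
    intro x hx
    unfold hp
    rw [abs_mul, abs_of_nonneg hβ0]
    have h1 : |γ - x ^ 2| ≤ 1 := by
      rw [abs_le]
      have : x ^ 2 ≤ 1 := by nlinarith [hx.1, hx.2]
      constructor <;> nlinarith [sq_nonneg x]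
    have h2 : β ≤ 1 := by rw [hβ]; linarith
    exact mul_le_one₀ h2 (abs_nonneg _) h1
  have pw : ∀ x ∈ Ioo (-1 : ℝ) 1, (1 + 2 * β ^ 2 * x ^ 2) * fp κ ⟨x, hp β γ x⟩ ≤
      (ph + (fun x => 2 * β ^ 2 * x ^ 2) -
        (Ioo (-(1 / 8) : ℝ) (1 / 8)).indicator (fun x => κ * hp β γ x) : ℝ → ℝ) x := by
    intro x hx
    have hR : (⟨x, hp β γ x⟩ : ℂ) ∈ RR := by
      have := abs_le.1 (hpb x hx)
      exact mem_RR.2 ⟨hx, by linarith [this.1], by linarith [this.2]⟩
    rw [fp_eq hκ0 (by linarith) hR]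
    simp only [Pi.sub_apply, Pi.add_apply]
    have h1 : ff κ ⟨x, hp β γ x⟩ ≤ 1 := ff_le_one _
    have h2 : ff κ ⟨x, hp β γ x⟩ ≤ ph x := min_le_left _ _
    have h3 : 0 ≤ 2 * β ^ 2 * x ^ 2 := by positivity
    have h4 : (1 + 2 * β ^ 2 * x ^ 2) * ff κ ⟨x, hp β γ x⟩ ≤
        ff κ ⟨x, hp β γ x⟩ + 2 * β ^ 2 * x ^ 2 := by nlinarith
    by_cases hx8 : x ∈ Ioo (-(1 / 8) : ℝ) (1 / 8)
    · rw [indicator_of_mem hx8]
      have h5 : |x| ≤ 1 / 8 := abs_le.2 ⟨hx8.1.le, hx8.2.le⟩
      rw [ph_eq_one h5]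
      have h6 : ff κ ⟨x, hp β γ x⟩ ≤ 1 - κ * |hp β γ x| := min_le_right _ _
      have h7 : κ * hp β γ x ≤ κ * |hp β γ x| := mul_le_mul_of_nonneg_left (le_abs_self _) hκ0
      linarith
    · rw [indicator_of_notMem hx8]
      linarith
  have hint := setIntegral_mono_on i1 ((i2.add i3).sub i4) measurableSet_Ioo pw
  refine hint.trans ?_
  have e2 : ∫ x in Ioo (-1 : ℝ) 1, (ph + (fun x => 2 * β ^ 2 * x ^ 2) -
        (Ioo (-(1 / 8) : ℝ) (1 / 8)).indicator (fun x => κ * hp β γ x) : ℝ → ℝ) x =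
      M0 + (∫ x in Ioo (-1 : ℝ) 1, 2 * β ^ 2 * x ^ 2) -
      ∫ x in Ioo (-1 : ℝ) 1, (Ioo (-(1 / 8) : ℝ) (1 / 8)).indicator (fun x => κ * hp β γ x) x := by
    rw [integral_sub' (i2.add i3) i4, integral_add' i2 i3, e1]
  rw [e2, integral_const_mul, x2_int, integral_indicator measurableSet_Ioo,
    Measure.restrict_restrict measurableSet_Ioo, integral_const_mul]
  have e3 : (Ioo (-(1 / 8) : ℝ) (1 / 8)) ∩ Ioo (-1 : ℝ) 1 = Ioo (-(1 / 8) : ℝ) (1 / 8) :=
    inter_eq_left.2 fun x hx => ⟨by linarith [hx.1], by linarith [hx.2]⟩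
  have e4 : ∫ x in Ioo (-(1 / 8) : ℝ) (1 / 8), hp β γ x = β * (γ / 4 - 1 / 768) := by
    unfold hp
    rw [integral_const_mul, ← integral_Ioc_eq_integral_Ioo,
      ← intervalIntegral.integral_of_le (by norm_num), intervalIntegral.integral_sub
        intervalIntegrable_const ((continuous_pow 2).intervalIntegrable _ _), integral_pow,
      intervalIntegral.integral_const, smul_eq_mul]
    ring
  rw [e3, e4, hβ]
  have h1 : γ / 4 - 1 / 768 ≥ 761 / 10000 := by linarith
  have h2 : κ * (κ / 32 * (γ / 4 - 1 / 768)) ≥ κ * (κ / 32 * (761 / 10000)) := by gcongr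
  nlinarith [sq_nonneg κ]

end Pool.Agent.R224.HV
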