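import Pool.Agent.R224.HV.Comp

/-!
# The competitor in the plane: mass
-/

set_option autoImplicit false

open MeasureTheory Set Metric Filter Topology
open scoped ENNReal Real

noncomputable section

namespace Pool.Agent.R224.HV

open Pool.Agent.TH304.MI Pool.Agent.TH703.HU Pool.Agent.TH742.HU Pool.Agent.TH663.HU
open Pool.Agent.R224.Sl

/-- mass of a subgraph -/
lemma ma_graph {κ : ℝ} {b : ℝ → ℝ} (hb : Continuous b) (hb3 : ∀ x ∈ Ioo (-1 : ℝ) 1, |b x| ≤ 3)
    {S : Set ℂ} (hS : S = RR ∩ {z | z.im < b z.re}) :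
    ma κ S = ∫ x in Ioo (-1 : ℝ) 1, ∫ t in (-3 : ℝ)..(b x), ff κ ⟨x, t⟩ := by
  have hm : MeasurableSet {z : ℂ | z.im < b z.re} :=
    measurableSet_lt Complex.measurable_im (hb.measurable.comp Complex.measurable_re)
  have hSm : MeasurableSet S := by rw [hS]; exact isOpen_RR.measurableSet.inter hm
  have hSR : S ⊆ RR := by rw [hS]; exact inter_subset_left
  unfold ma
  rw [← integral_indicator hSm, int_C ((integrable_indicator_iff hSm).2 (ff_int hSR)),
    ← integral_indicator measurableSet_Ioo]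
  refine integral_congr_ae (Eventually.of_forall fun x => ?_)
  by_cases hx : x ∈ Ioo (-1 : ℝ) 1
  · simp only [indicator_of_mem hx]
    have h3 := abs_le.1 (hb3 x hx)
    rw [intervalIntegral.integral_of_le h3.1, integral_Ioc_eq_integral_Ioo,
      ← integral_indicator measurableSet_Ioo]
    refine integral_congr_ae (Eventually.of_forall fun t => ?_)
    by_cases ht : t ∈ Ioo (-3) (b x)
    · have : (⟨x, t⟩ : ℂ) ∈ S := by
        rw [hS]
        exact ⟨mem_RR.2 ⟨hx, ht.1, by linarith [ht.2]⟩, ht.2⟩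
      simp only [indicator_of_mem this, indicator_of_mem ht]
    · have : (⟨x, t⟩ : ℂ) ∉ S := by
        rw [hS]
        rintro ⟨h4, h5⟩
        exact ht ⟨(mem_RR.1 h4).2.1, h5⟩
      simp only [indicator_of_notMem this, indicator_of_notMem ht]
  · simp only [indicator_of_notMem hx]
    have : ∀ t : ℝ, S.indicator (ff κ) ⟨x, t⟩ = 0 := by
      intro t
      apply indicator_of_notMem
      intro h
      exact hx (mem_RR.1 (hSR h)).1
    simp_rw [this]
    simp

/-- mass above the axis -/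
def De (κ β γ : ℝ) : ℝ := ∫ x in (-1 : ℝ)..1, ∫ t in (0 : ℝ)..(hp β γ x), ff κ ⟨x, t⟩

lemma ffc (κ x : ℝ) : Continuous fun t : ℝ => ff κ ⟨x, t⟩ := by
  have h2 : (fun t : ℝ => ff κ ⟨x, t⟩) = fun t : ℝ => min (ph x) (1 - κ * |t|) := rfl
  rw [h2]
  fun_prop

lemma De_cont (κ β : ℝ) : Continuous (De κ β) := by
  unfold De
  have h1 : Continuous fun q : ℝ × ℝ => ∫ t in (0 : ℝ)..(hp β q.1 q.2), ff κ ⟨q.2, t⟩ := by
    refine intervalIntegral.continuous_parametric_intervalIntegral_of_continuous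
      (f := fun (q : ℝ × ℝ) (t : ℝ) => ff κ ⟨q.2, t⟩) (s := fun q : ℝ × ℝ => hp β q.1 q.2) ?_ ?_
    · have h2 : (Function.uncurry fun (q : ℝ × ℝ) (t : ℝ) => ff κ ⟨q.2, t⟩) =
          fun p : (ℝ × ℝ) × ℝ => min (ph p.1.2) (1 - κ * |p.2|) := rfl
      rw [h2]
      have := continuous_ph
      fun_prop
    · unfold hp; fun_prop
  exact intervalIntegral.continuous_parametric_intervalIntegral_of_continuous'
    (f := fun (γ x : ℝ) => ∫ t in (0 : ℝ)..(hp β γ x), ff κ ⟨x, t⟩) h1 (-1) 1

lemma Cm_mass {κ β γ : ℝ} (hβ : 0 ≤ β) (hβ1 : β ≤ 1) (h0 : 0 ≤ γ) (h1 : γ ≤ 1) :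
    ma κ (Cm β γ) = ma κ RR / 2 + De κ β γ := by
  have hpb : ∀ x ∈ Ioo (-1 : ℝ) 1, |hp β γ x| ≤ 3 := by
    intro x hx
    unfold hp
    rw [abs_mul, abs_of_nonneg hβ]
    have h1 : |γ - x ^ 2| ≤ 1 := by
      rw [abs_le]
      have : x ^ 2 ≤ 1 := by nlinarith [hx.1, hx.2]
      constructor <;> nlinarith [sq_nonneg x]
    exact (mul_le_one₀ hβ1 (abs_nonneg _) h1).trans (by norm_num)
  have e1 := ma_graph (κ := κ) (hp_cont β γ) hpb (S := Cm β γ) rfl
  have e2 := ma_graph (κ := κ) (b := fun _ => 0) continuous_const (fun x _ => by simp)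
    (S := Lo 0) rfl
  rw [ma_Lo0] at e2
  rw [e1, e2]
  unfold De
  rw [intervalIntegral.integral_of_le (by norm_num), integral_Ioc_eq_integral_Ioo]
  have c1 : Continuous fun x : ℝ => ∫ t in (-3 : ℝ)..0, ff κ ⟨x, t⟩ := by
    refine intervalIntegral.continuous_parametric_intervalIntegral_of_continuous'
      (f := fun (x t : ℝ) => ff κ ⟨x, t⟩) ?_ (-3) 0
    have h2 : (Function.uncurry fun (x t : ℝ) => ff κ ⟨x, t⟩) =
          fun p : ℝ × ℝ => min (ph p.1) (1 - κ * |p.2|) := rfl
    rw [h2]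
    have := continuous_ph
    fun_prop
  have c2 : Continuous fun x : ℝ => ∫ t in (0 : ℝ)..(hp β γ x), ff κ ⟨x, t⟩ := by
    refine intervalIntegral.continuous_parametric_intervalIntegral_of_continuous
      (f := fun (x t : ℝ) => ff κ ⟨x, t⟩) (s := fun x : ℝ => hp β γ x) ?_ (hp_cont β γ)
    have h2 : (Function.uncurry fun (x t : ℝ) => ff κ ⟨x, t⟩) =
          fun p : ℝ × ℝ => min (ph p.1) (1 - κ * |p.2|) := rfl
    rw [h2]
    have := continuous_ph
    fun_prop
  rw [← integral_add ((c1.continuousOn.integrableOn_compact isCompact_Icc).mono_set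
    Ioo_subset_Icc_self) ((c2.continuousOn.integrableOn_compact isCompact_Icc).mono_set
    Ioo_subset_Icc_self)]
  refine integral_congr_ae (Eventually.of_forall fun x => ?_)
  exact (intervalIntegral.integral_add_adjacent_intervals ((ffc κ x).intervalIntegrable _ _)
    ((ffc κ x).intervalIntegrable _ _)).symm

/-- the inner integral is at most `h ph + κ h^2` -/
lemma inner_le {κ : ℝ} (hκ : 0 ≤ κ) (x h : ℝ) :
    ∫ t in (0 : ℝ)..h, ff κ ⟨x, t⟩ ≤ h * ph x + κ * h ^ 2 := by
  have ub : ∀ t : ℝ, ff κ ⟨x, t⟩ ≤ ph x := fun t => min_le_left _ _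
  have lb : ∀ t : ℝ, ph x - κ * |t| ≤ ff κ ⟨x, t⟩ := by
    intro t
    have h0 : 0 ≤ κ * |t| := mul_nonneg hκ (abs_nonneg t)
    have h1 := ph_le_one x
    exact le_min (by linarith) (by change ph x - κ * |t| ≤ 1 - κ * |t|; linarith)
  rcases le_total 0 h with h0 | h0
  · have : ∫ t in (0 : ℝ)..h, ff κ ⟨x, t⟩ ≤ ∫ _t in (0 : ℝ)..h, ph x :=
      intervalIntegral.integral_mono_on h0 ((ffc κ x).intervalIntegrable _ _)
        intervalIntegrable_const fun t _ => ub t
    rw [intervalIntegral.integral_const, smul_eq_mul, sub_zero] at this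
    have h2 : 0 ≤ κ * h ^ 2 := by positivity
    linarith
  · rw [intervalIntegral.integral_symm]
    have : ∫ _t in h..(0 : ℝ), (ph x - κ * |h|) ≤ ∫ t in h..(0 : ℝ), ff κ ⟨x, t⟩ :=
      intervalIntegral.integral_mono_on h0 intervalIntegrable_const
        ((ffc κ x).intervalIntegrable _ _) fun t ht => by
          refine le_trans ?_ (lb t)
          have h1 : |t| ≤ |h| := by
            rw [abs_of_nonpos ht.2, abs_of_nonpos h0]; linarith [ht.1]
          have := mul_le_mul_of_nonneg_left h1 hκ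
          linarith
    rw [intervalIntegral.integral_const, smul_eq_mul, zero_sub, abs_of_nonpos h0] at this
    nlinarith

/-- the inner integral has the sign of `h` -/
lemma inner_nonneg {κ : ℝ} (hκ : 0 ≤ κ) (hκ1 : κ ≤ 1 / 32) {x h : ℝ} (hx : x ∈ Icc (-1 : ℝ) 1)
    (h0 : 0 ≤ h) (h3 : h ≤ 3) : 0 ≤ ∫ t in (0 : ℝ)..h, ff κ ⟨x, t⟩ := by
  refine intervalIntegral.integral_nonneg h0 fun t ht => ?_
  refine le_min (le_trans (by norm_num) (ph_ge (abs_le.2 hx))) ?_
  have h1 : |t| ≤ 3 := by rw [abs_of_nonneg ht.1]; linarith [ht.2]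
  have := mul_le_mul_of_nonneg_left h1 hκ
  change 0 ≤ 1 - κ * |t|
  linarith

lemma x2ph : 29 / 48 ≤ ∫ x in (-1 : ℝ)..1, x ^ 2 * ph x := by
  have h1 : ∫ x in (-1 : ℝ)..1, x ^ 2 * (1 - |x| / 8) ≤ ∫ x in (-1 : ℝ)..1, x ^ 2 * ph x := by
    refine intervalIntegral.integral_mono_on (by norm_num) ?_ ?_ fun x _ => ?_
    · exact Continuous.intervalIntegrable (by fun_prop) _ _
    · have := continuous_ph
      exact Continuous.intervalIntegrable (by fun_prop) _ _
    · exact mul_le_mul_of_nonneg_left (ph_ge' x) (sq_nonneg x)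
  refine le_trans (le_of_eq ?_) h1
  have hc : Continuous fun x : ℝ => x ^ 2 * (1 - |x| / 8) := by fun_prop
  rw [← intervalIntegral.integral_add_adjacent_intervals (hc.intervalIntegrable (-1) 0)
    (hc.intervalIntegrable 0 1)]
  have e1 : ∫ x in (-1 : ℝ)..0, x ^ 2 * (1 - |x| / 8) = ∫ x in (-1 : ℝ)..0, (x ^ 2 + x ^ 3 / 8) := by
    refine intervalIntegral.integral_congr fun x hx => ?_
    rw [uIcc_of_le (by norm_num)] at hx
    rw [abs_of_nonpos hx.2]; ring
  have e2 : ∫ x in (0 : ℝ)..1, x ^ 2 * (1 - |x| / 8) = ∫ x in (0 : ℝ)..1, (x ^ 2 - x ^ 3 / 8) := by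
    refine intervalIntegral.integral_congr fun x hx => ?_
    rw [uIcc_of_le (by norm_num)] at hx
    rw [abs_of_nonneg hx.1]; ring
  have i2 : ∀ a b : ℝ, IntervalIntegrable (fun x : ℝ => x ^ 2) volume a b :=
    fun a b => (continuous_pow 2).intervalIntegrable _ _
  have i3 : ∀ a b : ℝ, IntervalIntegrable (fun x : ℝ => x ^ 3 / 8) volume a b :=
    fun a b => Continuous.intervalIntegrable (by fun_prop) _ _
  rw [e1, e2, intervalIntegral.integral_add (i2 _ _) (i3 _ _),
    intervalIntegral.integral_sub (i2 _ _) (i3 _ _), intervalIntegral.integral_div,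
    intervalIntegral.integral_div, integral_pow, integral_pow, integral_pow, integral_pow]
  norm_num

lemma M0_le' : M0 ≤ 61 / 32 := by
  unfold M0
  have h1 : ∫ x in (-1 : ℝ)..1, ph x ≤ ∫ x in (-1 : ℝ)..1, (1 - (|x| - 1 / 8) / 8) := by
    refine intervalIntegral.integral_mono_on (by norm_num) (ph_ii _ _) ?_ fun x _ => ph_le' x
    exact Continuous.intervalIntegrable (by fun_prop) _ _
  refine h1.trans (le_of_eq ?_)
  have hc : Continuous fun x : ℝ => (1 - (|x| - 1 / 8) / 8) := by fun_prop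
  rw [← intervalIntegral.integral_add_adjacent_intervals (hc.intervalIntegrable (-1) 0)
    (hc.intervalIntegrable 0 1)]
  have e1 : ∫ x in (-1 : ℝ)..0, (1 - (|x| - 1 / 8) / 8) = ∫ x in (-1 : ℝ)..0, (65 / 64 + x / 8) := by
    refine intervalIntegral.integral_congr fun x hx => ?_
    rw [uIcc_of_le (by norm_num)] at hx
    rw [abs_of_nonpos hx.2]; ring
  have e2 : ∫ x in (0 : ℝ)..1, (1 - (|x| - 1 / 8) / 8) = ∫ x in (0 : ℝ)..1, (65 / 64 - x / 8) := by
    refine intervalIntegral.integral_congr fun x hx => ?_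
    rw [uIcc_of_le (by norm_num)] at hx
    rw [abs_of_nonneg hx.1]; ring
  have i3 : ∀ a b : ℝ, IntervalIntegrable (fun x : ℝ => x / 8) volume a b :=
    fun a b => Continuous.intervalIntegrable (by fun_prop) _ _
  have k1 : ∫ x in (-1 : ℝ)..0, x / 8 = -1 / 16 := by
    rw [intervalIntegral.integral_div, integral_id]; norm_num
  have k2 : ∫ x in (0 : ℝ)..1, x / 8 = 1 / 16 := by
    rw [intervalIntegral.integral_div, integral_id]; norm_num
  rw [e1, e2, intervalIntegral.integral_add intervalIntegrable_const (i3 _ _),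
    intervalIntegral.integral_sub intervalIntegrable_const (i3 _ _), k1, k2,
    intervalIntegral.integral_const,
    intervalIntegral.integral_const]
  norm_num

/-- **The competitor.** -/
theorem comp {κ : ℝ} (hκ0 : 0 < κ) (hκ : κ ≤ 1 / 1000) : ∃ F : Set ℂ, MeasurableSet F ∧ F ⊆ RR ∧
    ma κ F = ma κ RR / 2 ∧ PR κ F (M0 - κ ^ 2 / 1000) := by
  set β := κ / 32 with hβ
  have hβ0 : 0 < β := by positivity
  have hβ1 : β ≤ 1 := by rw [hβ]; linarith
  have hβ2 : β ≤ 1 / 32000 := by rw [hβ]; linarith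
  have hcon : ∀ γ : ℝ, Continuous fun x : ℝ => ∫ t in (0 : ℝ)..(hp β γ x), ff κ ⟨x, t⟩ := by
    intro γ
    refine intervalIntegral.continuous_parametric_intervalIntegral_of_continuous
      (f := fun (x t : ℝ) => ff κ ⟨x, t⟩) (s := fun x : ℝ => hp β γ x) ?_ (hp_cont β γ)
    have h2 : (Function.uncurry fun (x t : ℝ) => ff κ ⟨x, t⟩) =
          fun p : ℝ × ℝ => min (ph p.1) (1 - κ * |p.2|) := rfl
    rw [h2]
    have := continuous_ph
    fun_prop
  -- signs at the end points
  have s0 : De κ β 0 ≤ 0 := by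
    have : 0 ≤ ∫ x in (-1 : ℝ)..1, -∫ t in (0 : ℝ)..(hp β 0 x), ff κ ⟨x, t⟩ := by
      refine intervalIntegral.integral_nonneg (by norm_num) fun x hx => ?_
      rw [← intervalIntegral.integral_symm]
      refine intervalIntegral.integral_nonneg ?_ fun t ht => ?_
      · unfold hp; nlinarith [sq_nonneg x]
      · refine le_min (le_trans (by norm_num) (ph_ge (abs_le.2 hx))) ?_
        have h1 : |t| ≤ 1 := by
          rw [abs_of_nonpos ht.2]
          have h2 := ht.1
          have h3 : x ^ 2 ≤ 1 := by nlinarith [hx.1, hx.2]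
          unfold hp at h2
          nlinarith
        have := mul_le_mul_of_nonneg_left h1 hκ0.le
        change 0 ≤ 1 - κ * |t|
        linarith
    rw [intervalIntegral.integral_neg] at this
    unfold De
    linarith
  have s1 : 0 ≤ De κ β 1 := by
    unfold De
    refine intervalIntegral.integral_nonneg (by norm_num) fun x hx => ?_
    have h3 : x ^ 2 ≤ 1 := by nlinarith [hx.1, hx.2]
    refine inner_nonneg hκ0.le (by linarith) hx ?_ ?_
    · unfold hp; exact mul_nonneg hβ0.le (by linarith)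
    · unfold hp; nlinarith [sq_nonneg x]
  obtain ⟨γ, hγ, hγ0⟩ := intermediate_value_Icc zero_le_one (De_cont κ β).continuousOn
    (show (0 : ℝ) ∈ Icc (De κ β 0) (De κ β 1) from ⟨s0, s1⟩)
  have hγ31 : 31 / 100 ≤ γ := by
    have k1 : De κ β γ ≤ ∫ x in (-1 : ℝ)..1, (hp β γ x * ph x + κ * (hp β γ x) ^ 2) := by
      unfold De
      refine intervalIntegral.integral_mono_on (by norm_num) ((hcon γ).intervalIntegrable _ _) ?_
        fun x _ => inner_le hκ0.le x _
      have := continuous_ph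
      have := hp_cont β γ
      exact Continuous.intervalIntegrable (by fun_prop) _ _
    have k2 : ∫ x in (-1 : ℝ)..1, (hp β γ x * ph x + κ * (hp β γ x) ^ 2) ≤
        ∫ x in (-1 : ℝ)..1, (β * γ * ph x - β * (x ^ 2 * ph x) + κ * β ^ 2) := by
      refine intervalIntegral.integral_mono_on (by norm_num) ?_ ?_ fun x hx => ?_
      · have := continuous_ph
        have := hp_cont β γ
        exact Continuous.intervalIntegrable (by fun_prop) _ _
      · have := continuous_ph
        exact Continuous.intervalIntegrable (by fun_prop) _ _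
      · have h3 : x ^ 2 ≤ 1 := by nlinarith [hx.1, hx.2]
        have h4 : (γ - x ^ 2) ^ 2 ≤ 1 := by
          nlinarith [sq_nonneg x, hγ.1, hγ.2]
        have h5 : (hp β γ x) ^ 2 ≤ β ^ 2 := by
          unfold hp
          rw [mul_pow]
          nlinarith [sq_nonneg β]
        have h6 := mul_le_mul_of_nonneg_left h5 hκ0.le
        have h7 : hp β γ x * ph x = β * γ * ph x - β * (x ^ 2 * ph x) := by
          unfold hp; ring
        rw [h7]
        linarith
    have iph := ph_ii (-1) 1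
    have i2 : IntervalIntegrable (fun x : ℝ => x ^ 2 * ph x) volume (-1) 1 := by
      have := continuous_ph
      exact Continuous.intervalIntegrable (by fun_prop) _ _
    rw [intervalIntegral.integral_add ((iph.const_mul _).sub (i2.const_mul _))
      intervalIntegrable_const, intervalIntegral.integral_sub (iph.const_mul _) (i2.const_mul _),
      intervalIntegral.integral_const_mul, intervalIntegral.integral_const_mul,
      intervalIntegral.integral_const, smul_eq_mul] at k2
    have k3 : (0 : ℝ) ≤ β * γ * M0 - β * (29 / 48) + 2 * (κ * β ^ 2) := by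
      have := x2ph
      have h8 := mul_le_mul_of_nonneg_left this hβ0.le
      have h9 : M0 = ∫ x in (-1 : ℝ)..1, ph x := rfl
      rw [h9]
      rw [hγ0] at k1
      linarith
    have k4 : (0 : ℝ) ≤ γ * M0 - 29 / 48 + 2 * (κ * β) := by
      have : (0 : ℝ) ≤ β * (γ * M0 - 29 / 48 + 2 * (κ * β)) := by nlinarith
      exact nonneg_of_mul_nonneg_right this hβ0
    have k5 : γ * M0 ≤ γ * (61 / 32) := mul_le_mul_of_nonneg_left M0_le' hγ.1
    have k6 : κ * β ≤ 1 / 1000 * (1 / 32000) := mul_le_mul hκ hβ2 hβ0.le (by norm_num)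
    linarith
  refine ⟨Cm β γ, Cm_meas β γ, inter_subset_left, ?_, ?_⟩
  · rw [Cm_mass hβ0.le hβ1 hγ.1 hγ.2, hγ0, add_zero]
  · intro Y hY
    exact (Cm_per _ _ Y hY).trans (Cm_cost hκ0.le hγ31 hκ hγ.2)

end Pool.Agent.R224.HV
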