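import Pool.Agent.TH703.HU.Stm

/-!
# A thin three-dimensional body whose bisecting relative minimizers are not trapped
(MP_65ff7c_an): definitions

Planar weight `ff κ (x + i t) = min (ph x) (1 - κ |t|)` on the rectangle `|x| < 1`, `|t| < 3`;
the body is `|y| < ff κ (x + i t)` over the rectangle, made thin in the direction `y`.
-/

set_option autoImplicit false

open MeasureTheory Set Metric Filter Topology
open scoped ENNReal Real

noncomputable section

namespace Pool.Agent.R224.HV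

open Pool.Agent.TH304.MI Pool.Agent.TH703.HU

/-- The planar rectangle. -/
def RR : Set ℂ := {z | |z.re| < 1 ∧ |z.im| < 3}

/-- The profile: `1` for `|x| ≤ 1/8`, then decreasing with slope `1/8`. -/
def ph (x : ℝ) : ℝ := 1 - max 0 (|x| - 1 / 8) / 8

/-- The weight. -/
def ff (κ : ℝ) (z : ℂ) : ℝ := min (ph z.re) (1 - κ * |z.im|)

/-- Planar fields for the weight `ff κ` in the rectangle. -/
structure TR (κ : ℝ) (Y : ℂ → ℂ) : Prop where
  cd : ContDiff ℝ 1 Y
  cs : HasCompactSupport Y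
  sub : tsupport Y ⊆ RR
  le : ∀ z ∈ RR, ‖Y z‖ ≤ ff κ z

/-- The weighted perimeter of `A` in the rectangle is at most `C`. -/
def PR (κ : ℝ) (A : Set ℂ) (C : ℝ) : Prop := ∀ Y : ℂ → ℂ, TR κ Y → ∫ z in A, dv2 Y z ≤ C

/-- Weighted mass (for subsets of the rectangle). -/
def ma (κ : ℝ) (A : Set ℂ) : ℝ := ∫ z in A, ff κ z

/-- The body. -/
def Bo (κ : ℝ) : Set (PP 1) := {p | xc p ∈ RR ∧ |yc p 0| < ff κ (xc p)}

/-- How much of the ray of `z` is outside `A` or of the opposite ray inside `A`. -/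
def GG (A : Set ℂ) (z : ℂ) : ℝ≥0∞ :=
  ∫⁻ t in Ioo (0 : ℝ) 1, (Aᶜ.indicator 1 ((t : ℂ) * z) + A.indicator 1 (-((t : ℂ) * z)))

/-- The set of points whose ray is (almost everywhere) in `A` and whose opposite ray is
(almost everywhere) outside `A`. -/
def XR (A : Set ℂ) : Set ℂ := {z | z ∈ RR ∧ GG A z = 0}

/-! ## Elementary facts -/

theorem continuous_ph : Continuous ph := by
  unfold ph; fun_prop

theorem continuous_ff (κ : ℝ) : Continuous (ff κ) := by
  unfold ff
  have := continuous_ph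
  fun_prop

theorem isOpen_RR : IsOpen RR := by
  have h1 : Continuous fun z : ℂ => |z.re| := by fun_prop
  have h2 : Continuous fun z : ℂ => |z.im| := by fun_prop
  exact (isOpen_lt h1 continuous_const).inter (isOpen_lt h2 continuous_const)

theorem ph_le_one (x : ℝ) : ph x ≤ 1 := by
  unfold ph
  have := le_max_left 0 (|x| - 1 / 8)
  linarith

theorem ph_eq_one {x : ℝ} (h : |x| ≤ 1 / 8) : ph x = 1 := by
  unfold ph
  rw [max_eq_left (by linarith)]; norm_num

theorem ph_ge {x : ℝ} (h : |x| ≤ 1) : 57 / 64 ≤ ph x := by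
  unfold ph
  have : max 0 (|x| - 1 / 8) ≤ 7 / 8 := max_le (by norm_num) (by linarith)
  linarith

theorem ph_ge' (x : ℝ) : 1 - |x| / 8 ≤ ph x := by
  unfold ph
  have : max 0 (|x| - 1 / 8) ≤ |x| := max_le (abs_nonneg x) (by linarith)
  linarith

theorem ph_le' (x : ℝ) : ph x ≤ 1 - (|x| - 1 / 8) / 8 := by
  unfold ph
  have : |x| - 1 / 8 ≤ max 0 (|x| - 1 / 8) := le_max_right _ _
  linarith

theorem ff_le_one {κ : ℝ} (z : ℂ) : ff κ z ≤ 1 := (min_le_left _ _).trans (ph_le_one _)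

theorem ff_ge {κ : ℝ} (_hκ0 : 0 ≤ κ) (hκ : κ ≤ 1 / 32) {z : ℂ} (hz : z ∈ RR) : 7 / 8 ≤ ff κ z := by
  unfold ff
  refine le_min ((by norm_num : (7 / 8 : ℝ) ≤ 57 / 64).trans (ph_ge hz.1.le)) ?_
  have h1 : |z.im| < 3 := hz.2
  have h2 : κ * |z.im| ≤ 1 / 32 * 3 := by
    apply mul_le_mul hκ h1.le (abs_nonneg _) (by norm_num)
  linarith

theorem ff_pos {κ : ℝ} (hκ0 : 0 ≤ κ) (hκ : κ ≤ 1 / 32) {z : ℂ} (hz : z ∈ RR) : 0 < ff κ z :=
  lt_of_lt_of_le (by norm_num) (ff_ge hκ0 hκ hz)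

theorem ff_neg (κ : ℝ) (z : ℂ) : ff κ (-z) = ff κ z := by
  unfold ff ph
  simp

theorem GG_meas {A : Set ℂ} (hA : MeasurableSet A) : Measurable (GG A) := by
  have h0 : Measurable fun p : ℂ × ℝ => (p.2 : ℂ) * p.1 := by fun_prop
  have h1 : Measurable fun p : ℂ × ℝ => (Aᶜ.indicator 1 ((p.2 : ℂ) * p.1) +
      A.indicator 1 (-((p.2 : ℂ) * p.1)) : ℝ≥0∞) :=
    ((measurable_one.indicator hA.compl).comp h0).add ((measurable_one.indicator hA).comp h0.neg)
  exact h1.lintegral_prod_right'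

theorem XR_meas {A : Set ℂ} (hA : MeasurableSet A) : MeasurableSet (XR A) :=
  isOpen_RR.measurableSet.inter (GG_meas hA (measurableSet_singleton 0))

theorem GG_zero {A : Set ℂ} (hA : MeasurableSet A) {z : ℂ} (h : GG A z = 0) :
    ∀ᵐ t : ℝ, t ∈ Ioo (0 : ℝ) 1 → (t : ℂ) * z ∈ A ∧ -((t : ℂ) * z) ∉ A := by
  unfold GG at h
  have h0 : Measurable fun t : ℝ => (t : ℂ) * z := by fun_prop
  have h1 : Measurable fun t : ℝ => (Aᶜ.indicator 1 ((t : ℂ) * z) +
      A.indicator 1 (-((t : ℂ) * z)) : ℝ≥0∞) :=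
    ((measurable_one.indicator hA.compl).comp h0).add ((measurable_one.indicator hA).comp h0.neg)
  rw [lintegral_eq_zero_iff h1] at h
  have h2 := (ae_restrict_iff' measurableSet_Ioo).1 h
  filter_upwards [h2] with t ht ht1
  have h3 := ht ht1
  simp only [Pi.zero_apply, add_eq_zero] at h3
  constructor
  · by_contra hcon
    have := h3.1
    rw [indicator_of_mem (by exact hcon)] at this
    simp at this
  · intro hcon
    have := h3.2
    rw [indicator_of_mem hcon] at this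
    simp at this

theorem RR_neg {z : ℂ} (hz : z ∈ RR) : -z ∈ RR := by
  simpa [RR] using hz

end Pool.Agent.R224.HV
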