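import Pool.Agent.TH742.HU.C2

/-!
# The slicing inequality with two weights
-/

set_option autoImplicit false

open MeasureTheory Set Metric Filter Topology
open scoped ENNReal Real Convolution

noncomputable section

namespace Pool.Agent.R224.Sl

open Pool.Agent.TH304.MI Pool.Agent.TH703.HU Pool.Agent.TH742.HU

/-- Perimeter bound in `R` with weight `f`. -/
def PRf (R : Set ℂ) (f : ℂ → ℝ) (A : Set ℂ) (P : ℝ) : Prop :=
  ∀ Y : ℂ → ℂ, ContDiff ℝ 1 Y → HasCompactSupport Y → tsupport Y ⊆ R →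
    (∀ z ∈ R, ‖Y z‖ ≤ f z) → ∫ x in A, dv2 Y x ≤ P

lemma sq3 (a b c : ℝ) (hc : 0 ≤ c) (h : a ^ 2 + b ^ 2 ≤ c ^ 2) :
    ‖((a : ℂ) + (b : ℂ) * Complex.I)‖ ≤ c := by
  rw [Complex.norm_add_mul_I]
  exact Real.sqrt_le_iff.2 ⟨hc, h⟩

lemma key1 {R : Set ℂ} {f : ℂ → ℝ} {A : Set ℂ} {P : ℝ} (hP : PRf R f A P)
    (hf0 : ∀ z ∈ R, 0 ≤ f z) {h : ℝ} (hh : 0 < h)
    {g₁ g₂ : ℂ → ℝ} (hg₁ : ContDiff ℝ 1 g₁) (hg₂ : ContDiff ℝ 1 g₂) (c₁ : HasCompactSupport g₁)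
    (c₂ : HasCompactSupport g₂)
    (b₁ : ∀ x ∈ R, ∀ t ∈ Icc (0 : ℝ) 1,
      (g₁ (x - t • (h : ℂ))) ^ 2 + (g₂ (x - t • ((h : ℂ) * Complex.I))) ^ 2 ≤ f x ^ 2)
    (s₁ : ∀ x ∈ tsupport g₁, ∀ t ∈ Icc (0 : ℝ) 1, x + t • (h : ℂ) ∈ R)
    (s₂ : ∀ x ∈ tsupport g₂, ∀ t ∈ Icc (0 : ℝ) 1, x + t • ((h : ℂ) * Complex.I) ∈ R) :
    ((∫ x in A, g₁ x) - ∫ x in A, g₁ (x - h)) +
      ((∫ x in A, g₂ x) - ∫ x in A, g₂ (x - h * Complex.I)) ≤ h * P := by
  have hd := fun t => (hder (A := A) hg₁ c₁ (h : ℂ) t).add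
    (hder (A := A) hg₂ c₂ ((h : ℂ) * Complex.I) t)
  obtain ⟨t, ht, hslope⟩ := exists_hasDerivAt_eq_slope
    ((fun t : ℝ => ∫ x in A, g₁ (x - t • (h : ℂ))) +
      fun t : ℝ => ∫ x in A, g₂ (x - t • ((h : ℂ) * Complex.I)))
    (fun t => (∫ x in A, -(fderiv ℝ g₁ (x - t • (h : ℂ)) (h : ℂ))) +
      ∫ x in A, -(fderiv ℝ g₂ (x - t • ((h : ℂ) * Complex.I)) ((h : ℂ) * Complex.I)))
    (zero_lt_one (α := ℝ))
    (fun t _ => (hd t).continuousAt.continuousWithinAt) (fun t _ => hd t)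
  simp only [zero_smul, sub_zero, one_smul, div_one, Pi.add_apply] at hslope
  have ht' : t ∈ Icc (0 : ℝ) 1 := ⟨ht.1.le, ht.2.le⟩
  let a : ℂ → ℝ := fun x => g₁ (x - t • (h : ℂ))
  let b : ℂ → ℝ := fun x => g₂ (x - t • ((h : ℂ) * Complex.I))
  let Y : ℂ → ℂ := fun x => (a x : ℂ) + (b x : ℂ) * Complex.I
  have ha : ContDiff ℝ 1 a := hg₁.comp (contDiff_id.sub contDiff_const)
  have hb : ContDiff ℝ 1 b := hg₂.comp (contDiff_id.sub contDiff_const)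
  have hac : HasCompactSupport a := c₁.comp_homeomorph (Homeomorph.subRight (t • (h : ℂ)))
  have hbc : HasCompactSupport b :=
    c₂.comp_homeomorph (Homeomorph.subRight (t • ((h : ℂ) * Complex.I)))
  have hYc : ContDiff ℝ 1 Y := (Complex.ofRealCLM.contDiff.comp ha).add
    ((Complex.ofRealCLM.contDiff.comp hb).mul contDiff_const)
  have hYs : HasCompactSupport Y := by
    have e1 : HasCompactSupport (fun x => (a x : ℂ)) :=
      hac.comp_left (g := fun r : ℝ => (r : ℂ)) (by simp)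
    have e2 : HasCompactSupport (fun x => (b x : ℂ) * Complex.I) :=
      (hbc.comp_left (g := fun r : ℝ => (r : ℂ)) (by simp)).mul_right (f' := fun _ => Complex.I)
    exact e1.add e2
  have hYR : tsupport Y ⊆ R := by
    have e1 : tsupport Y ⊆ ((fun x => x - t • (h : ℂ)) ⁻¹' tsupport g₁) ∪
        ((fun x => x - t • ((h : ℂ) * Complex.I)) ⁻¹' tsupport g₂) := by
      refine closure_minimal ?_ (((isClosed_tsupport g₁).preimage (by fun_prop)).union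
        ((isClosed_tsupport g₂).preimage (by fun_prop)))
      intro x hx
      by_contra hne
      rw [mem_union, not_or] at hne
      have e2 : g₁ (x - t • (h : ℂ)) = 0 := image_eq_zero_of_notMem_tsupport hne.1
      have e3 : g₂ (x - t • ((h : ℂ) * Complex.I)) = 0 := image_eq_zero_of_notMem_tsupport hne.2
      apply hx
      simp only [Y, a, b, e2, e3]
      simp
    intro x hx
    rcases e1 hx with h1 | h1
    · have := s₁ _ h1 t ht'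
      simpa using this
    · have := s₂ _ h1 t ht'
      simpa using this
  have hYle : ∀ z ∈ R, ‖Y z‖ ≤ f z := fun x hx => sq3 _ _ _ (hf0 x hx) (b₁ x hx t ht')
  have hdiv : ∀ x, dv2 Y x = (fderiv ℝ g₁ (x - t • (h : ℂ)) 1) +
      (fderiv ℝ g₂ (x - t • ((h : ℂ) * Complex.I)) Complex.I) := by
    intro x
    have h1 : HasFDerivAt a (fderiv ℝ g₁ (x - t • (h : ℂ))) x := by
      have h8 : HasFDerivAt (fun x : ℂ => x - t • (h : ℂ)) (ContinuousLinearMap.id ℝ ℂ) x :=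
        (hasFDerivAt_id x).sub_const _
      have h9 := ((hg₁.differentiable (by norm_num)) (x - t • (h : ℂ))).hasFDerivAt.comp x h8
      rw [ContinuousLinearMap.comp_id] at h9
      exact h9
    have h2 : HasFDerivAt b (fderiv ℝ g₂ (x - t • ((h : ℂ) * Complex.I))) x := by
      have h8 : HasFDerivAt (fun x : ℂ => x - t • ((h : ℂ) * Complex.I))
          (ContinuousLinearMap.id ℝ ℂ) x :=
        (hasFDerivAt_id x).sub_const _
      have h9 := ((hg₂.differentiable (by norm_num))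
        (x - t • ((h : ℂ) * Complex.I))).hasFDerivAt.comp x h8
      rw [ContinuousLinearMap.comp_id] at h9
      exact h9
    have h3 : HasFDerivAt Y (Complex.ofRealCLM.comp (fderiv ℝ g₁ (x - t • (h : ℂ))) +
        Complex.I • Complex.ofRealCLM.comp
          (fderiv ℝ g₂ (x - t • ((h : ℂ) * Complex.I)))) x :=
      (Complex.ofRealCLM.hasFDerivAt.comp x h1).add
        ((Complex.ofRealCLM.hasFDerivAt.comp x h2).mul_const Complex.I)
    unfold dv2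
    rw [h3.fderiv]
    simp
  have h6 := hP Y hYc hYs hYR hYle
  have i1 : Integrable (fun x => fderiv ℝ g₁ (x - t • (h : ℂ)) 1) := by
    have e1 : Continuous (fun x : ℂ => fderiv ℝ g₁ x 1) :=
      (hg₁.continuous_fderiv (by norm_num)).clm_apply continuous_const
    have e2 : HasCompactSupport (fun x : ℂ => fderiv ℝ g₁ x 1) :=
      (c₁.fderiv ℝ).comp_left (g := fun L : ℂ →L[ℝ] ℝ => L 1) (by simp)
    exact (e1.integrable_of_hasCompactSupport e2).comp_sub_right _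
  have i2 : Integrable (fun x => fderiv ℝ g₂ (x - t • ((h : ℂ) * Complex.I)) Complex.I) := by
    have e1 : Continuous (fun x : ℂ => fderiv ℝ g₂ x Complex.I) :=
      (hg₂.continuous_fderiv (by norm_num)).clm_apply continuous_const
    have e2 : HasCompactSupport (fun x : ℂ => fderiv ℝ g₂ x Complex.I) :=
      (c₂.fderiv ℝ).comp_left (g := fun L : ℂ →L[ℝ] ℝ => L Complex.I) (by simp)
    exact (e1.integrable_of_hasCompactSupport e2).comp_sub_right _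
  simp_rw [hdiv] at h6
  rw [integral_add i1.integrableOn i2.integrableOn] at h6
  have e1 : ∀ x, fderiv ℝ g₁ (x - t • (h : ℂ)) (h : ℂ) = h * fderiv ℝ g₁ (x - t • (h : ℂ)) 1 := by
    intro x
    have : (h : ℂ) = h • (1 : ℂ) := by simp
    conv_lhs => rw [this]
    rw [map_smul]
    simp
  have e2 : ∀ x, fderiv ℝ g₂ (x - t • ((h : ℂ) * Complex.I)) ((h : ℂ) * Complex.I) =
      h * fderiv ℝ g₂ (x - t • ((h : ℂ) * Complex.I)) Complex.I := by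
    intro x
    have : (h : ℂ) * Complex.I = h • Complex.I := by simp
    conv_lhs => rw [this]
    rw [map_smul]
    simp
  rw [integral_neg, integral_neg] at hslope
  simp_rw [e1, e2] at hslope
  rw [integral_const_mul, integral_const_mul] at hslope
  set I₁ := ∫ x in A, fderiv ℝ g₁ (x - t • (h : ℂ)) 1
  set I₂ := ∫ x in A, fderiv ℝ g₂ (x - t • ((h : ℂ) * Complex.I)) Complex.I
  have h8 : h * (I₁ + I₂) ≤ h * P := by gcongr
  linarith

/-- Room around the supports. -/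
lemma near {R : Set ℂ} (hR : IsOpen R) {f u₁ u₂ : ℂ → ℝ} {m : ℝ} (hm : 0 < m)
    (hmf : ∀ z ∈ R, m ≤ f z) (hu₁ : Continuous u₁) (hu₂ : Continuous u₂)
    (hc₁ : HasCompactSupport u₁) (hc₂ : HasCompactSupport u₂) (hs₁ : tsupport u₁ ⊆ R)
    (hs₂ : tsupport u₂ ⊆ R) (h0₁ : ∀ z, 0 ≤ u₁ z) (h0₂ : ∀ z, 0 ≤ u₂ z)
    (hle : ∀ z ∈ R, u₁ z ^ 2 + u₂ z ^ 2 ≤ f z ^ 2) {δ : ℝ} (hδ : 0 < δ) (hδ1 : δ < 1) :
    ∃ r ω : ℝ, 0 < r ∧ 0 ≤ ω ∧ (∀ x y : ℂ, dist x y ≤ r → u₁ y ≤ u₁ x + ω ∧ u₂ y ≤ u₂ x + ω ∧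
      (y ∈ tsupport u₁ → x ∈ R) ∧ (y ∈ tsupport u₂ → x ∈ R)) ∧
      ∀ x ∈ R, ((1 - δ) * (u₁ x + ω)) ^ 2 + ((1 - δ) * (u₂ x + ω)) ^ 2 ≤ f x ^ 2 := by
  obtain ⟨M₁, hM₁⟩ := hc₁.exists_bound_of_continuous hu₁
  obtain ⟨M₂, hM₂⟩ := hc₂.exists_bound_of_continuous hu₂
  have q1 : 0 ≤ M₁ := (norm_nonneg _).trans (hM₁ 0)
  have q2 : 0 ≤ M₂ := (norm_nonneg _).trans (hM₂ 0)
  set M := M₁ + M₂ + 1 with hMdef
  have hMpos : 0 < M := by positivity
  -- choose `ω`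
  set ω := min 1 (δ * m ^ 2 / (4 * M)) with hω
  have hω0 : 0 < ω := by positivity
  have hω1 : ω ≤ 1 := min_le_left _ _
  have hω2 : ω * (4 * M) ≤ δ * m ^ 2 := by
    have : ω ≤ δ * m ^ 2 / (4 * M) := min_le_right _ _
    rwa [le_div_iff₀ (by positivity)] at this
  have uc₁ := hu₁.uniformContinuous_of_tendsto_cocompact hc₁.is_zero_at_infty
  have uc₂ := hu₂.uniformContinuous_of_tendsto_cocompact hc₂.is_zero_at_infty
  rw [Metric.uniformContinuous_iff] at uc₁ uc₂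
  obtain ⟨η₁, hη₁, H₁⟩ := uc₁ ω hω0
  obtain ⟨η₂, hη₂, H₂⟩ := uc₂ ω hω0
  obtain ⟨r₁, hr₁, K₁⟩ := hc₁.isCompact.exists_cthickening_subset_open hR hs₁
  obtain ⟨r₂, hr₂, K₂⟩ := hc₂.isCompact.exists_cthickening_subset_open hR hs₂
  refine ⟨min (min (η₁ / 2) (η₂ / 2)) (min r₁ r₂), ω, by positivity, hω0.le, ?_, ?_⟩
  · intro x y hxy
    have a1 : dist x y ≤ η₁ / 2 := hxy.trans ((min_le_left _ _).trans (min_le_left _ _))
    have a2 : dist x y ≤ η₂ / 2 := hxy.trans ((min_le_left _ _).trans (min_le_right _ _))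
    have a3 : dist x y ≤ r₁ := hxy.trans ((min_le_right _ _).trans (min_le_left _ _))
    have a4 : dist x y ≤ r₂ := hxy.trans ((min_le_right _ _).trans (min_le_right _ _))
    have b1 := H₁ (a := x) (b := y) (by linarith)
    have b2 := H₂ (a := x) (b := y) (by linarith)
    rw [Real.dist_eq, abs_lt] at b1 b2
    refine ⟨by linarith, by linarith, fun hy => K₁ ?_, fun hy => K₂ ?_⟩
    · exact mem_cthickening_of_dist_le x y _ _ hy a3
    · exact mem_cthickening_of_dist_le x y _ _ hy a4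
  · intro x hx
    have c1 := hle x hx
    have c2 : u₁ x ≤ M₁ := (le_abs_self _).trans (hM₁ x)
    have c3 : u₂ x ≤ M₂ := (le_abs_self _).trans (hM₂ x)
    have c4 := h0₁ x
    have c5 := h0₂ x
    have c6 : m ^ 2 ≤ f x ^ 2 := by
      have := hmf x hx
      nlinarith
    have c7 : (u₁ x + ω) ^ 2 + (u₂ x + ω) ^ 2 ≤ f x ^ 2 + ω * (2 * M) := by
      have e1 : ω ^ 2 ≤ ω := by nlinarith
      nlinarith
    have c8 : ω * (2 * M) ≤ δ * f x ^ 2 := by nlinarith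
    have c9 : (1 - δ) ^ 2 * ((1 + δ) * f x ^ 2) ≤ f x ^ 2 := by
      have e1 : (1 - δ) ^ 2 * (1 + δ) ≤ 1 := by
        have e3 : (1 - δ) ^ 2 * (1 + δ) = (1 - δ) * (1 - δ ^ 2) := by ring
        rw [e3]
        exact mul_le_one₀ (by linarith) (by nlinarith) (by nlinarith)
      have e2 : 0 ≤ f x ^ 2 := sq_nonneg _
      nlinarith
    have d0 : 0 ≤ (1 - δ) ^ 2 := sq_nonneg _
    calc ((1 - δ) * (u₁ x + ω)) ^ 2 + ((1 - δ) * (u₂ x + ω)) ^ 2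
        = (1 - δ) ^ 2 * ((u₁ x + ω) ^ 2 + (u₂ x + ω) ^ 2) := by ring
      _ ≤ (1 - δ) ^ 2 * ((1 + δ) * f x ^ 2) := by
          apply mul_le_mul_of_nonneg_left _ d0
          linarith
      _ ≤ _ := c9

lemma key2 {R : Set ℂ} {f u₁ u₂ : ℂ → ℝ} {A : Set ℂ} {P δ r ω h m : ℝ} (hm : 0 < m)
    (hmf : ∀ z ∈ R, m ≤ f z) (hu₁ : Continuous u₁) (hu₂ : Continuous u₂)
    (hc₁ : HasCompactSupport u₁) (hc₂ : HasCompactSupport u₂)
    (h0₁ : ∀ z, 0 ≤ u₁ z) (h0₂ : ∀ z, 0 ≤ u₂ z) (hA : MeasurableSet A) (hP : PRf R f A P)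
    (hδ1 : δ < 1) (hr : 0 < r) (hω : 0 ≤ ω)
    (H : ∀ x y : ℂ, dist x y ≤ r → u₁ y ≤ u₁ x + ω ∧ u₂ y ≤ u₂ x + ω ∧
      (y ∈ tsupport u₁ → x ∈ R) ∧ (y ∈ tsupport u₂ → x ∈ R))
    (H' : ∀ x ∈ R, ((1 - δ) * (u₁ x + ω)) ^ 2 + ((1 - δ) * (u₂ x + ω)) ^ 2 ≤ f x ^ 2)
    (hh : 0 < h) (hhr : h ≤ r / 2) :
    (1 - δ) * ((∫ x, u₁ x * |sg A h x|) + ∫ x, u₂ x * |sg A (h * Complex.I) x|) ≤ h * P := by
  have hδ0 : 0 ≤ 1 - δ := by linarith
  have aux : ∀ (u : ℂ → ℝ) (v : ℂ), Continuous u → HasCompactSupport u → (∀ z, 0 ≤ u z) →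
      ∃ M : ℝ, 0 ≤ (1 - δ) * M ∧ Measurable (fun x => (1 - δ) * u x * sg A v x) ∧
        (∀ x, |(1 - δ) * u x * sg A v x| ≤ (1 - δ) * u x) ∧
        (∀ x, |(1 - δ) * u x * sg A v x| ≤ (1 - δ) * M) ∧
        (∀ x, x ∉ tsupport u → (1 - δ) * u x * sg A v x = 0) := by
    intro u v hu hc hu0
    obtain ⟨M, hM⟩ := hc.exists_bound_of_continuous hu
    have hM0 : 0 ≤ M := (norm_nonneg _).trans (hM 0)
    have hfb : ∀ x, |(1 - δ) * u x * sg A v x| ≤ (1 - δ) * u x := by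
      intro x
      rw [abs_mul, abs_of_nonneg (mul_nonneg hδ0 (hu0 x))]
      exact mul_le_of_le_one_right (mul_nonneg hδ0 (hu0 x)) (sg_abs A v x)
    refine ⟨M, mul_nonneg hδ0 hM0, (measurable_const.mul hu.measurable).mul (sg_meas hA v),
      hfb, ?_, ?_⟩
    · intro x
      refine (hfb x).trans ?_
      have := hM x
      rw [Real.norm_eq_abs, abs_of_nonneg (hu0 x)] at this
      gcongr
    · intro x hx
      rw [image_eq_zero_of_notMem_tsupport hx]; simp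
  obtain ⟨M₁, p1, p2, p3, p4, p5⟩ := aux u₁ h hu₁ hc₁ h0₁
  obtain ⟨M₂, q1, q2, q3, q4, q5⟩ := aux u₂ (h * Complex.I) hu₂ hc₂ h0₂
  obtain ⟨g₁, a1, a2, a3, a4, a5⟩ := moll _ p2 _ p4 (tsupport u₁) hc₁ p5
  obtain ⟨g₂, d1, d2, d3, d4, d5⟩ := moll _ q2 _ q4 (tsupport u₂) hc₂ q5
  have l1 := lim (A := A) hA (K := tsupport u₁) hc₁ h p1 a1 (fun n x => a3 n x _ p1 fun y _ => p4 y)
    a4 a5
  have l2 := lim (A := A) hA (K := tsupport u₂) hc₂ (h * Complex.I) q1 d1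
    (fun n x => d3 n x _ q1 fun y _ => q4 y) d4 d5
  have hle : ∀ᶠ n : ℕ in atTop, (∫ x, g₁ n x * sg A h x) + (∫ x, g₂ n x * sg A (h * Complex.I) x) ≤
      h * P := by
    have h1 : ∀ᶠ n : ℕ in atTop, 1 / ((n : ℝ) + 1) < r / 2 :=
      tendsto_one_div_add_atTop_nhds_zero_nat.eventually (gt_mem_nhds (by positivity))
    filter_upwards [h1] with n hn
    rw [← shift hA h (a1 n).continuous (a2 n), ← shift hA (h * Complex.I) (d1 n).continuous (d2 n)]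
    have nh : ∀ t ∈ Icc (0 : ℝ) 1, ‖t • (h : ℂ)‖ ≤ r / 2 := by
      intro t ht
      rw [norm_smul, Real.norm_eq_abs, abs_of_nonneg ht.1, Complex.norm_real, Real.norm_eq_abs,
        abs_of_pos hh]
      nlinarith [ht.1, ht.2]
    have nh2 : ∀ t ∈ Icc (0 : ℝ) 1, ‖t • ((h : ℂ) * Complex.I)‖ ≤ r / 2 := by
      intro t ht
      rw [norm_smul, norm_mul, Complex.norm_I, mul_one, Real.norm_eq_abs, abs_of_nonneg ht.1,
        Complex.norm_real, Real.norm_eq_abs, abs_of_pos hh]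
      nlinarith [ht.1, ht.2]
    have near1 : ∀ (v x y : ℂ), ‖v‖ ≤ r / 2 → dist y (x - v) < 1 / ((n : ℝ) + 1) → dist x y ≤ r := by
      intro v x y hv hy
      have h4 : dist x y ≤ dist (x - v) y + ‖v‖ := by
        have := dist_triangle x (x - v) y
        have h5 : dist x (x - v) = ‖v‖ := by simp
        linarith
      rw [dist_comm] at hy
      linarith
    have near2 : ∀ (v x y : ℂ), ‖v‖ ≤ r / 2 → dist x y ≤ 1 / ((n : ℝ) + 1) →
        dist (x + v) y ≤ r := by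
      intro v x y hv hy
      have h4 : dist (x + v) y ≤ ‖v‖ + dist x y := by
        have := dist_triangle (x + v) x y
        have h5 : dist (x + v) x = ‖v‖ := by simp
        linarith
      linarith
    refine key1 hP (fun z hz => hm.le.trans (hmf z hz)) hh (a1 n) (d1 n) (a2 n) (d2 n) ?_ ?_ ?_
    · intro x hx t ht
      have w1 : |g₁ n (x - t • (h : ℂ))| ≤ (1 - δ) * (u₁ x + ω) := by
        refine a3 n _ _ (mul_nonneg hδ0 (add_nonneg (h0₁ x) hω)) fun y hy => (p3 y).trans ?_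
        exact mul_le_mul_of_nonneg_left (H x y (near1 _ _ _ (nh t ht) hy)).1 hδ0
      have w2 : |g₂ n (x - t • ((h : ℂ) * Complex.I))| ≤ (1 - δ) * (u₂ x + ω) := by
        refine d3 n _ _ (mul_nonneg hδ0 (add_nonneg (h0₂ x) hω)) fun y hy => (q3 y).trans ?_
        exact mul_le_mul_of_nonneg_left (H x y (near1 _ _ _ (nh2 t ht) hy)).2.1 hδ0
      have w3 : (g₁ n (x - t • (h : ℂ))) ^ 2 ≤ ((1 - δ) * (u₁ x + ω)) ^ 2 :=
        sq_le_sq.2 (by rwa [abs_of_nonneg (mul_nonneg hδ0 (add_nonneg (h0₁ x) hω))])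
      have w4 : (g₂ n (x - t • ((h : ℂ) * Complex.I))) ^ 2 ≤ ((1 - δ) * (u₂ x + ω)) ^ 2 :=
        sq_le_sq.2 (by rwa [abs_of_nonneg (mul_nonneg hδ0 (add_nonneg (h0₂ x) hω))])
      linarith [H' x hx]
    · intro x hx t ht
      obtain ⟨y, hy, hxy⟩ := a4 n x hx
      exact (H _ y (near2 _ _ _ (nh t ht) hxy)).2.2.1 hy
    · intro x hx t ht
      obtain ⟨y, hy, hxy⟩ := d4 n x hx
      exact (H _ y (near2 _ _ _ (nh2 t ht) hxy)).2.2.2 hy
  have h9 := le_of_tendsto (l1.add l2) hle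
  have e : ∀ (u : ℂ → ℝ) (v : ℂ), ∫ x, (1 - δ) * u x * sg A v x * sg A v x =
      (1 - δ) * ∫ x, u x * |sg A v x| := by
    intro u v
    rw [← integral_const_mul]
    congr 1; ext x
    rw [mul_assoc ((1 - δ) * u x), sg_sq]; ring
  rw [e, e] at h9
  linarith

theorem sl {R : Set ℂ} (hR : IsOpen R) {f u₁ u₂ : ℂ → ℝ} {m : ℝ} (hm : 0 < m)
    (hmf : ∀ z ∈ R, m ≤ f z) (hu₁ : Continuous u₁) (hu₂ : Continuous u₂)
    (hc₁ : HasCompactSupport u₁) (hc₂ : HasCompactSupport u₂) (hs₁ : tsupport u₁ ⊆ R)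
    (hs₂ : tsupport u₂ ⊆ R) (h0₁ : ∀ z, 0 ≤ u₁ z) (h0₂ : ∀ z, 0 ≤ u₂ z)
    (hle : ∀ z ∈ R, u₁ z ^ 2 + u₂ z ^ 2 ≤ f z ^ 2) {A : Set ℂ} (hA : MeasurableSet A) {P : ℝ}
    (hP : PRf R f A P) :
    (∫⁻ y : ℝ, ev (fun t => u₁ ⟨t, y⟩) {t | (⟨t, y⟩ : ℂ) ∈ A}) +
      (∫⁻ x : ℝ, ev (fun t => u₂ ⟨x, t⟩) {t | (⟨x, t⟩ : ℂ) ∈ A}) ≤ ENNReal.ofReal P := by
  -- `P ≥ 0`
  have hP0 : 0 ≤ P := by
    have h2 := hP (fun _ => (0 : ℂ)) contDiff_const HasCompactSupport.zero (by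
      intro x hx
      have : tsupport (fun _ : ℂ => (0 : ℂ)) = ∅ := by
        rw [tsupport_eq_empty_iff]; rfl
      rw [this] at hx; exact hx.elim) (by
      intro x hx; simpa using hm.le.trans (hmf x hx))
    have h3 : ∀ x, dv2 (fun _ => (0 : ℂ)) x = 0 := by
      intro x; unfold dv2; simp
    simp_rw [h3] at h2
    simpa using h2
  -- the integrals
  let U : (ℂ → ℝ) → ℂ → ℂ → ℝ≥0∞ := fun u v x => ENNReal.ofReal (u x * |sg A v x|)
  have hUm : ∀ u v, Continuous u → Measurable (U u v) := fun u v hu =>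
    (hu.measurable.mul (sg_meas hA v).abs).ennreal_ofReal
  have hUi : ∀ (u : ℂ → ℝ) v, Continuous u → HasCompactSupport u →
      Integrable (fun x => u x * |sg A v x|) := fun u v hu hc =>
    (hu.integrable_of_hasCompactSupport hc).mul_bdd (c := 1) (sg_meas hA v).abs.aestronglyMeasurable
      (Eventually.of_forall fun x => by simpa using sg_abs A v x)
  have hU : ∀ (u : ℂ → ℝ) v, Continuous u → HasCompactSupport u → (∀ z, 0 ≤ u z) →
      ∫⁻ x, U u v x = ENNReal.ofReal (∫ x, u x * |sg A v x|) := fun u v hu hc hu0 =>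
    (ofReal_integral_eq_lintegral_ofReal (hUi u v hu hc)
      (Eventually.of_forall fun x => mul_nonneg (hu0 x) (abs_nonneg _))).symm
  -- Fatou
  have f1 : (∫⁻ y : ℝ, ev (fun t => u₁ ⟨t, y⟩) {t | (⟨t, y⟩ : ℂ) ∈ A}) ≤
      liminf (fun n : ℕ => ((n : ℝ≥0∞) + 1) * ∫⁻ x, U u₁ (((1 / ((n : ℝ) + 1) : ℝ)) : ℂ) x)
        atTop := by
    have e1 : ∀ (n : ℕ) (y : ℝ), ((n : ℝ≥0∞) + 1) * ∫⁻ t : ℝ, ENNReal.ofReal (u₁ ⟨t, y⟩ *
        |{t | (⟨t, y⟩ : ℂ) ∈ A}.indicator (fun _ => (1 : ℝ)) (t + 1 / ((n : ℝ) + 1)) -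
          {t | (⟨t, y⟩ : ℂ) ∈ A}.indicator (fun _ => (1 : ℝ)) t|) =
        ((n : ℝ≥0∞) + 1) * ∫⁻ t : ℝ, U u₁ (((1 / ((n : ℝ) + 1) : ℝ)) : ℂ) ⟨t, y⟩ := by
      intro n y
      congr 1
      refine lintegral_congr fun t => ?_
      simp only [U, sg]
      rw [abs_sub_comm]
      have e2 : ∀ s : ℝ, (⟨t, y⟩ : ℂ) + (s : ℂ) = ⟨t + s, y⟩ := fun s => by
        apply Complex.ext <;> simp
      rw [e2]
      rfl
    unfold ev
    simp_rw [e1]
    have m1 : ∀ v, Measurable (fun y : ℝ => ∫⁻ t : ℝ, U u₁ v ⟨t, y⟩) := fun v =>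
      ((hUm u₁ v hu₁).comp mk_meas).lintegral_prod_left'
    refine (lintegral_liminf_le ?_).trans (le_of_eq ?_)
    · intro n
      exact (m1 _).const_mul _
    · congr 1; ext n
      rw [lintegral_const_mul _ (m1 _), ← fub1 (hUm _ _ hu₁)]
  have f2 : (∫⁻ x : ℝ, ev (fun t => u₂ ⟨x, t⟩) {t | (⟨x, t⟩ : ℂ) ∈ A}) ≤
      liminf (fun n : ℕ => ((n : ℝ≥0∞) + 1) *
        ∫⁻ x, U u₂ (((1 / ((n : ℝ) + 1) : ℝ)) * Complex.I) x) atTop := by
    have e1 : ∀ (n : ℕ) (x : ℝ), ((n : ℝ≥0∞) + 1) * ∫⁻ t : ℝ, ENNReal.ofReal (u₂ ⟨x, t⟩ *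
        |{t | (⟨x, t⟩ : ℂ) ∈ A}.indicator (fun _ => (1 : ℝ)) (t + 1 / ((n : ℝ) + 1)) -
          {t | (⟨x, t⟩ : ℂ) ∈ A}.indicator (fun _ => (1 : ℝ)) t|) =
        ((n : ℝ≥0∞) + 1) * ∫⁻ t : ℝ, U u₂ (((1 / ((n : ℝ) + 1) : ℝ)) * Complex.I) ⟨x, t⟩ := by
      intro n x
      congr 1
      refine lintegral_congr fun t => ?_
      simp only [U, sg]
      rw [abs_sub_comm]
      have e2 : ∀ s : ℝ, (⟨x, t⟩ : ℂ) + (s : ℂ) * Complex.I = ⟨x, t + s⟩ := fun s => by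
        apply Complex.ext <;> simp
      rw [e2]
      rfl
    unfold ev
    simp_rw [e1]
    have m1 : ∀ v, Measurable (fun x : ℝ => ∫⁻ t : ℝ, U u₂ v ⟨x, t⟩) := fun v =>
      ((hUm u₂ v hu₂).comp mk_meas).lintegral_prod_right'
    refine (lintegral_liminf_le ?_).trans (le_of_eq ?_)
    · intro n
      exact (m1 _).const_mul _
    · congr 1; ext n
      rw [lintegral_const_mul _ (m1 _), ← fub2 (hUm _ _ hu₂)]
  refine (add_le_add f1 f2).trans ((ll _ _).trans ?_)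
  simp_rw [← mul_add, hU _ _ hu₁ hc₁ h0₁, hU _ _ hu₂ hc₂ h0₂]
  -- the estimate with loss
  have main : ∀ δ : ℝ, 0 < δ → δ < 1 →
      liminf (fun n : ℕ => ((n : ℝ≥0∞) + 1) *
        (ENNReal.ofReal (∫ x, u₁ x * |sg A (((1 / ((n : ℝ) + 1) : ℝ)) : ℂ) x|) +
        ENNReal.ofReal (∫ x, u₂ x * |sg A (((1 / ((n : ℝ) + 1) : ℝ)) * Complex.I) x|))) atTop ≤
      ENNReal.ofReal (P / (1 - δ)) := by
    intro δ hδ hδ1
    obtain ⟨r, ω, hr, hω, H, H'⟩ := near hR hm hmf hu₁ hu₂ hc₁ hc₂ hs₁ hs₂ h0₁ h0₂ hle hδ hδ1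
    have h1 : ∀ᶠ n : ℕ in atTop, 1 / ((n : ℝ) + 1) < r / 2 :=
      tendsto_one_div_add_atTop_nhds_zero_nat.eventually (gt_mem_nhds (by positivity))
    refine (liminf_le_liminf (v := fun _ : ℕ => ENNReal.ofReal (P / (1 - δ))) ?_).trans
      (le_of_eq (liminf_const _))
    filter_upwards [h1] with n hn
    have hn0 : (0 : ℝ) < (n : ℝ) + 1 := by positivity
    have h2 := key2 hm hmf hu₁ hu₂ hc₁ hc₂ h0₁ h0₂ hA hP hδ1 hr hω H H' (h := 1 / ((n : ℝ) + 1))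
      (by positivity) hn.le
    have p1 : 0 ≤ ∫ x, u₁ x * |sg A (((1 / ((n : ℝ) + 1) : ℝ)) : ℂ) x| :=
      integral_nonneg fun x => mul_nonneg (h0₁ x) (abs_nonneg _)
    have p2 : 0 ≤ ∫ x, u₂ x * |sg A (((1 / ((n : ℝ) + 1) : ℝ)) * Complex.I) x| :=
      integral_nonneg fun x => mul_nonneg (h0₂ x) (abs_nonneg _)
    have e3 : ((n : ℝ≥0∞) + 1) = ENNReal.ofReal ((n : ℝ) + 1) := by
      rw [ENNReal.ofReal_add n.cast_nonneg zero_le_one, ENNReal.ofReal_natCast, ENNReal.ofReal_one]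
    rw [e3, ← ENNReal.ofReal_add p1 p2, ← ENNReal.ofReal_mul hn0.le]
    apply ENNReal.ofReal_le_ofReal
    rw [le_div_iff₀ (by linarith)]
    have h3 : ((n : ℝ) + 1) * ((1 / ((n : ℝ) + 1)) * P) = P := by field_simp
    calc ((n : ℝ) + 1) * ((∫ x, u₁ x * |sg A (((1 / ((n : ℝ) + 1) : ℝ)) : ℂ) x|) +
          ∫ x, u₂ x * |sg A (((1 / ((n : ℝ) + 1) : ℝ)) * Complex.I) x|) * (1 - δ) =
        ((n : ℝ) + 1) * ((1 - δ) * ((∫ x, u₁ x * |sg A (((1 / ((n : ℝ) + 1) : ℝ)) : ℂ) x|) +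
          ∫ x, u₂ x * |sg A (((1 / ((n : ℝ) + 1) : ℝ)) * Complex.I) x|)) := by ring
      _ ≤ ((n : ℝ) + 1) * ((1 / ((n : ℝ) + 1)) * P) := by gcongr
      _ = P := h3
  -- `δ → 0`
  have hlim : Tendsto (fun δ : ℝ => ENNReal.ofReal (P / (1 - δ))) (𝓝[>] 0)
      (𝓝 (ENNReal.ofReal P)) := by
    have h1 : ContinuousAt (fun δ : ℝ => P / (1 - δ)) 0 := by
      apply ContinuousAt.div continuousAt_const (by fun_prop)
      norm_num
    have h2 : Tendsto (fun δ : ℝ => P / (1 - δ)) (𝓝[>] 0) (𝓝 P) := by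
      have := h1.tendsto.mono_left (nhdsWithin_le_nhds (s := Ioi (0 : ℝ)))
      simpa using this
    exact (ENNReal.continuous_ofReal.tendsto _).comp h2
  refine ge_of_tendsto hlim ?_
  filter_upwards [Ioo_mem_nhdsGT (zero_lt_one (α := ℝ))] with δ hδ
  exact main δ hδ.1 hδ.2

end Pool.Agent.R224.Sl
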