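import Pool.Agent.R224.HV.Defs
import Pool.Agent.R224.HV.Sl
import Pool.Agent.TH663.HU.C3

/-!
# The variation along lines relative to the rectangle
-/

set_option autoImplicit false

open MeasureTheory Set Metric Filter Topology
open scoped ENNReal Real

noncomputable section

namespace Pool.Agent.R224.HV

open Pool.Agent.TH304.MI Pool.Agent.TH703.HU Pool.Agent.TH742.HU Pool.Agent.TH663.HU
open Pool.Agent.R224.Sl

/-! ## Elementary properties of `ev` -/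

lemma ev_mono {u v : ℝ → ℝ} (S : Set ℝ) (h : ∀ t, u t ≤ v t) : ev u S ≤ ev v S := by
  unfold ev
  refine liminf_le_liminf (Eventually.of_forall fun n => ?_)
  gcongr with t
  exact h t

lemma ev_smul (u : ℝ → ℝ) (S : Set ℝ) {c : ℝ} (hc : 0 ≤ c) :
    ev (fun t => c * u t) S = ENNReal.ofReal c * ev u S := by
  unfold ev
  rw [← ENNReal.liminf_const_mul_of_ne_top ENNReal.ofReal_ne_top]
  congr 1
  ext n
  rw [← mul_assoc, mul_comm (ENNReal.ofReal c), mul_assoc]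
  congr 1
  rw [← lintegral_const_mul' _ _ ENNReal.ofReal_ne_top]
  refine lintegral_congr fun t => ?_
  rw [mul_assoc, ENNReal.ofReal_mul hc]

lemma ev_compl (u : ℝ → ℝ) (S : Set ℝ) : ev u Sᶜ = ev u S := by
  unfold ev
  congr 1
  ext n
  congr 1
  refine lintegral_congr fun t => ?_
  congr 2
  generalize t + 1 / ((n : ℝ) + 1) = t'
  by_cases h1 : t ∈ S <;> by_cases h2 : t' ∈ S <;> simp [h1, h2]

lemma ev_meas1 {u : ℂ → ℝ} (hu : Continuous u) {A : Set ℂ} (hA : MeasurableSet A) :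
    Measurable fun y : ℝ => ev (fun t => u ⟨t, y⟩) {t | (⟨t, y⟩ : ℂ) ∈ A} := by
  unfold ev
  refine Measurable.liminf fun n => ?_
  refine Measurable.const_mul ?_ _
  have h1 : Measurable (A.indicator (fun _ => (1 : ℝ))) := measurable_const.indicator hA
  have h2 : Measurable fun x : ℂ => ENNReal.ofReal (u x *
      |A.indicator (fun _ => (1 : ℝ)) (x + ((1 / ((n : ℝ) + 1) : ℝ) : ℂ)) -
        A.indicator (fun _ => (1 : ℝ)) x|) :=
    (hu.measurable.mul ((h1.comp (measurable_id.add_const _)).sub h1).abs).ennreal_ofReal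
  have h3 := (h2.comp mk_meas).lintegral_prod_left' (μ := volume)
  have h4 : (fun y : ℝ => ∫⁻ t : ℝ, ENNReal.ofReal (u ⟨t, y⟩ *
      |{t | (⟨t, y⟩ : ℂ) ∈ A}.indicator (fun _ => (1 : ℝ)) (t + 1 / ((n : ℝ) + 1)) -
        {t | (⟨t, y⟩ : ℂ) ∈ A}.indicator (fun _ => (1 : ℝ)) t|)) = fun y : ℝ => ∫⁻ t : ℝ,
      ((fun x : ℂ => ENNReal.ofReal (u x *
      |A.indicator (fun _ => (1 : ℝ)) (x + ((1 / ((n : ℝ) + 1) : ℝ) : ℂ)) -
        A.indicator (fun _ => (1 : ℝ)) x|)) ∘ fun p : ℝ × ℝ => (⟨p.1, p.2⟩ : ℂ)) (t, y) := by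
    funext y
    refine lintegral_congr fun t => ?_
    have e2 : ∀ s : ℝ, (⟨t, y⟩ : ℂ) + (s : ℂ) = ⟨t + s, y⟩ := fun s => by
      apply Complex.ext <;> simp
    simp only [Function.comp]
    rw [e2]
    rfl
  rw [h4]
  exact h3

lemma ev_meas2 {u : ℂ → ℝ} (hu : Continuous u) {A : Set ℂ} (hA : MeasurableSet A) :
    Measurable fun x : ℝ => ev (fun t => u ⟨x, t⟩) {t | (⟨x, t⟩ : ℂ) ∈ A} := by
  unfold ev
  refine Measurable.liminf fun n => ?_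
  refine Measurable.const_mul ?_ _
  have h1 : Measurable (A.indicator (fun _ => (1 : ℝ))) := measurable_const.indicator hA
  have h2 : Measurable fun x : ℂ => ENNReal.ofReal (u x *
      |A.indicator (fun _ => (1 : ℝ)) (x + ((1 / ((n : ℝ) + 1) : ℝ) : ℂ) * Complex.I) -
        A.indicator (fun _ => (1 : ℝ)) x|) :=
    (hu.measurable.mul ((h1.comp (measurable_id.add_const _)).sub h1).abs).ennreal_ofReal
  have h3 := (h2.comp mk_meas).lintegral_prod_right' (ν := volume)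
  have h4 : (fun x : ℝ => ∫⁻ t : ℝ, ENNReal.ofReal (u ⟨x, t⟩ *
      |{t | (⟨x, t⟩ : ℂ) ∈ A}.indicator (fun _ => (1 : ℝ)) (t + 1 / ((n : ℝ) + 1)) -
        {t | (⟨x, t⟩ : ℂ) ∈ A}.indicator (fun _ => (1 : ℝ)) t|)) = fun x : ℝ => ∫⁻ t : ℝ,
      ((fun x : ℂ => ENNReal.ofReal (u x *
      |A.indicator (fun _ => (1 : ℝ)) (x + ((1 / ((n : ℝ) + 1) : ℝ) : ℂ) * Complex.I) -
        A.indicator (fun _ => (1 : ℝ)) x|)) ∘ fun p : ℝ × ℝ => (⟨p.1, p.2⟩ : ℂ)) (x, t) := by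
    funext x
    refine lintegral_congr fun t => ?_
    have e2 : ∀ s : ℝ, (⟨x, t⟩ : ℂ) + (s : ℂ) * Complex.I = ⟨x, t + s⟩ := fun s => by
      apply Complex.ext <;> simp
    simp only [Function.comp]
    rw [e2]
    rfl
  rw [h4]
  exact h3

/-! ## Cut-off functions -/

/-- cut-off on `(-L, L)` -/
def cut (L : ℝ) (n : ℕ) (t : ℝ) : ℝ := max 0 (min 1 ((n : ℝ) * (L - |t|) - 1))

lemma cut_cont (L : ℝ) (n : ℕ) : Continuous (cut L n) := by unfold cut; fun_prop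

lemma cut_nonneg (L : ℝ) (n : ℕ) (t : ℝ) : 0 ≤ cut L n t := le_max_left _ _

lemma cut_le_one (L : ℝ) (n : ℕ) (t : ℝ) : cut L n t ≤ 1 := max_le zero_le_one (min_le_left _ _)

lemma cut_mono (L t : ℝ) {n m : ℕ} (h : n ≤ m) : cut L n t ≤ cut L m t := by
  unfold cut
  have hnm : (n : ℝ) ≤ m := by exact_mod_cast h
  rcases le_total 0 (L - |t|) with h0 | h0
  · have h1 : (n : ℝ) * (L - |t|) ≤ (m : ℝ) * (L - |t|) := mul_le_mul_of_nonneg_right hnm h0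
    exact max_le_max le_rfl (min_le_min le_rfl (by linarith))
  · have h1 : (n : ℝ) * (L - |t|) ≤ 0 := mul_nonpos_of_nonneg_of_nonpos n.cast_nonneg h0
    have : max 0 (min 1 ((n : ℝ) * (L - |t|) - 1)) = 0 :=
      max_eq_left ((min_le_right _ _).trans (by linarith))
    rw [this]
    exact le_max_left _ _

lemma cut_eq_one {L t : ℝ} {n : ℕ} (h : 2 ≤ (n : ℝ) * (L - |t|)) : cut L n t = 1 := by
  unfold cut
  rw [min_eq_left (by linarith), max_eq_right zero_le_one]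

lemma cut_ne_zero {L t : ℝ} {n : ℕ} (h : cut L n t ≠ 0) : 1 ≤ (n : ℝ) * (L - |t|) := by
  by_contra hcon
  push Not at hcon
  apply h
  unfold cut
  exact max_eq_left ((min_le_right _ _).trans (by linarith))

/-- eventually the cut-off is `1` on a compact subinterval -/
lemma cut_ev {L a b : ℝ} (ha : -L < a) (hb : b < L) :
    ∃ N : ℕ, ∀ n : ℕ, N ≤ n → ∀ t ∈ Icc a b, cut L n t = 1 := by
  set d := min (a + L) (L - b) with hd
  have hd0 : 0 < d := lt_min (by linarith) (by linarith)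
  obtain ⟨N, hN⟩ := exists_nat_ge (2 / d)
  refine ⟨N, fun n hn t ht => cut_eq_one ?_⟩
  have h1 : d ≤ L - |t| := by
    have h2 : d ≤ a + L := min_le_left _ _
    have h3 : d ≤ L - b := min_le_right _ _
    rcases abs_cases t with ⟨h, _⟩ | ⟨h, _⟩ <;> rw [h] <;> linarith [ht.1, ht.2]
  have h4 : (2 / d : ℝ) ≤ n := hN.trans (by exact_mod_cast hn)
  rw [div_le_iff₀ hd0] at h4
  have : (n : ℝ) * d ≤ n * (L - |t|) := mul_le_mul_of_nonneg_left h1 n.cast_nonneg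
  linarith

/-- The variation on the open interval `(-L, L)`. -/
def Ev (L : ℝ) (u : ℝ → ℝ) (S : Set ℝ) : ℝ≥0∞ := ⨆ n : ℕ, ev (fun t => cut L n t * u t) S

lemma Ev_smul (L : ℝ) (u : ℝ → ℝ) (S : Set ℝ) {c : ℝ} (hc : 0 ≤ c) :
    Ev L (fun t => c * u t) S = ENNReal.ofReal c * Ev L u S := by
  unfold Ev
  rw [ENNReal.mul_iSup]
  congr 1
  ext n
  rw [← ev_smul _ _ hc]
  congr 1
  ext t
  ring

lemma Ev_compl (L : ℝ) (u : ℝ → ℝ) (S : Set ℝ) : Ev L u Sᶜ = Ev L u S := by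
  unfold Ev
  simp_rw [ev_compl]

lemma Ev_mono_n {L : ℝ} {u : ℝ → ℝ} (hu : ∀ t, 0 ≤ u t) (S : Set ℝ) :
    Monotone fun n : ℕ => ev (fun t => cut L n t * u t) S := by
  intro n m h
  exact ev_mono S fun t => mul_le_mul_of_nonneg_right (cut_mono L t h) (hu t)

/-! ## The slicing inequality in the rectangle -/

lemma tsupp_cut {u : ℂ → ℝ} (n : ℕ) :
    tsupport (fun z : ℂ => cut 1 n z.re * cut 3 n z.im * u z) ⊆
      {z : ℂ | 1 ≤ (n : ℝ) * (1 - |z.re|) ∧ 1 ≤ (n : ℝ) * (3 - |z.im|)} := by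
  have hc : IsClosed {z : ℂ | 1 ≤ (n : ℝ) * (1 - |z.re|) ∧ 1 ≤ (n : ℝ) * (3 - |z.im|)} := by
    have h1 : Continuous fun z : ℂ => (n : ℝ) * (1 - |z.re|) := by fun_prop
    have h2 : Continuous fun z : ℂ => (n : ℝ) * (3 - |z.im|) := by fun_prop
    exact (isClosed_le continuous_const h1).inter (isClosed_le continuous_const h2)
  refine closure_minimal ?_ hc
  intro z hz
  rw [Function.mem_support] at hz
  have h1 : cut 1 n z.re ≠ 0 := fun h => hz (by rw [h]; ring)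
  have h2 : cut 3 n z.im ≠ 0 := fun h => hz (by rw [h]; ring)
  exact ⟨cut_ne_zero h1, cut_ne_zero h2⟩

lemma pos_of_one_le {n : ℕ} {a : ℝ} (h : 1 ≤ (n : ℝ) * a) : 0 < a := by
  by_contra hcon
  push Not at hcon
  have := mul_nonpos_of_nonneg_of_nonpos (n.cast_nonneg (α := ℝ)) hcon
  linarith

lemma set_sub_RR (n : ℕ) :
    {z : ℂ | 1 ≤ (n : ℝ) * (1 - |z.re|) ∧ 1 ≤ (n : ℝ) * (3 - |z.im|)} ⊆ RR := by
  rintro z ⟨h1, h2⟩
  have e1 := pos_of_one_le h1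
  have e2 := pos_of_one_le h2
  exact ⟨by linarith, by linarith⟩

lemma RR_sub_ball : RR ⊆ closedBall (0 : ℂ) 4 := by
  intro z hz
  rw [mem_closedBall_zero_iff]
  have := Complex.norm_le_abs_re_add_abs_im z
  have h1 : |z.re| < 1 := hz.1
  have h2 : |z.im| < 3 := hz.2
  linarith

theorem slR {κ : ℝ} (hκ0 : 0 ≤ κ) (hκ : κ ≤ 1 / 32) {u₁ u₂ : ℂ → ℝ} (hu₁ : Continuous u₁)
    (hu₂ : Continuous u₂) (h0₁ : ∀ z, 0 ≤ u₁ z) (h0₂ : ∀ z, 0 ≤ u₂ z)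
    (hle : ∀ z ∈ RR, u₁ z ^ 2 + u₂ z ^ 2 ≤ ff κ z ^ 2) {A : Set ℂ} (hA : MeasurableSet A) {P : ℝ}
    (hP : PR κ A P) :
    (∫⁻ y in Ioo (-3 : ℝ) 3, Ev 1 (fun t => u₁ ⟨t, y⟩) {t | (⟨t, y⟩ : ℂ) ∈ A}) +
      (∫⁻ x in Ioo (-1 : ℝ) 1, Ev 3 (fun t => u₂ ⟨x, t⟩) {t | (⟨x, t⟩ : ℂ) ∈ A}) ≤
      ENNReal.ofReal P := by
  have hP' : PRf RR (ff κ) A P := fun Y h1 h2 h3 h4 => hP Y ⟨h1, h2, h3, h4⟩
  set v : (ℂ → ℝ) → ℕ → ℂ → ℝ := fun u n z => cut 1 n z.re * cut 3 n z.im * u z with hv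
  have vc : ∀ u, Continuous u → ∀ n, Continuous (v u n) := by
    intro u hu n
    have h1 := cut_cont 1 n
    have h2 := cut_cont 3 n
    simp only [hv]
    fun_prop
  have vs : ∀ u n, tsupport (v u n) ⊆ RR := fun u n => (tsupp_cut n).trans (set_sub_RR n)
  have vk : ∀ u n, HasCompactSupport (v u n) := fun u n =>
    (isCompact_closedBall (0 : ℂ) 4).of_isClosed_subset (isClosed_tsupport _)
      ((vs u n).trans RR_sub_ball)
  have v0 : ∀ u : ℂ → ℝ, (∀ z, 0 ≤ u z) → ∀ n z, 0 ≤ v u n z := fun u hu n z =>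
    mul_nonneg (mul_nonneg (cut_nonneg _ _ _) (cut_nonneg _ _ _)) (hu z)
  have v1 : ∀ u : ℂ → ℝ, (∀ z, 0 ≤ u z) → ∀ n z, v u n z ≤ u z := fun u hu n z =>
    mul_le_of_le_one_left (hu z) (mul_le_one₀ (cut_le_one _ _ _) (cut_nonneg _ _ _)
      (cut_le_one _ _ _))
  have key : ∀ n : ℕ, (∫⁻ y : ℝ, ev (fun t => v u₁ n ⟨t, y⟩) {t | (⟨t, y⟩ : ℂ) ∈ A}) +
      (∫⁻ x : ℝ, ev (fun t => v u₂ n ⟨x, t⟩) {t | (⟨x, t⟩ : ℂ) ∈ A}) ≤ ENNReal.ofReal P := by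
    intro n
    refine sl isOpen_RR (f := ff κ) (m := 7 / 8) (by norm_num) (fun z hz => ff_ge hκ0 hκ hz)
      (vc _ hu₁ n) (vc _ hu₂ n) (vk _ n) (vk _ n) (vs _ n) (vs _ n) (v0 _ h0₁ n) (v0 _ h0₂ n)
      (fun z hz => ?_) hA hP'
    have e1 := v1 _ h0₁ n z
    have e2 := v1 _ h0₂ n z
    have e3 := v0 _ h0₁ n z
    have e4 := v0 _ h0₂ n z
    have e5 : v u₁ n z ^ 2 ≤ u₁ z ^ 2 := pow_le_pow_left₀ e3 e1 2
    have e6 : v u₂ n z ^ 2 ≤ u₂ z ^ 2 := pow_le_pow_left₀ e4 e2 2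
    linarith [hle z hz]
  -- rewriting the slices
  have s1 : ∀ n y, ev (fun t => v u₁ n ⟨t, y⟩) {t | (⟨t, y⟩ : ℂ) ∈ A} =
      ENNReal.ofReal (cut 3 n y) *
        ev (fun t => cut 1 n t * u₁ ⟨t, y⟩) {t | (⟨t, y⟩ : ℂ) ∈ A} := by
    intro n y
    rw [← ev_smul _ _ (cut_nonneg 3 n y)]
    congr 1
    ext t
    simp only [hv]
    ring
  have s2 : ∀ n x, ev (fun t => v u₂ n ⟨x, t⟩) {t | (⟨x, t⟩ : ℂ) ∈ A} =
      ENNReal.ofReal (cut 1 n x) *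
        ev (fun t => cut 3 n t * u₂ ⟨x, t⟩) {t | (⟨x, t⟩ : ℂ) ∈ A} := by
    intro n x
    rw [← ev_smul _ _ (cut_nonneg 1 n x)]
    congr 1
    ext t
    simp only [hv]
    ring
  -- pointwise comparison of the suprema
  have sup1 : ∀ (L L' : ℝ) (y : ℝ) (u : ℝ → ℝ) (S : Set ℝ), (∀ t, 0 ≤ u t) → y ∈ Ioo (-L') L' →
      Ev L u S ≤ ⨆ n : ℕ, ENNReal.ofReal (cut L' n y) * ev (fun t => cut L n t * u t) S := by
    intro L L' y u S hu hy
    obtain ⟨N, hN⟩ := cut_ev (L := L') (a := y) (b := y) hy.1 hy.2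
    refine iSup_le fun n => ?_
    refine (Ev_mono_n hu S (le_max_left n N)).trans ?_
    refine le_trans (le_of_eq ?_) (le_iSup (fun n : ℕ => ENNReal.ofReal (cut L' n y) *
      ev (fun t => cut L n t * u t) S) (max n N))
    simp only
    rw [hN _ (le_max_right n N) y ⟨le_rfl, le_rfl⟩, ENNReal.ofReal_one, one_mul]
  have mono1 : Monotone fun n => fun y : ℝ =>
      ev (fun t => v u₁ n ⟨t, y⟩) {t | (⟨t, y⟩ : ℂ) ∈ A} := by
    intro n m h y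
    simp only
    rw [s1, s1]
    exact mul_le_mul' (ENNReal.ofReal_le_ofReal (cut_mono _ _ h))
      (Ev_mono_n (fun t => h0₁ _) _ h)
  have mono2 : Monotone fun n => fun x : ℝ =>
      ev (fun t => v u₂ n ⟨x, t⟩) {t | (⟨x, t⟩ : ℂ) ∈ A} := by
    intro n m h y
    simp only
    rw [s2, s2]
    exact mul_le_mul' (ENNReal.ofReal_le_ofReal (cut_mono _ _ h))
      (Ev_mono_n (fun t => h0₂ _) _ h)
  have i1 : (∫⁻ y in Ioo (-3 : ℝ) 3, Ev 1 (fun t => u₁ ⟨t, y⟩) {t | (⟨t, y⟩ : ℂ) ∈ A}) ≤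
      ⨆ n : ℕ, ∫⁻ y : ℝ, ev (fun t => v u₁ n ⟨t, y⟩) {t | (⟨t, y⟩ : ℂ) ∈ A} := by
    rw [← lintegral_iSup (fun n => ev_meas1 (vc _ hu₁ n) hA) mono1]
    refine le_trans (setLIntegral_mono' measurableSet_Ioo fun y hy => ?_)
      (setLIntegral_le_lintegral _ _)
    refine (sup1 1 3 y _ _ (fun t => h0₁ _) hy).trans (le_of_eq ?_)
    exact iSup_congr fun n => (s1 n y).symm
  have i2 : (∫⁻ x in Ioo (-1 : ℝ) 1, Ev 3 (fun t => u₂ ⟨x, t⟩) {t | (⟨x, t⟩ : ℂ) ∈ A}) ≤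
      ⨆ n : ℕ, ∫⁻ x : ℝ, ev (fun t => v u₂ n ⟨x, t⟩) {t | (⟨x, t⟩ : ℂ) ∈ A} := by
    rw [← lintegral_iSup (fun n => ev_meas2 (vc _ hu₂ n) hA) mono2]
    refine le_trans (setLIntegral_mono' measurableSet_Ioo fun y hy => ?_)
      (setLIntegral_le_lintegral _ _)
    refine (sup1 3 1 y _ _ (fun t => h0₂ _) hy).trans (le_of_eq ?_)
    exact iSup_congr fun n => (s2 n y).symm
  refine (add_le_add i1 i2).trans ?_
  rw [ENNReal.iSup_add_iSup_of_monotone]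
  · exact iSup_le key
  · intro n m h
    exact lintegral_mono (mono1 h)
  · intro n m h
    exact lintegral_mono (mono2 h)

lemma Ev_meas1 {u : ℂ → ℝ} (hu : Continuous u) {A : Set ℂ} (hA : MeasurableSet A) :
    Measurable fun y : ℝ => Ev 1 (fun t => u ⟨t, y⟩) {t | (⟨t, y⟩ : ℂ) ∈ A} := by
  unfold Ev
  refine Measurable.iSup fun n => ?_
  have h1 := cut_cont 1 n
  exact ev_meas1 (u := fun z => cut 1 n z.re * u z) (by fun_prop) hA

lemma Ev_meas2 {u : ℂ → ℝ} (hu : Continuous u) {A : Set ℂ} (hA : MeasurableSet A) :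
    Measurable fun x : ℝ => Ev 3 (fun t => u ⟨x, t⟩) {t | (⟨x, t⟩ : ℂ) ∈ A} := by
  unfold Ev
  refine Measurable.iSup fun n => ?_
  have h1 := cut_cont 3 n
  exact ev_meas2 (u := fun z => cut 3 n z.im * u z) (by fun_prop) hA

/-! ## Lower bounds -/

/-- two changes -/
lemma Ev_key2 {L : ℝ} {u : ℝ → ℝ} {S : Set ℝ} (hS : MeasurableSet S) {c0 c1 c2 c3 κ κ' : ℝ}
    (h01 : c0 ≤ c1) (h12 : c1 ≤ c2) (h23 : c2 ≤ c3) (hL0 : -L < c0) (hL3 : c3 < L) (hκ : 0 ≤ κ)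
    (hκ' : 0 ≤ κ') (hle : ∀ t ∈ Icc c0 c1, κ ≤ u t) (hle' : ∀ t ∈ Icc c2 c3, κ' ≤ u t)
    (g0 : Good S c0) (g1 : Good S c1) (g2 : Good S c2) (g3 : Good S c3) :
    ENNReal.ofReal (κ * |fi S c1 - fi S c0|) + ENNReal.ofReal (κ' * |fi S c3 - fi S c2|) ≤
      Ev L u S := by
  obtain ⟨N, hN⟩ := cut_ev (L := L) (a := c0) (b := c3) hL0 hL3
  refine le_trans ?_ (le_iSup _ N)
  refine key2 _ S hS c0 c1 c2 c3 κ κ' h01 h12 h23 hκ hκ' (fun t ht => ?_) (fun t ht => ?_)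
    g0 g1 g2 g3
  · rw [hN N le_rfl t ⟨ht.1.le, ht.2.trans (h12.trans h23)⟩, one_mul]
    exact hle t ⟨ht.1.le, ht.2⟩
  · rw [hN N le_rfl t ⟨(h01.trans h12).trans ht.1.le, ht.2⟩, one_mul]
    exact hle' t ⟨ht.1.le, ht.2⟩

/-- one change on an interval -/
lemma Ev_ge1 {L : ℝ} {u : ℝ → ℝ} {S : Set ℝ} (hS : MeasurableSet S) {a b m : ℝ} (ha : -L ≤ a)
    (hb : b ≤ L) (hm : 0 ≤ m) (hle : ∀ t ∈ Ioo a b, m ≤ u t) (h1 : 0 < volume (S ∩ Ioo a b))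
    (h2 : 0 < volume (Ioo a b \ S)) : ENNReal.ofReal m ≤ Ev L u S := by
  obtain ⟨x, y, hax, hxy, hyb, gx, gy, e⟩ := exists_pair S hS a b h1 h2
  have := Ev_key2 (L := L) (u := u) hS (κ := m) (κ' := 0) hxy le_rfl le_rfl (by linarith)
    (by linarith) hm le_rfl (fun t ht => hle t ⟨hax.trans_le ht.1, ht.2.trans_lt hyb⟩)
    (fun t ht => ?_) gx gy gy gy
  · simpa [e] using this
  · exact hm.trans (hle t ⟨(hax.trans_le hxy).trans_le ht.1, ht.2.trans_lt hyb⟩)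

end Pool.Agent.R224.HV
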