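import Pool.Agent.R224.HV.Ev

/-!
# Lower bounds for the variation along lines
-/

set_option autoImplicit false

open MeasureTheory Set Metric Filter Topology
open scoped ENNReal Real

noncomputable section

namespace Pool.Agent.R224.HV

open Pool.Agent.TH304.MI Pool.Agent.TH703.HU Pool.Agent.TH742.HU Pool.Agent.TH663.HU
open Pool.Agent.R224.Sl

lemma fi_cases (S : Set ℝ) (x : ℝ) : fi S x = 0 ∨ fi S x = 1 := by
  by_cases h : x ∈ S
  · exact Or.inr (fi_mem h)
  · exact Or.inl (fi_nmem h)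

lemma exists_good' {S : Set ℝ} (hS : MeasurableSet S) {a b : ℝ} (hab : a < b) :
    ∃ x, a < x ∧ x < b ∧ Good S x := by
  obtain ⟨x, hx, g⟩ := exists_good S (Ioo a b) hS (by rw [Real.volume_Ioo]; simp [hab])
  exact ⟨x, hx.1, hx.2, g⟩

/-- lower orientation -/
lemma half_aux {L : ℝ} {u : ℝ → ℝ} {S : Set ℝ} (hS : MeasurableSet S) {m : ℝ} (hm : 0 < m)
    (hle : ∀ t ∈ Ioo (-L) L, m ≤ u t) (hlt : Ev L u S < ENNReal.ofReal (2 * m)) {p q : ℝ}
    (hpq : p < q) (hp : p ∈ Ioo (-L) L) (hq : q ∈ Ioo (-L) L) (gp : Good S p) (gq : Good S q)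
    (fp : fi S p = 1) (fq : fi S q = 0) :
    ∃ k ∈ Ioo (-L) L, ∀ᵐ t : ℝ, t ∈ Ioo (-L) L → (t ∈ S ↔ t < k) := by
  have two : ∀ c0 c1 c2 c3 : ℝ, c0 ≤ c1 → c1 ≤ c2 → c2 ≤ c3 → c0 ∈ Ioo (-L) L → c3 ∈ Ioo (-L) L →
      Good S c0 → Good S c1 → Good S c2 → Good S c3 → |fi S c1 - fi S c0| = 1 →
      |fi S c3 - fi S c2| = 1 → False := by
    intro c0 c1 c2 c3 h01 h12 h23 h0 h3 g0 g1 g2 g3 e1 e2
    have := Ev_key2 (L := L) (u := u) hS (κ := m) (κ' := m) h01 h12 h23 h0.1 h3.2 hm.le hm.le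
      (fun t ht => hle t ⟨h0.1.trans_le ht.1, (ht.2.trans (h12.trans h23)).trans_lt h3.2⟩)
      (fun t ht => hle t ⟨h0.1.trans_le ((h01.trans h12).trans ht.1), ht.2.trans_lt h3.2⟩)
      g0 g1 g2 g3
    rw [e1, e2, mul_one, ← ENNReal.ofReal_add hm.le hm.le, ← two_mul] at this
    exact absurd hlt (not_lt.2 this)
  -- to the left of `p` all good points are in `S`
  have left : ∀ x ∈ Ioo (-L) L, x < p → Good S x → fi S x = 1 := by
    intro x hx hxp gx
    rcases fi_cases S x with h | h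
    · exfalso
      refine two x p p q hxp.le le_rfl hpq.le hx hq gx gp gp gq ?_ ?_
      · rw [fp, h]; norm_num
      · rw [fp, fq]; norm_num
    · exact h
  -- the supremum
  set T : Set ℝ := {x | x ∈ Ioo (-L) L ∧ Good S x ∧ fi S x = 1} with hT
  have hpT : p ∈ T := ⟨hp, gp, fp⟩
  have hTb : BddAbove T := ⟨L, fun x hx => hx.1.2.le⟩
  set k := sSup T with hk
  have hpk : p ≤ k := le_csSup hTb hpT
  -- right of `q` no good point is in `S`
  have right : ∀ x ∈ Ioo (-L) L, q < x → Good S x → fi S x = 0 := by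
    intro x hx hqx gx
    rcases fi_cases S x with h | h
    · exact h
    · exfalso
      refine two p q q x hpq.le le_rfl hqx.le hp hx gp gq gq gx ?_ ?_
      · rw [fp, fq]; norm_num
      · rw [h, fq]; norm_num
  have hkq : k ≤ q := by
    refine csSup_le ⟨p, hpT⟩ fun x hx => ?_
    by_contra hcon
    push Not at hcon
    have := right x hx.1 hcon hx.2.1
    rw [hx.2.2] at this
    norm_num at this
  refine ⟨k, ⟨hp.1.trans_le hpk, hkq.trans_lt hq.2⟩, ?_⟩
  have hne : ∀ᵐ t : ℝ, t ≠ k := by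
    rw [ae_iff]
    simp
  filter_upwards [ae_good S hS, hne] with x gx hxk hx
  rcases lt_or_gt_of_ne hxk with h | h
  · -- below `k`
    refine ⟨fun _ => h, fun _ => ?_⟩
    obtain ⟨p', hp', hxp'⟩ := exists_lt_of_lt_csSup ⟨p, hpT⟩ h
    rcases fi_cases S x with h0 | h1
    · exfalso
      rcases lt_trichotomy x p with h2 | h2 | h2
      · have := left x hx h2 gx
        rw [h0] at this
        norm_num at this
      · rw [h2, fp] at h0
        norm_num at h0
      · refine two p x x p' h2.le le_rfl hxp'.le hp hp'.1 gp gx gx hp'.2.1 ?_ ?_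
        · rw [fp, h0]; norm_num
        · rw [hp'.2.2, h0]; norm_num
    · by_contra hcon
      rw [fi_nmem hcon] at h1
      norm_num at h1
  · refine ⟨fun h3 => ?_, fun h3 => absurd h3 (not_lt.2 h.le)⟩
    exfalso
    have h4 : x ∈ T := ⟨hx, gx, fi_mem h3⟩
    exact absurd (le_csSup hTb h4) (not_le.2 h)

/-- A slice with small variation is a half-line. -/
lemma Ev_half {L : ℝ} {u : ℝ → ℝ} {S : Set ℝ} (hS : MeasurableSet S) {m : ℝ} (hm : 0 < m)
    (hle : ∀ t ∈ Ioo (-L) L, m ≤ u t) (hlt : Ev L u S < ENNReal.ofReal (2 * m))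
    (h1 : 0 < volume (S ∩ Ioo (-L) L)) (h2 : 0 < volume (Ioo (-L) L \ S)) :
    ∃ k ∈ Ioo (-L) L, (∀ᵐ t : ℝ, t ∈ Ioo (-L) L → (t ∈ S ↔ t < k)) ∨
      (∀ᵐ t : ℝ, t ∈ Ioo (-L) L → (t ∉ S ↔ t < k)) := by
  obtain ⟨p, hp, gp⟩ := exists_good S _ hS h1
  obtain ⟨q, hq, gq⟩ := exists_good S _ hS h2
  have hne : p ≠ q := fun h => hq.2 (h ▸ hp.1)
  rcases lt_or_gt_of_ne hne with h | h
  · obtain ⟨k, hk, hk2⟩ := half_aux hS hm hle hlt h hp.2 hq.1 gp gq (fi_mem hp.1) (fi_nmem hq.2)
    exact ⟨k, hk, Or.inl hk2⟩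
  · have gc : ∀ x, Good S x → Good Sᶜ x := by
      intro x gx
      unfold Good at gx ⊢
      have e1 : ∀ t, fi Sᶜ t = 1 - fi S t := by
        intro t
        by_cases ht : t ∈ S
        · rw [fi_mem ht, fi_nmem (by simpa using ht)]; norm_num
        · rw [fi_nmem ht, fi_mem (by simpa using ht)]; norm_num
      rw [e1 x]
      have e2 : ∀ n : ℕ, ((n : ℝ) + 1) * (∫ t in x..(x + 1 / ((n : ℝ) + 1)), fi Sᶜ t) =
          1 - ((n : ℝ) + 1) * (∫ t in x..(x + 1 / ((n : ℝ) + 1)), fi S t) := by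
        intro n
        have hn : (0 : ℝ) < (n : ℝ) + 1 := by positivity
        simp_rw [e1]
        rw [intervalIntegral.integral_sub intervalIntegrable_const (fi_int S hS _ _)]
        simp only [intervalIntegral.integral_const, smul_eq_mul, mul_one]
        field_simp
        ring
      simp_rw [e2]
      exact gx.const_sub 1
    have hlt' : Ev L u Sᶜ < ENNReal.ofReal (2 * m) := by rwa [Ev_compl]
    have fq : fi Sᶜ q = 1 := fi_mem hq.2
    have fp : fi Sᶜ p = 0 := fi_nmem (by simpa using hp.1)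
    obtain ⟨k, hk, hk2⟩ := half_aux hS.compl hm hle hlt' h hq.1 hp.2 (gc q gq) (gc p gp) fq fp
    exact ⟨k, hk, Or.inr hk2⟩

/-! ## The calibrated lower bound for horizontal slices -/

lemma fi_nonneg (S : Set ℝ) (t : ℝ) : 0 ≤ fi S t := by
  rcases fi_cases S t with h | h <;> rw [h] <;> norm_num

lemma fi_le_one (S : Set ℝ) (t : ℝ) : fi S t ≤ 1 := by
  rcases fi_cases S t with h | h <;> rw [h] <;> norm_num

lemma wfi_int {S : Set ℝ} (hS : MeasurableSet S) {g : ℝ → ℝ} (hg : Continuous g) (a b : ℝ) :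
    IntervalIntegrable (fun t => g t * fi S t) volume a b :=
  (fi_int S hS a b).continuousOn_mul hg.continuousOn

lemma wfi_int' {S : Set ℝ} (hS : MeasurableSet S) {g : ℝ → ℝ} (hg : Continuous g) (h a b : ℝ) :
    IntervalIntegrable (fun t => g t * fi S (t + h)) volume a b := by
  refine IntervalIntegrable.continuousOn_mul ?_ hg.continuousOn
  exact (IntervalIntegrable.comp_add_right_iff).2 (fi_int S hS (a + h) (b + h))

lemma lint_ge {u g : ℝ → ℝ} {S : Set ℝ} {a b h : ℝ} (hab : a ≤ b)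
    (hle : ∀ t ∈ Ioc a b, |g t| ≤ u t) :
    ENNReal.ofReal (∫ t in a..b, g t * (fi S (t + h) - fi S t)) ≤
      ∫⁻ t in Ioc a b, ENNReal.ofReal (u t * |fi S (t + h) - fi S t|) := by
  rw [intervalIntegral.integral_of_le hab]
  have e2 : ENNReal.ofReal (∫ t in Ioc a b, g t * (fi S (t + h) - fi S t)) ≤
      ∫⁻ t in Ioc a b, ENNReal.ofReal (|g t * (fi S (t + h) - fi S t)|) := by
    have := enorm_integral_le_lintegral_enorm (μ := volume.restrict (Ioc a b))
      (fun t => g t * (fi S (t + h) - fi S t))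
    simp only [← ofReal_norm, Real.norm_eq_abs] at this
    exact (ENNReal.ofReal_le_ofReal (le_abs_self _)).trans this
  refine e2.trans (setLIntegral_mono' measurableSet_Ioc fun t ht => ?_)
  apply ENNReal.ofReal_le_ofReal
  rw [abs_mul]
  exact mul_le_mul_of_nonneg_right (hle t ht) (abs_nonneg _)

lemma right_part {S : Set ℝ} (hS : MeasurableSet S) {b w h k : ℝ} (hh : 0 < h) (hbw : b + h ≤ w)
    (hk : 0 ≤ k) :
    k * (h * ((∫ t in b..w, fi S t) - h) - (w - b) * ∫ t in b..(b + h), fi S t) ≤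
      ∫ t in b..w, (k * (w - t)) * (fi S (t + h) - fi S t) := by
  have hc1 : Continuous fun t : ℝ => w - t := by fun_prop
  have hc2 : Continuous fun t : ℝ => w + h - t := by fun_prop
  have e1 : ∫ t in b..w, (k * (w - t)) * (fi S (t + h) - fi S t) =
      k * ((∫ t in b..w, (w - t) * fi S (t + h)) - ∫ t in b..w, (w - t) * fi S t) := by
    rw [← intervalIntegral.integral_sub (wfi_int' hS hc1 h _ _) (wfi_int hS hc1 _ _),
      ← intervalIntegral.integral_const_mul]
    refine intervalIntegral.integral_congr fun t _ => ?_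
    ring
  have e2 : ∫ t in b..w, (w - t) * fi S (t + h) = ∫ t in (b + h)..(w + h), (w + h - t) * fi S t := by
    rw [← intervalIntegral.integral_comp_add_right (fun t => (w + h - t) * fi S t) h]
    refine intervalIntegral.integral_congr fun t _ => ?_
    congr 1; ring
  have e3 : ∫ t in (b + h)..w, (w + h - t) * fi S t ≤
      ∫ t in (b + h)..(w + h), (w + h - t) * fi S t := by
    rw [← intervalIntegral.integral_add_adjacent_intervals (wfi_int hS hc2 (b + h) w)
      (wfi_int hS hc2 w (w + h))]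
    have : 0 ≤ ∫ t in w..(w + h), (w + h - t) * fi S t :=
      intervalIntegral.integral_nonneg (by linarith) fun t ht =>
        mul_nonneg (by linarith [ht.2]) (fi_nonneg S t)
    linarith
  have e4 : ∫ t in b..w, (w - t) * fi S t = (∫ t in b..(b + h), (w - t) * fi S t) +
      ∫ t in (b + h)..w, (w - t) * fi S t :=
    (intervalIntegral.integral_add_adjacent_intervals (wfi_int hS hc1 b (b + h))
      (wfi_int hS hc1 (b + h) w)).symm
  have e5 : ∫ t in b..(b + h), (w - t) * fi S t ≤ (w - b) * ∫ t in b..(b + h), fi S t := by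
    rw [← intervalIntegral.integral_const_mul]
    refine intervalIntegral.integral_mono_on (by linarith) (wfi_int hS hc1 _ _)
      ((fi_int S hS _ _).const_mul _) fun t ht => ?_
    exact mul_le_mul_of_nonneg_right (by linarith [ht.1]) (fi_nonneg S t)
  have e6 : (∫ t in (b + h)..w, (w + h - t) * fi S t) - ∫ t in (b + h)..w, (w - t) * fi S t =
      h * ∫ t in (b + h)..w, fi S t := by
    rw [← intervalIntegral.integral_sub (wfi_int hS hc2 _ _) (wfi_int hS hc1 _ _),
      ← intervalIntegral.integral_const_mul]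
    refine intervalIntegral.integral_congr fun t _ => ?_
    ring
  have e7 : (∫ t in b..w, fi S t) - h ≤ ∫ t in (b + h)..w, fi S t := by
    rw [← intervalIntegral.integral_add_adjacent_intervals (fi_int S hS b (b + h))
      (fi_int S hS (b + h) w)]
    have : ∫ t in b..(b + h), fi S t ≤ ∫ _t in b..(b + h), (1 : ℝ) :=
      intervalIntegral.integral_mono_on (by linarith) (fi_int S hS _ _)
        intervalIntegrable_const fun t _ => fi_le_one S t
    rw [intervalIntegral.integral_const, smul_eq_mul] at this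
    linarith
  rw [e1]
  refine mul_le_mul_of_nonneg_left ?_ hk
  have e8 : h * ((∫ t in b..w, fi S t) - h) ≤ h * ∫ t in (b + h)..w, fi S t :=
    mul_le_mul_of_nonneg_left e7 hh.le
  rw [e2]
  linarith

lemma left_part {S : Set ℝ} (hS : MeasurableSet S) {b w h k : ℝ} (hh : 0 < h) (hbw : -w + h ≤ b)
    (hk : 0 ≤ k) :
    k * (h * ((∫ t in (-w)..b, fi S t) - h) - (w + b) * ∫ t in b..(b + h), fi S t) ≤
      ∫ t in (-w)..b, (-(k * (w + t))) * (fi S (t + h) - fi S t) := by
  have hc1 : Continuous fun t : ℝ => w + t := by fun_prop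
  have hc2 : Continuous fun t : ℝ => w + t - h := by fun_prop
  have e1 : ∫ t in (-w)..b, (-(k * (w + t))) * (fi S (t + h) - fi S t) =
      k * ((∫ t in (-w)..b, (w + t) * fi S t) - ∫ t in (-w)..b, (w + t) * fi S (t + h)) := by
    rw [← intervalIntegral.integral_sub (wfi_int hS hc1 _ _) (wfi_int' hS hc1 h _ _),
      ← intervalIntegral.integral_const_mul]
    refine intervalIntegral.integral_congr fun t _ => ?_
    ring
  have e2 : ∫ t in (-w)..b, (w + t) * fi S (t + h) =
      ∫ t in (-w + h)..(b + h), (w + t - h) * fi S t := by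
    rw [← intervalIntegral.integral_comp_add_right (fun t => (w + t - h) * fi S t) h]
    refine intervalIntegral.integral_congr fun t _ => ?_
    congr 1; ring
  have e3 : ∫ t in (-w + h)..(b + h), (w + t - h) * fi S t =
      (∫ t in (-w + h)..b, (w + t - h) * fi S t) + ∫ t in b..(b + h), (w + t - h) * fi S t :=
    (intervalIntegral.integral_add_adjacent_intervals (wfi_int hS hc2 _ _)
      (wfi_int hS hc2 _ _)).symm
  have e4 : ∫ t in (-w + h)..b, (w + t) * fi S t ≤ ∫ t in (-w)..b, (w + t) * fi S t := by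
    rw [← intervalIntegral.integral_add_adjacent_intervals (wfi_int hS hc1 (-w) (-w + h))
      (wfi_int hS hc1 (-w + h) b)]
    have : 0 ≤ ∫ t in (-w)..(-w + h), (w + t) * fi S t :=
      intervalIntegral.integral_nonneg (by linarith) fun t ht =>
        mul_nonneg (by linarith [ht.1]) (fi_nonneg S t)
    linarith
  have e5 : ∫ t in b..(b + h), (w + t - h) * fi S t ≤ (w + b) * ∫ t in b..(b + h), fi S t := by
    rw [← intervalIntegral.integral_const_mul]
    refine intervalIntegral.integral_mono_on (by linarith) (wfi_int hS hc2 _ _)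
      ((fi_int S hS _ _).const_mul _) fun t ht => ?_
    exact mul_le_mul_of_nonneg_right (by linarith [ht.2]) (fi_nonneg S t)
  have e6 : (∫ t in (-w + h)..b, (w + t) * fi S t) - ∫ t in (-w + h)..b, (w + t - h) * fi S t =
      h * ∫ t in (-w + h)..b, fi S t := by
    rw [← intervalIntegral.integral_sub (wfi_int hS hc1 _ _) (wfi_int hS hc2 _ _),
      ← intervalIntegral.integral_const_mul]
    refine intervalIntegral.integral_congr fun t _ => ?_
    ring
  have e7 : (∫ t in (-w)..b, fi S t) - h ≤ ∫ t in (-w + h)..b, fi S t := by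
    rw [← intervalIntegral.integral_add_adjacent_intervals (fi_int S hS (-w) (-w + h))
      (fi_int S hS (-w + h) b)]
    have : ∫ t in (-w)..(-w + h), fi S t ≤ ∫ _t in (-w)..(-w + h), (1 : ℝ) :=
      intervalIntegral.integral_mono_on (by linarith) (fi_int S hS _ _)
        intervalIntegrable_const fun t _ => fi_le_one S t
    rw [intervalIntegral.integral_const, smul_eq_mul] at this
    linarith
  rw [e1]
  refine mul_le_mul_of_nonneg_left ?_ hk
  have e8 : h * ((∫ t in (-w)..b, fi S t) - h) ≤ h * ∫ t in (-w + h)..b, fi S t :=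
    mul_le_mul_of_nonneg_left e7 hh.le
  rw [e2, e3]
  linarith

lemma ev_cal {u : ℝ → ℝ} {S : Set ℝ} (hS : MeasurableSet S) {b w k : ℝ} (hb1 : -w < b)
    (hb2 : b < w) (hk : 0 ≤ k) (gb : Good S b) (fb : fi S b = 0)
    (hu1 : ∀ t ∈ Ioc b w, k * (w - t) ≤ u t) (hu2 : ∀ t ∈ Ioc (-w) b, k * (w + t) ≤ u t) :
    ENNReal.ofReal (k * ∫ t in (-w)..w, fi S t) ≤ ev u S := by
  set a : ℕ → ℝ := fun n => k * (((∫ t in b..w, fi S t) - 1 / ((n : ℝ) + 1)) -
    (w - b) * (((n : ℝ) + 1) * ∫ t in b..(b + 1 / ((n : ℝ) + 1)), fi S t)) with ha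
  set a' : ℕ → ℝ := fun n => k * (((∫ t in (-w)..b, fi S t) - 1 / ((n : ℝ) + 1)) -
    (w + b) * (((n : ℝ) + 1) * ∫ t in b..(b + 1 / ((n : ℝ) + 1)), fi S t)) with ha'
  have t0 : Tendsto (fun n : ℕ => 1 / ((n : ℝ) + 1)) atTop (𝓝 0) :=
    tendsto_one_div_add_atTop_nhds_zero_nat
  have t1 : Tendsto a atTop (𝓝 (k * (∫ t in b..w, fi S t))) := by
    have := ((t0.const_sub (∫ t in b..w, fi S t)).sub (gb.const_mul (w - b))).const_mul k
    rw [fb, mul_zero, sub_zero, sub_zero] at this
    exact this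
  have t2 : Tendsto a' atTop (𝓝 (k * (∫ t in (-w)..b, fi S t))) := by
    have := ((t0.const_sub (∫ t in (-w)..b, fi S t)).sub (gb.const_mul (w + b))).const_mul k
    rw [fb, mul_zero, sub_zero, sub_zero] at this
    exact this
  have t3 := ((ENNReal.continuous_ofReal.tendsto _).comp t1).add
    ((ENNReal.continuous_ofReal.tendsto _).comp t2)
  have p1 : 0 ≤ ∫ t in b..w, fi S t :=
    intervalIntegral.integral_nonneg hb2.le fun t _ => fi_nonneg S t
  have p2 : 0 ≤ ∫ t in (-w)..b, fi S t :=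
    intervalIntegral.integral_nonneg hb1.le fun t _ => fi_nonneg S t
  rw [← ENNReal.ofReal_add (mul_nonneg hk p1) (mul_nonneg hk p2), ← mul_add, add_comm,
    intervalIntegral.integral_add_adjacent_intervals (fi_int S hS (-w) b) (fi_int S hS b w)] at t3
  rw [← t3.liminf_eq]
  unfold ev
  have hsm : ∀ᶠ n : ℕ in atTop, 1 / ((n : ℝ) + 1) < min (w - b) (b + w) :=
    t0.eventually (gt_mem_nhds (lt_min (by linarith) (by linarith)))
  refine liminf_le_liminf ?_
  filter_upwards [hsm] with n hn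
  have hn0 : (0 : ℝ) < (n : ℝ) + 1 := by positivity
  set h : ℝ := 1 / ((n : ℝ) + 1) with hh
  have hh0 : 0 < h := by positivity
  have hnh : ((n : ℝ) + 1) * h = 1 := by rw [hh]; field_simp
  have hm1 := min_le_left (w - b) (b + w)
  have hm2 := min_le_right (w - b) (b + w)
  have r1 := right_part hS (b := b) (w := w) hh0 (by linarith) hk
  have r2 := left_part hS (b := b) (w := w) hh0 (by linarith) hk
  have q1 := lint_ge (u := u) (S := S) (h := h) hb2.le
    (g := fun t => k * (w - t)) (fun t ht => by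
      rw [abs_of_nonneg (mul_nonneg hk (by linarith [ht.2]))]; exact hu1 t ht)
  have q2 := lint_ge (u := u) (S := S) (h := h) hb1.le
    (g := fun t => -(k * (w + t))) (fun t ht => by
      rw [abs_neg, abs_of_nonneg (mul_nonneg hk (by linarith [ht.1]))]; exact hu2 t ht)
  have d : Disjoint (Ioc (-w) b) (Ioc b w) := by
    rw [Set.disjoint_left]
    intro t h1 h2
    exact absurd (lt_of_lt_of_le h2.1 h1.2) (lt_irrefl _)
  have e : ((n : ℝ≥0∞) + 1) = ENNReal.ofReal ((n : ℝ) + 1) := by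
    rw [ENNReal.ofReal_add (by positivity) zero_le_one]
    simp
  have s1 : ENNReal.ofReal (a n) ≤ ((n : ℝ≥0∞) + 1) *
      ∫⁻ t in Ioc b w, ENNReal.ofReal (u t * |fi S (t + h) - fi S t|) := by
    have : a n = ((n : ℝ) + 1) * (k * (h * ((∫ t in b..w, fi S t) - h) -
        (w - b) * ∫ t in b..(b + h), fi S t)) := by
      simp only [ha]
      have : ((n : ℝ) + 1) * (k * (h * ((∫ t in b..w, fi S t) - h) -
        (w - b) * ∫ t in b..(b + h), fi S t)) = k * ((((n : ℝ) + 1) * h) *
          ((∫ t in b..w, fi S t) - h) - (w - b) * (((n : ℝ) + 1) * ∫ t in b..(b + h), fi S t)) := by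
        ring
      rw [this, hnh, one_mul]
    rw [this, ENNReal.ofReal_mul hn0.le, e]
    gcongr
    exact (ENNReal.ofReal_le_ofReal r1).trans q1
  have s2 : ENNReal.ofReal (a' n) ≤ ((n : ℝ≥0∞) + 1) *
      ∫⁻ t in Ioc (-w) b, ENNReal.ofReal (u t * |fi S (t + h) - fi S t|) := by
    have : a' n = ((n : ℝ) + 1) * (k * (h * ((∫ t in (-w)..b, fi S t) - h) -
        (w + b) * ∫ t in b..(b + h), fi S t)) := by
      simp only [ha']
      have : ((n : ℝ) + 1) * (k * (h * ((∫ t in (-w)..b, fi S t) - h) -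
        (w + b) * ∫ t in b..(b + h), fi S t)) = k * ((((n : ℝ) + 1) * h) *
          ((∫ t in (-w)..b, fi S t) - h) -
            (w + b) * (((n : ℝ) + 1) * ∫ t in b..(b + h), fi S t)) := by
        ring
      rw [this, hnh, one_mul]
    rw [this, ENNReal.ofReal_mul hn0.le, e]
    gcongr
    exact (ENNReal.ofReal_le_ofReal r2).trans q2
  calc _ ≤ ((n : ℝ≥0∞) + 1) *
      (∫⁻ t in Ioc b w, ENNReal.ofReal (u t * |fi S (t + h) - fi S t|)) + ((n : ℝ≥0∞) + 1) *
      ∫⁻ t in Ioc (-w) b, ENNReal.ofReal (u t * |fi S (t + h) - fi S t|) := add_le_add s1 s2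
    _ = ((n : ℝ≥0∞) + 1) * ∫⁻ t in Ioc (-w) b ∪ Ioc b w,
          ENNReal.ofReal (u t * |fi S (t + h) - fi S t|) := by
        rw [← mul_add, lintegral_union measurableSet_Ioc d]
        congr 1
        exact add_comm _ _
    _ ≤ _ := mul_le_mul' le_rfl (setLIntegral_le_lintegral _ _)

/-- The calibrated bound. -/
lemma Ev_cal {u : ℝ → ℝ} {S : Set ℝ} (hS : MeasurableSet S) {ℓ w k : ℝ} (hℓw : ℓ < w)
    (hw1 : w < 1) (hk : 0 ≤ k) (hu : ∀ t ∈ Icc (-w) w, k * (w + 2 * ℓ - |t|) ≤ u t)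
    (hS2 : 0 < volume (Ioo (-ℓ) ℓ \ S)) :
    ENNReal.ofReal (k * (volume (S ∩ Ioo (-w) w)).toReal) ≤ Ev 1 u S := by
  obtain ⟨b, hb, gb⟩ := exists_good S _ hS hS2
  have hb1 : -ℓ < b := hb.1.1
  have hb2 : b < ℓ := hb.1.2
  have hℓ : 0 < ℓ := by linarith
  have hww : -w < w := by linarith
  obtain ⟨N, hN⟩ := cut_ev (L := 1) (a := -w) (b := w) (by linarith) hw1
  refine le_trans ?_ (le_iSup _ N)
  have e1 : (volume (S ∩ Ioo (-w) w)).toReal = ∫ t in (-w)..w, fi S t := by
    rw [intervalIntegral.integral_of_le hww.le, integral_Ioc_eq_integral_Ioo]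
    unfold fi
    rw [integral_indicator hS, Measure.restrict_restrict hS, integral_const]
    simp [Measure.real]
  rw [e1]
  refine ev_cal hS (b := b) (by linarith) (by linarith) hk gb (fi_nmem hb.2) ?_ ?_
  · intro t ht
    have ht' : t ∈ Icc (-w) w := ⟨by linarith [ht.1], ht.2⟩
    rw [hN N le_rfl t ht', one_mul]
    refine le_trans (mul_le_mul_of_nonneg_left ?_ hk) (hu t ht')
    rcases abs_cases t with ⟨h, _⟩ | ⟨h, _⟩ <;> rw [h] <;> linarith [ht.1]
  · intro t ht
    have ht' : t ∈ Icc (-w) w := ⟨ht.1.le, by linarith [ht.2]⟩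
    rw [hN N le_rfl t ht', one_mul]
    refine le_trans (mul_le_mul_of_nonneg_left ?_ hk) (hu t ht')
    rcases abs_cases t with ⟨h, _⟩ | ⟨h, _⟩ <;> rw [h] <;> linarith [ht.2]

/-- The calibrated bound for the complement. -/
lemma Ev_cal' {u : ℝ → ℝ} {S : Set ℝ} (hS : MeasurableSet S) {ℓ w k : ℝ} (hℓw : ℓ < w)
    (hw1 : w < 1) (hk : 0 ≤ k) (hu : ∀ t ∈ Icc (-w) w, k * (w + 2 * ℓ - |t|) ≤ u t)
    (hS2 : 0 < volume (S ∩ Ioo (-ℓ) ℓ)) :
    ENNReal.ofReal (k * (volume (Ioo (-w) w \ S)).toReal) ≤ Ev 1 u S := by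
  have h1 := Ev_cal hS.compl hℓw hw1 hk hu (by
    rwa [sdiff_eq, compl_compl, inter_comm])
  rw [Ev_compl] at h1
  rwa [sdiff_eq, inter_comm]

/-! ## Vertical slices -/

lemma Ev_vert {u : ℝ → ℝ} {S : Set ℝ} (hS : MeasurableSet S) {q p κ D : ℝ} (hq : 0 ≤ q)
    (hκ : 0 ≤ κ)
    (hu : ∀ t ∈ Ioo (-3 : ℝ) 3, q * min p (1 - κ * |t|) ≤ u t)
    (h1 : 0 < volume (S ∩ Ioo (-3) 3)) (h2 : 0 < volume (Ioo (-3) 3 \ S))
    (hD1 : volume (S ∩ Ioo 0 3) ≤ ENNReal.ofReal D) (hD2 : volume (Ioo (-3) 0 \ S) ≤ ENNReal.ofReal D)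
    (hD : 0 ≤ D) :
    ENNReal.ofReal (q * min p (1 - κ * D)) ≤ Ev 3 u S := by
  have key : ∀ η : ℝ, 0 < η → ENNReal.ofReal (q * min p (1 - κ * (D + η))) ≤ Ev 3 u S := by
    intro η hη
    rcases le_or_gt 0 (q * min p (1 - κ * (D + η))) with h0 | h0
    swap
    · rw [ENNReal.ofReal_of_nonpos h0.le]; exact zero_le
    rcases le_or_gt 3 (D + η) with h3 | h3
    · refine Ev_ge1 hS (a := -3) (b := 3) le_rfl le_rfl h0 (fun t ht => ?_) h1 h2
      refine le_trans (mul_le_mul_of_nonneg_left (min_le_min le_rfl ?_) hq) (hu t ht)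
      have : |t| ≤ D + η := by
        rcases abs_cases t with ⟨h, _⟩ | ⟨h, _⟩ <;> rw [h] <;> linarith [ht.1, ht.2]
      have := mul_le_mul_of_nonneg_left this hκ
      linarith
    · refine Ev_ge1 hS (a := -(D + η)) (b := D + η) (by linarith) (by linarith) h0
        (fun t ht => ?_) ?_ ?_
      · have ht' : t ∈ Ioo (-3 : ℝ) 3 := ⟨by linarith [ht.1], by linarith [ht.2]⟩
        refine le_trans (mul_le_mul_of_nonneg_left (min_le_min le_rfl ?_) hq) (hu t ht')
        have : |t| ≤ D + η := by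
          rcases abs_cases t with ⟨h, _⟩ | ⟨h, _⟩ <;> rw [h] <;> linarith [ht.1, ht.2]
        have := mul_le_mul_of_nonneg_left this hκ
        linarith
      · by_contra hcon
        have hz : volume (S ∩ Ioo (-(D + η)) (D + η)) = 0 := by simpa using hcon
        have h4 : volume (Ioo (-(D + η)) 0) ≤ volume (Ioo (-3) 0 \ S) := by
          calc volume (Ioo (-(D + η)) 0) ≤ volume (S ∩ Ioo (-(D + η)) (D + η)) +
                volume (Ioo (-3) 0 \ S) := by
                refine le_trans (measure_mono fun t ht => ?_) (measure_union_le _ _)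
                by_cases hS' : t ∈ S
                · exact Or.inl ⟨hS', ht.1, by linarith [ht.2]⟩
                · exact Or.inr ⟨⟨by linarith [ht.1], ht.2⟩, hS'⟩
            _ = _ := by rw [hz, zero_add]
        have h5 := h4.trans hD2
        rw [Real.volume_Ioo, ENNReal.ofReal_le_ofReal_iff hD] at h5
        linarith
      · by_contra hcon
        have hz : volume (Ioo (-(D + η)) (D + η) \ S) = 0 := by simpa using hcon
        have h4 : volume (Ioo 0 (D + η)) ≤ volume (S ∩ Ioo 0 3) := by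
          calc volume (Ioo 0 (D + η)) ≤ volume (Ioo (-(D + η)) (D + η) \ S) +
                volume (S ∩ Ioo 0 3) := by
                refine le_trans (measure_mono fun t ht => ?_) (measure_union_le _ _)
                by_cases hS' : t ∈ S
                · exact Or.inr ⟨hS', ht.1, by linarith [ht.2]⟩
                · exact Or.inl ⟨⟨by linarith [ht.1], ht.2⟩, hS'⟩
            _ = _ := by rw [hz, zero_add]
        have h5 := h4.trans hD1
        rw [Real.volume_Ioo, ENNReal.ofReal_le_ofReal_iff hD] at h5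
        linarith
  have hlim : Tendsto (fun η : ℝ => ENNReal.ofReal (q * min p (1 - κ * (D + η)))) (𝓝[>] 0)
      (𝓝 (ENNReal.ofReal (q * min p (1 - κ * D)))) := by
    have h1 : Continuous fun η : ℝ => q * min p (1 - κ * (D + η)) := by fun_prop
    have h2 : Tendsto (fun η : ℝ => q * min p (1 - κ * (D + η))) (𝓝[>] 0)
        (𝓝 (q * min p (1 - κ * (D + 0)))) :=
      (h1.tendsto 0).mono_left nhdsWithin_le_nhds
    rw [add_zero] at h2
    exact (ENNReal.continuous_ofReal.tendsto _).comp h2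
  refine le_of_tendsto hlim ?_
  filter_upwards [self_mem_nhdsWithin] with η hη
  exact key η hη

end Pool.Agent.R224.HV
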