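import Pool.Agent.R224.HV.Pl5

/-!
# The planar theorem
-/

set_option autoImplicit false

open MeasureTheory Set Metric Filter Topology
open scoped ENNReal Real

noncomputable section

namespace Pool.Agent.R224.HV

open Pool.Agent.TH304.MI Pool.Agent.TH703.HU Pool.Agent.TH742.HU Pool.Agent.TH663.HU
open Pool.Agent.R224.Sl

/-! ## Divergence integrals -/

lemma int_fderiv_zero {g : ℂ → ℝ} (hg : ContDiff ℝ 1 g) (hc : HasCompactSupport g) (v : ℂ) :
    ∫ z, fderiv ℝ g z v = 0 := by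
  have h1 : Continuous fun y => fderiv ℝ g y v :=
    (hg.continuous_fderiv (by norm_num)).clm_apply continuous_const
  have h2 : HasCompactSupport fun y => fderiv ℝ g y v :=
    (hc.fderiv ℝ).comp_left (g := fun L : ℂ →L[ℝ] ℝ => L v) (by simp)
  have h3 := integral_mul_fderiv_eq_neg_fderiv_mul_of_integrable (μ := (volume :
    Measure ℂ)) (f := fun _ : ℂ => (1 : ℝ)) (g := g) (v := v) (by simp)
    (by simpa using h1.integrable_of_hasCompactSupport h2)
    (by simpa using hg.continuous.integrable_of_hasCompactSupport hc)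
    (fun x _ => differentiableAt_const _) (fun x _ => hg.differentiable (by norm_num) x)
  simpa using h3

/-- real part of a field -/
lemma re_cd {Y : ℂ → ℂ} (hY : ContDiff ℝ 1 Y) : ContDiff ℝ 1 fun z => (Y z).re :=
  Complex.reCLM.contDiff.comp hY

lemma im_cd {Y : ℂ → ℂ} (hY : ContDiff ℝ 1 Y) : ContDiff ℝ 1 fun z => (Y z).im :=
  Complex.imCLM.contDiff.comp hY

lemma re_cs {Y : ℂ → ℂ} (hY : HasCompactSupport Y) : HasCompactSupport fun z => (Y z).re :=
  hY.comp_left (g := Complex.re) rfl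

lemma im_cs {Y : ℂ → ℂ} (hY : HasCompactSupport Y) : HasCompactSupport fun z => (Y z).im :=
  hY.comp_left (g := Complex.im) rfl

lemma dv2_eq {Y : ℂ → ℂ} (hY : ContDiff ℝ 1 Y) (z : ℂ) :
    dv2 Y z = fderiv ℝ (fun z => (Y z).re) z 1 + fderiv ℝ (fun z => (Y z).im) z Complex.I := by
  have h := (hY.differentiable (by norm_num) z).hasFDerivAt
  have h1 : HasFDerivAt (fun z => (Y z).re) (Complex.reCLM.comp (fderiv ℝ Y z)) z :=
    Complex.reCLM.hasFDerivAt.comp z h
  have h2 : HasFDerivAt (fun z => (Y z).im) (Complex.imCLM.comp (fderiv ℝ Y z)) z :=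
    Complex.imCLM.hasFDerivAt.comp z h
  rw [h1.fderiv, h2.fderiv]
  rfl

lemma fd_int {g : ℂ → ℝ} (hg : ContDiff ℝ 1 g) (hc : HasCompactSupport g) (v : ℂ) :
    Integrable fun z => fderiv ℝ g z v := by
  have h1 : Continuous fun y => fderiv ℝ g y v :=
    (hg.continuous_fderiv (by norm_num)).clm_apply continuous_const
  have h2 : HasCompactSupport fun y => fderiv ℝ g y v :=
    (hc.fderiv ℝ).comp_left (g := fun L : ℂ →L[ℝ] ℝ => L v) (by simp)
  exact h1.integrable_of_hasCompactSupport h2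

lemma dv2_int {Y : ℂ → ℂ} (hY : ContDiff ℝ 1 Y) (hc : HasCompactSupport Y) :
    Integrable (dv2 Y) := by
  have : dv2 Y = fun z => fderiv ℝ (fun z => (Y z).re) z 1 +
      fderiv ℝ (fun z => (Y z).im) z Complex.I := funext fun z => dv2_eq hY z
  rw [this]
  exact (fd_int (re_cd hY) (re_cs hc) 1).add (fd_int (im_cd hY) (im_cs hc) Complex.I)

lemma int_dv2 {Y : ℂ → ℂ} (hY : ContDiff ℝ 1 Y) (hc : HasCompactSupport Y) :
    ∫ z, dv2 Y z = 0 := by
  simp_rw [dv2_eq hY]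
  rw [integral_add (fd_int (re_cd hY) (re_cs hc) 1) (fd_int (im_cd hY) (im_cs hc) Complex.I),
    int_fderiv_zero (re_cd hY) (re_cs hc), int_fderiv_zero (im_cd hY) (im_cs hc), add_zero]

lemma dv2_out {Y : ℂ → ℂ} {z : ℂ} (hz : z ∉ tsupport Y) : dv2 Y z = 0 := by
  have h : fderiv ℝ Y z = 0 := by
    by_contra hne
    exact hz (support_fderiv_subset ℝ hne)
  unfold dv2
  rw [h]
  simp

lemma PR_compl {κ : ℝ} {A : Set ℂ} (hA : MeasurableSet A) (hAR : A ⊆ RR) {P : ℝ}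
    (hP : PR κ A P) : PR κ (RR \ A) P := by
  intro Y hY
  have hneg : TR κ (fun z => - Y z) := by
    refine ⟨hY.cd.neg, hY.cs.neg, ?_, fun z hz => by rw [norm_neg]; exact hY.le z hz⟩
    rw [show (fun z => - Y z) = -Y from rfl, tsupport_neg]
    exact hY.sub
  have h1 := hP _ hneg
  have hint := dv2_int hY.cd hY.cs
  have h2 : ∫ z in RR, dv2 Y z = 0 := by
    rw [← int_dv2 hY.cd hY.cs]
    exact setIntegral_eq_integral_of_forall_compl_eq_zero fun z hz =>
      dv2_out fun h => hz (hY.sub h)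
  have h3 : ∫ z in RR \ A, dv2 Y z = - ∫ z in A, dv2 Y z := by
    rw [setIntegral_sdiff hA hint.integrableOn hAR, h2, zero_sub]
  have h4 : ∫ z in A, dv2 (fun z => - Y z) z = - ∫ z in A, dv2 Y z := by
    rw [← integral_neg]
    refine integral_congr_ae (Eventually.of_forall fun z => ?_)
    simp only [dv2]
    rw [show (fun z => - Y z) = -Y from rfl, fderiv_neg]
    simp only [neg_apply, Complex.neg_re, Complex.neg_im]
    ring
  rw [h3, ← h4]
  exact h1

/-! ## Symmetry of the trapped set -/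

lemma smul_RR {t : ℝ} (ht : t ∈ Ioo (0 : ℝ) 1) {z : ℂ} (hz : z ∈ RR) : (t : ℂ) * z ∈ RR := by
  have h1 : |z.re| < 1 := hz.1
  have h2 : |z.im| < 3 := hz.2
  have e1 : ((t : ℂ) * z).re = t * z.re := by simp
  have e2 : ((t : ℂ) * z).im = t * z.im := by simp
  refine ⟨?_, ?_⟩
  · rw [e1, abs_mul, abs_of_pos ht.1]
    have := abs_nonneg z.re
    nlinarith [ht.1, ht.2]
  · rw [e2, abs_mul, abs_of_pos ht.1]
    have := abs_nonneg z.im
    nlinarith [ht.1, ht.2]

lemma GG_compl {A : Set ℂ} {z : ℂ} (hz : z ∈ RR) : GG (RR \ A) z = GG A (-z) := by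
  unfold GG
  refine setLIntegral_congr_fun measurableSet_Ioo fun t ht => ?_
  have h1 : (t : ℂ) * z ∈ RR := smul_RR ht hz
  have h2 : -((t : ℂ) * z) ∈ RR := RR_neg h1
  have e1 : (t : ℂ) * -z = -((t : ℂ) * z) := by ring
  rw [e1, neg_neg, add_comm]
  congr 1
  · by_cases h : -((t : ℂ) * z) ∈ A
    · have a1 : -((t : ℂ) * z) ∉ RR \ A := fun h3 => h3.2 h
      have a2 : -((t : ℂ) * z) ∉ Aᶜ := fun h3 => h3 h
      rw [indicator_of_notMem a1, indicator_of_notMem a2]
    · have a1 : -((t : ℂ) * z) ∈ RR \ A := ⟨h2, h⟩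
      have a2 : -((t : ℂ) * z) ∈ Aᶜ := h
      rw [indicator_of_mem a1, indicator_of_mem a2]
  · by_cases h : (t : ℂ) * z ∈ A
    · have a1 : (t : ℂ) * z ∈ (RR \ A)ᶜ := fun h3 => h3.2 h
      rw [indicator_of_mem a1, indicator_of_mem h]
    · have a1 : (t : ℂ) * z ∉ (RR \ A)ᶜ := fun h3 => h3 ⟨h1, h⟩
      rw [indicator_of_notMem a1, indicator_of_notMem h]

lemma XR_compl (A : Set ℂ) : XR (RR \ A) = (fun z : ℂ => -z) ⁻¹' XR A := by
  ext z
  constructor
  · rintro ⟨h1, h2⟩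
    refine ⟨RR_neg h1, ?_⟩
    rw [← GG_compl h1]
    exact h2
  · rintro ⟨h1, h2⟩
    have h3 := RR_neg h1
    simp only [neg_neg] at h3
    exact ⟨h3, by rw [GG_compl h3]; exact h2⟩

lemma ma_neg {κ : ℝ} {S : Set ℂ} (hS : MeasurableSet S) :
    ma κ ((fun z : ℂ => -z) ⁻¹' S) = ma κ S := by
  unfold ma
  have mp : MeasurePreserving (fun z : ℂ => -z) volume volume :=
    Measure.measurePreserving_neg volume
  have := mp.setIntegral_preimage_emb (MeasurableEquiv.neg ℂ).measurableEmbedding (ff κ) S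
  rw [← this]
  refine setIntegral_congr_fun (measurable_neg hS) fun z _ => ?_
  exact (ff_neg κ z).symm

/-- **The planar theorem.** -/
theorem planar {ρ P : ℝ} {A : Set ℂ} (h : Hyp ρ A P) {c : ℝ} (hc0 : 0 < c) (hc1 : c ≤ 1)
    (hρc : ρ ≤ c / 10 ^ 6) (hX : c * ma (ρ ^ 2) RR ≤ ma (ρ ^ 2) (XR A)) :
    M0 - ρ ^ 4 / 1000 < P := by
  obtain ⟨k, hk, hk2 | hk2⟩ := h.stage1
  · exact Low.fin_ineq (k := k) ⟨h, hk, hk2⟩ hc0 hc1 hρc hX
  · have hB : Hyp ρ (RR \ A) P := by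
      refine ⟨h.ρ0, h.ρ1, isOpen_RR.measurableSet.diff h.meas, sdiff_subset, ?_,
        PR_compl h.meas h.sub h.per, h.le⟩
      rw [ma_diff (Subset.refl RR) h.meas h.sub, h.half]
      ring
    have hL : Low ρ (RR \ A) P k := by
      refine ⟨hB, hk, ?_⟩
      filter_upwards [hk2] with x hx hxI
      refine le_trans (measure_mono fun y hy => ?_) (hx hxI)
      obtain ⟨hy1, hy2⟩ := hy
      refine ⟨hy1, fun h3 => hy2 ⟨fun h4 => h3.1 h4.2, fun h4 => ⟨mem_RR.2 ⟨hxI, hy1⟩, h3.2 h4⟩⟩⟩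
    refine hL.fin_ineq hc0 hc1 hρc ?_
    rw [XR_compl, ma_neg (XR_meas h.meas)]
    exact hX

end Pool.Agent.R224.HV
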