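import Pool.Agent.R224.HV.Trap
import Pool.Agent.R224.HV.Pl6
import Pool.Agent.R224.HV.Comp2

/-!
# Conclusion
-/

set_option autoImplicit false

open MeasureTheory Set Metric Filter Topology
open scoped ENNReal Real

noncomputable section

namespace Pool.Agent.R224.HV

open Pool.Agent.TH304.MI Pool.Agent.TH703.HU

/-- No constant `c > 0` works. -/
theorem no_FH : ¬ ∃ c : ℝ, 0 < c ∧ FH c := by
  rintro ⟨c₀, hc₀, hFH₀⟩
  obtain ⟨c, hc0, hc1, hFH⟩ : ∃ c : ℝ, 0 < c ∧ c ≤ 1 ∧ FH c := by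
    refine ⟨min c₀ 1, lt_min hc₀ one_pos, min_le_right _ _, ?_⟩
    intro n Ω E a1 a2 a3 a4 a5 a6 a7 a8 a9
    obtain ⟨Γ, b1, b2, b3⟩ := hFH₀ n Ω E a1 a2 a3 a4 a5 a6 a7 a8 a9
    refine ⟨Γ, b1, b2, le_trans ?_ b3⟩
    gcongr
    exact min_le_left _ _
  set ρ : ℝ := c / 10 ^ 6 with hρ
  have hρ0 : 0 < ρ := by positivity
  have hρ1 : ρ ≤ 1 / 10 ^ 6 := by
    rw [hρ]
    gcongr
  have hρ2 : ρ ≤ 1 / 1000 := hρ1.trans (by norm_num)
  set κ : ℝ := ρ ^ 2 with hκdef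
  have hκpos : 0 < κ := by positivity
  have hκ0 : 0 ≤ κ := hκpos.le
  have hκ1 : κ ≤ 1 / 1000 := by
    rw [hκdef]
    nlinarith
  have hκ : κ ≤ 1 / 32 := hκ1.trans (by norm_num)
  obtain ⟨F, hFm, hFR, hFh, hFP⟩ := comp hκpos hκ1
  have hvF : volume (cylO (Bo κ) F) = volume (Bo κ) / 2 := by
    have h7 := vol_cylO hκ0 hκ isOpen_RR.measurableSet (subset_refl RR)
    rw [cylO_RR] at h7
    have hRR : 0 ≤ ma κ RR :=
      setIntegral_nonneg isOpen_RR.measurableSet fun x hx => (ff_pos hκ0 hκ hx).le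
    rw [vol_cylO hκ0 hκ hFm hFR, h7, hFh, ← ENNReal.ofReal_ofNat 2,
      ← ENNReal.ofReal_div_of_pos two_pos]
    congr 1
    ring
  have hcm : MeasurableSet (cylO (Bo κ) F) :=
    Pool.Agent.TH340.HU.meas_cylO (Bo_open κ) hFm
  have hcs : cylO (Bo κ) F ⊆ Bo κ := fun p hp => hp.1
  have hex : ∀ k : ℕ, ∃ E : Set (PP 1), MeasurableSet E ∧ E ⊆ Bo κ ∧
      volume E = volume (Bo κ) / 2 ∧
      PLe (1 / ((k : ℝ) + 1)) (Bo κ) E (2 * (M0 - κ ^ 2 / 1000)) ∧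
      Mnz (1 / ((k : ℝ) + 1)) (Bo κ) E := by
    intro k
    have h1 : (1 : ℝ) / ((k : ℝ) + 1) ≤ 1 := by
      rw [div_le_one (by positivity)]
      have : (0 : ℝ) ≤ k := Nat.cast_nonneg k
      linarith
    obtain ⟨E, e1, e2, e3, e4, e5⟩ := ex_mnz (ε := 1 / ((k : ℝ) + 1)) (Bo_open κ) (Bo_convex hκ0)
      (Bo_bdd hκ0) (by positivity) h1 hcm hcs (per_up hκ0 hκ hFm hFP)
    exact ⟨E, e1, e2, e3.trans hvF, e4, e5⟩
  choose E hEm hEs hEv hEP hEmin using hex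
  obtain ⟨A, ψ, hAm, hAR, hAh, hAP, hψ, hT⟩ := lim_set hκ0 hκ
    (ε := fun k : ℕ => 1 / ((k : ℝ) + 1)) (fun k => ⟨by positivity, by
      rw [div_le_one (by positivity)]
      have : (0 : ℝ) ≤ k := Nat.cast_nonneg k
      linarith⟩) tendsto_one_div_add_atTop_nhds_zero_nat hEm hEs hEv hEP
  have hK : ∀ k : ℕ, ∃ K : Set (PP 1), IsOpen K ∧ K ⊆ Bo κ ∧
      (∀ p ∈ K, ∀ t ∈ Ioo (0 : ℝ) 1, t • p ∈ K) ∧
      ENNReal.ofReal c * volume (Bo κ) ≤ volume K ∧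
      volume (K \ E k) = 0 ∧ volume ({p | -p ∈ K} ∩ E k) = 0 := fun k =>
    tr hFH (Bo_open κ) (Bo_convex hκ0) (Bo_bdd hκ0) (Bo_zero κ) Bo_neg (Bo_star hκ0)
      (by positivity) (hEm k) (hEs k) (hEv k) (hEmin k)
  choose K hKo hKs hKstar hKv hK1 hK2 using hK
  have htrap := trap_lim hκ0 hκ hc0.le (E := fun k => E (ψ k)) (K := fun k => K (ψ k)) hAm hT
    (fun k => hKo _) (fun k => hKs _) (fun k => hKstar _) (fun k => hKv _) (fun k => hK1 _)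
    (fun k => hK2 _)
  have hκsq : κ ^ 2 = ρ ^ 4 := by rw [hκdef]; ring
  have hHyp : Hyp ρ A (M0 - κ ^ 2 / 1000) := by
    refine ⟨hρ0, hρ2, hAm, hAR, hAh, hAP, ?_⟩
    have : 0 ≤ κ ^ 2 := sq_nonneg _
    linarith
  have := planar hHyp hc0 hc1 le_rfl htrap
  rw [hκsq] at this
  exact lt_irrefl _ this

end Pool.Agent.R224.HV
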