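import Pool.Agent.R224.HV.Low
import Pool.Agent.TH416.HU.B12
import Pool.Agent.TH89.HU.B4
import Pool.Agent.TH359.HU.B3

/-!
# Existence of half-volume minimizers, and the limit `ε → 0`
-/

set_option autoImplicit false

open MeasureTheory Set Metric Filter Topology
open scoped ENNReal Real

noncomputable section

namespace Pool.Agent.R224.HV

open Pool.Agent.TH304.MI Pool.Agent.TH703.HU

open Pool.Agent.TH359.HU in
/-- Existence of minimizers of given volume. -/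
theorem ex_mnz {b : ℕ} {Ω : Set (PP b)} (hO : IsOpen Ω) (hC : Convex ℝ Ω)
    (hB : Bornology.IsBounded Ω) {ε : ℝ} (hε : 0 < ε) (hε1 : ε ≤ 1) {F0 : Set (PP b)} {C0 : ℝ}
    (hFm : MeasurableSet F0) (hFs : F0 ⊆ Ω) (hFP : PLe ε Ω F0 C0) :
    ∃ E : Set (PP b), MeasurableSet E ∧ E ⊆ Ω ∧ volume E = volume F0 ∧ PLe ε Ω E C0 ∧
      Mnz ε Ω E := by
  have hfin : ∀ G : Set (PP b), G ⊆ Ω → volume G ≠ ∞ := fun G hG =>
    (hB.subset hG).measure_lt_top.ne
  obtain ⟨S, hS⟩ : ∃ S : Set ℝ, S = {C : ℝ | ∃ (G : Set (PP b)), MeasurableSet G ∧ G ⊆ Ω ∧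
      volume G = volume F0 ∧ PLe ε Ω G C} := ⟨_, rfl⟩
  have hne : S.Nonempty := by
    rw [hS]
    exact ⟨C0, F0, hFm, hFs, rfl, hFP⟩
  have hbdd : BddBelow S := by
    refine ⟨0, ?_⟩
    rw [hS]
    rintro C ⟨G, -, -, -, hP⟩
    exact PLe.nonneg hP
  obtain ⟨I, hI⟩ : ∃ I, I = sInf S := ⟨_, rfl⟩
  have hex : ∀ k : ℕ, ∃ (G : Set (PP b)) (C : ℝ), MeasurableSet G ∧ G ⊆ Ω ∧
      volume G = volume F0 ∧ PLe ε Ω G C ∧ C < I + 1 / ((k : ℝ) + 1) := by
    intro k
    have h1 : sInf S < I + 1 / ((k : ℝ) + 1) := by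
      rw [← hI]
      have : (0 : ℝ) < 1 / ((k : ℝ) + 1) := by positivity
      linarith
    obtain ⟨e, he, hlt⟩ := exists_lt_of_csInf_lt hne h1
    rw [hS] at he
    obtain ⟨G, a1, a2, a3, a4⟩ := he
    exact ⟨G, e, a1, a2, a3, a4, hlt⟩
  choose G C hGm hGs hGv hGP hGe using hex
  have hM : ∀ k, PLe 1 Ω (G k) (I + 1) := by
    intro k
    refine PLe.mono' (PLe.one hε hε1 (hGP k)) ?_
    have h1 := hGe k
    have h2 : 1 / ((k : ℝ) + 1) ≤ 1 := by
      rw [div_le_one (by positivity)]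
      have : (0 : ℝ) ≤ k := Nat.cast_nonneg k
      linarith
    linarith
  obtain ⟨F, ψ, hFm', hFs', hψ, hlim⟩ := Pool.Agent.TH416.HU.b1 b Ω hO hC hB G _ hGm hGs hM
  have hlimr : Tendsto (fun k => volume.real (symmDiff (G (ψ k)) F)) atTop (𝓝 0) := by
    have := (ENNReal.tendsto_toReal ENNReal.zero_ne_top).comp hlim
    rw [ENNReal.toReal_zero] at this
    exact this
  have hvol : Tendsto (fun k => volume.real (G (ψ k))) atTop (𝓝 (volume.real F)) := by
    rw [tendsto_iff_norm_sub_tendsto_zero]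
    refine squeeze_zero (fun _ => norm_nonneg _) (fun k => ?_) hlimr
    exact abs_measureReal_sub_le_measureReal_symmDiff' (hGm _).nullMeasurableSet
      hFm'.nullMeasurableSet (hfin _ (hGs _)) (hfin _ hFs')
  have hFv : volume F = volume F0 := by
    have h1 : ∀ k, volume.real (G (ψ k)) = volume.real F0 := fun k => by
      rw [Measure.real, Measure.real, hGv]
    simp_rw [h1] at hvol
    have h2 := tendsto_nhds_unique hvol tendsto_const_nhds
    exact (measureReal_eq_measureReal_iff (hfin _ hFs') (hfin _ hFs)).1 h2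
  have hFP' : PLe ε Ω F I := by
    intro φ hφ
    have h1 := Pool.Agent.TH416.HU.b2 b (fun k => G (ψ k)) F (fun k => hGm _) hFm' hlim φ
      hφ.cd hφ.cs
    have h2 : Tendsto (fun k : ℕ => I + 1 / ((ψ k : ℝ) + 1)) atTop (𝓝 (I + 0)) := by
      refine tendsto_const_nhds.add ?_
      exact tendsto_one_div_add_atTop_nhds_zero_nat.comp hψ.tendsto_atTop
    rw [add_zero] at h2
    refine le_of_tendsto_of_tendsto' h1 h2 fun k => ?_
    have h3 := hGP (ψ k) φ hφ
    have h4 := hGe (ψ k)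
    linarith
  have hmin : ∀ (G' : Set (PP b)) (C' : ℝ), MeasurableSet G' → G' ⊆ Ω → volume G' = volume F0 →
      PLe ε Ω G' C' → PLe ε Ω F C' := by
    intro G' C' hm hs hv hP
    refine PLe.mono' hFP' ?_
    rw [hI]
    refine csInf_le hbdd ?_
    rw [hS]
    exact ⟨G', hm, hs, hv, hP⟩
  refine ⟨F, hFm', hFs', hFv, hmin F0 C0 hFm hFs rfl hFP, fun G' hG'm hG's hG'v C' hG'P => ?_⟩
  exact hmin G' C' hG'm hG's (hG'v.trans hFv) hG'P

open Pool.Agent.TH340.HU in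
/-- **The limit.** -/
theorem lim_set {κ : ℝ} (hκ0 : 0 ≤ κ) (hκ : κ ≤ 1 / 32) {ε : ℕ → ℝ}
    (hε : ∀ k, 0 < ε k ∧ ε k ≤ 1) (hlim : Tendsto ε atTop (𝓝 0)) {E : ℕ → Set (PP 1)} {C : ℝ}
    (hEm : ∀ k, MeasurableSet (E k)) (hEs : ∀ k, E k ⊆ Bo κ)
    (hEv : ∀ k, volume (E k) = volume (Bo κ) / 2) (hEP : ∀ k, PLe (ε k) (Bo κ) (E k) (2 * C)) :
    ∃ (A : Set ℂ) (ψ : ℕ → ℕ), MeasurableSet A ∧ A ⊆ RR ∧ ma κ A = ma κ RR / 2 ∧ PR κ A C ∧
      StrictMono ψ ∧ Tendsto (fun k => volume (symmDiff (E (ψ k)) (cylO (Bo κ) A))) atTop (𝓝 0) := by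
  have ho := Bo_open κ
  have hc := Bo_convex hκ0
  have hb := Bo_bdd hκ0
  set P : ℝ := 2 * C with hP
  have hPk := hEP
  -- compactness
  obtain ⟨F0, ψ, hF0m, hF0s, hψ, hψl⟩ := Pool.Agent.TH416.HU.b1 _ (Bo κ) ho hc hb E P hEm
    hEs (fun k => PLe.one (hε k).1.le (hε k).2 (hPk k))
  -- the limit has zero y-divergence
  have hdiv : ∀ φ : PP 1 → PP 1, ContDiff ℝ 1 φ → HasCompactSupport φ →
      tsupport φ ⊆ Bo κ → (∀ p, xc (φ p) = 0) → ∫ x in F0, dv φ x = 0 := by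
    have key : ∀ φ : PP 1 → PP 1, ContDiff ℝ 1 φ → HasCompactSupport φ →
      tsupport φ ⊆ Bo κ → (∀ p, xc (φ p) = 0) → ∫ x in F0, dv φ x ≤ 0 := by
      intro φ hφ hcs hsub hx
      obtain ⟨M, hM⟩ : ∃ M : ℝ, ∀ p, ‖φ p‖ ≤ M := hφ.continuous.bounded_above_of_compact_support hcs
      have hM1 : (0 : ℝ) < max M 1 := lt_of_lt_of_le one_pos (le_max_right _ _)
      have hM2 : ∀ p, ‖φ p‖ ≤ max M 1 := fun p => (hM p).trans (le_max_left _ _)
      set M' := max M 1
      have hk : ∀ k, ∫ x in E k, dv φ x ≤ ε k * M' * P := by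
        intro k
        have he := (hε k).1
        have hpos : 0 < ε k * M' := mul_pos he hM1
        have hfld : Fld (ε k) (Bo κ) (fun p => (ε k * M')⁻¹ • φ p) := by
          refine ⟨cd_smul _ hφ, cs_smul _ hcs, (sub_smul' _).trans hsub, ?_⟩
          intro p
          have h1 : xc ((ε k * M')⁻¹ • φ p) = 0 := xc_smul _ (hx p)
          rw [norm_sc_of_xc he.le _ h1, norm_smul, Real.norm_of_nonneg (inv_nonneg.2 hpos.le)]
          calc ε k * ((ε k * M')⁻¹ * ‖φ p‖) ≤ ε k * ((ε k * M')⁻¹ * M') := by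
                gcongr
                exact hM2 p
            _ = 1 := by field_simp
        have h3 := hPk k _ hfld
        rw [int_dv_smul _ hφ] at h3
        rwa [inv_mul_le_iff₀ hpos] at h3
      have hlim2 : Tendsto (fun k => ε (ψ k) * M' * P) atTop (𝓝 0) := by
        have := ((hlim.comp hψ.tendsto_atTop).mul_const M').mul_const P
        simpa [Function.comp_def] using this
      exact le_of_tendsto_of_tendsto' (Pool.Agent.TH416.HU.b2 _ (fun k => E (ψ k)) F0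
        (fun k => hEm _) hF0m hψl φ hφ hcs) hlim2 (fun k => hk (ψ k))
    intro φ hφ hcs hsub hx
    apply le_antisymm (key φ hφ hcs hsub hx)
    have h1 := key (fun p => (-1 : ℝ) • φ p) (cd_smul _ hφ) (cs_smul _ hcs)
      ((sub_smul' _).trans hsub) (fun p => xc_smul _ (hx p))
    rw [int_dv_smul _ hφ] at h1
    linarith
  obtain ⟨A', hAm', hA'⟩ := Pool.Agent.TH89.HU.b4 _ (Bo κ) ho hc hb F0 hF0m hF0s hdiv
  set A := A' ∩ RR with hAdef
  have hAm : MeasurableSet A := hAm'.inter isOpen_RR.measurableSet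
  have hAR : A ⊆ RR := inter_subset_right
  have hA : volume (symmDiff F0 (cylO (Bo κ) A)) = 0 := by rw [hAdef, cylO_inter]; exact hA'
  have hcm : MeasurableSet (cylO (Bo κ) A) := meas_cylO ho hAm
  have hcs : cylO (Bo κ) A ⊆ Bo κ := fun p hp => hp.1
  have hT : Tendsto (fun k => volume (symmDiff (E (ψ k)) (cylO (Bo κ) A))) atTop (𝓝 0) :=
    tendsto_of_tendsto_of_tendsto_of_le_of_le tendsto_const_nhds hψl (fun _ => zero_le)
      (fun k => symm_mono hA)
  have hV := real_tendsto hb (fun k => hEs (ψ k)) hcs (fun k => hEm (ψ k)) hcm hT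
  refine ⟨A, ψ, hAm, hAR, ?_, ?_, hψ, hT⟩
  · have h1 : ∀ k, volume.real (E (ψ k)) = ma κ RR := by
      intro k
      have h2 := volr_cylO hκ0 hκ isOpen_RR.measurableSet (subset_refl RR)
      rw [cylO_RR] at h2
      rw [Measure.real, hEv, ENNReal.toReal_div, ENNReal.toReal_ofNat]
      change volume.real (Bo κ) / 2 = _
      rw [h2]
      ring
    simp_rw [h1] at hV
    have h2 := tendsto_nhds_unique hV tendsto_const_nhds
    rw [volr_cylO hκ0 hκ hAm hAR] at h2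
    linarith
  · apply per_low hκ0 hκ hAm
    intro φ hφ hy
    have hk : ∀ k, ∫ x in E (ψ k), dv φ x ≤ 2 * C := by
      intro k
      exact hPk (ψ k) φ ⟨hφ.cd, hφ.cs, hφ.sub, fun x => by
          have h2 := hφ.bd x
          rw [sc_of_yc _ _ (hy x)] at h2 ⊢
          exact h2⟩
    exact le_of_tendsto' (Pool.Agent.TH416.HU.b2 _ (fun k => E (ψ k)) (cylO (Bo κ) A)
      (fun k => hEm _) hcm hT φ hφ.cd hφ.cs) hk

end Pool.Agent.R224.HV
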