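import Pool.Agent.R224.HV.Body
import Pool.Agent.TH554.HU.A3

/-!
# `x`-fields on the body bound the weighted perimeter of the base
-/

set_option autoImplicit false

open MeasureTheory Set Metric Filter Topology
open scoped ENNReal Real

noncomputable section

namespace Pool.Agent.R224.HV

open Pool.Agent.TH304.MI Pool.Agent.TH703.HU Pool.Agent.TH959.MI
open Pool.Agent.TH73.MI

/-! ### Cut-off functions -/

theorem exists_chi (κ : ℝ) : ∃ χ : ℕ → ℂ × (Fin 1 → ℝ) → ℝ,
    (∀ j, ContDiff ℝ 1 (χ j)) ∧ (∀ j, HasCompactSupport (χ j)) ∧ (∀ j, tsupport (χ j) ⊆ UU κ) ∧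
    (∀ j q, 0 ≤ χ j q) ∧ (∀ j q, χ j q ≤ 1) ∧ (∀ q, Monotone fun j => χ j q) ∧
    ∀ q, Tendsto (fun j => χ j q) atTop (𝓝 ((UU κ).indicator (fun _ => (1 : ℝ)) q)) := by
  obtain ⟨f, hf1, hf2, hf3⟩ := (isOpen_UU κ).exists_contDiff_support_eq (n := 1)
  have hf0 : ∀ q, 0 ≤ f q := fun q => (hf3 (mem_range_self q)).1
  have hfc : Continuous f := hf2.continuous
  set χ : ℕ → ℂ × (Fin 1 → ℝ) → ℝ := fun j q =>
    Real.smoothTransition ((j : ℝ) * f q - 1) with hχ
  have hsup : ∀ j q, χ j q ≠ 0 → 1 ≤ (j : ℝ) * f q := by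
    intro j q h
    by_contra hc
    push Not at hc
    exact h (Real.smoothTransition.zero_of_nonpos (by linarith))
  have hcl : ∀ j : ℕ, IsClosed {q | 1 ≤ (j : ℝ) * f q} := fun j =>
    isClosed_le continuous_const (continuous_const.mul hfc)
  have hts : ∀ j, tsupport (χ j) ⊆ {q | 1 ≤ (j : ℝ) * f q} := fun j =>
    closure_minimal (hsup j) (hcl j)
  have hU : ∀ (j : ℕ) q, 1 ≤ (j : ℝ) * f q → q ∈ UU κ := by
    intro j q h
    rw [← hf1, Function.mem_support]
    intro h0
    rw [h0, mul_zero] at h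
    linarith
  have htU : ∀ j, tsupport (χ j) ⊆ UU κ := fun j q hq => hU j q (hts j hq)
  have hK : IsCompact (closedBall (0 : ℂ) 4 ×ˢ closedBall (0 : Fin 1 → ℝ) 1) :=
    (isCompact_closedBall _ _).prod (isCompact_closedBall _ _)
  refine ⟨χ, fun j => ?_, fun j => ?_, htU, fun j q => Real.smoothTransition.nonneg _,
    fun j q => Real.smoothTransition.le_one _, fun q => ?_, fun q => ?_⟩
  · exact Real.smoothTransition.contDiff.comp ((contDiff_const.mul hf2).sub contDiff_const)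
  · exact hK.of_isClosed_subset (isClosed_tsupport _) ((htU j).trans (UU_sub κ))
  · intro i j hij
    apply Real.smoothTransition.monotone
    have h1 : (i : ℝ) ≤ j := by exact_mod_cast hij
    have := mul_le_mul_of_nonneg_right h1 (hf0 q)
    linarith
  · by_cases hq : q ∈ UU κ
    · rw [indicator_of_mem hq]
      have hpos : 0 < f q := by
        have : f q ≠ 0 := by
          rw [← hf1] at hq
          exact hq
        exact lt_of_le_of_ne (hf0 q) this.symm
      have h1 : Tendsto (fun j : ℕ => (j : ℝ) * f q - 1) atTop atTop :=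
        tendsto_atTop_add_const_right _ _ (tendsto_natCast_atTop_atTop.atTop_mul_const hpos)
      have h2 : (fun j => χ j q) =ᶠ[atTop] fun _ => 1 := by
        filter_upwards [h1.eventually_ge_atTop 1] with j hj
        exact Real.smoothTransition.one_of_one_le hj
      exact tendsto_const_nhds.congr' h2.symm
    · rw [indicator_of_notMem hq]
      have h0 : f q = 0 := by
        rw [← hf1, Function.mem_support, not_not] at hq
        exact hq
      have h1 : (fun j => χ j q) = fun _ => 0 := by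
        funext j
        simp only [hχ]
        rw [h0, mul_zero]
        exact Real.smoothTransition.zero_of_nonpos (by norm_num)
      rw [h1]
      exact tendsto_const_nhds

theorem exists_cut {κ : ℝ} (hκ0 : 0 ≤ κ) (hκ : κ ≤ 1 / 32) {K : Set ℂ} (hK : IsCompact K)
    (hK0 : K ⊆ RR) {δ : ℝ}
    (hδ : 0 < δ) : ∃ χ : ℂ × (Fin 1 → ℝ) → ℝ, ContDiff ℝ 1 χ ∧ HasCompactSupport χ ∧
      tsupport χ ⊆ UU κ ∧ (∀ q, 0 ≤ χ q) ∧ (∀ q, χ q ≤ 1) ∧
      ∀ x ∈ K, 2 * ff κ x / (1 + δ) ≤ ∫ y, χ (x, y) := by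
  obtain ⟨χ, h1, h2, h3, h4, h5, h6, h7⟩ := exists_chi κ
  have hcont : ∀ j, Continuous fun x => ∫ y, χ j (x, y) := fun j =>
    Pool.Agent.TH554.HU.continuous_marg (h1 j).continuous (h2 j)
  have hint : ∀ j x, Integrable fun y => χ j (x, y) := fun j x =>
    ((h1 j).continuous.comp (Continuous.prodMk_right x)).integrable_of_hasCompactSupport
      (slice_hcs (h2 j) x)
  have hpos : ∀ x ∈ K, 0 < 2 * ff κ x := fun x hx => by
    have := ff_pos hκ0 hκ (hK0 hx)
    linarith
  have hlim : ∀ x ∈ K, Tendsto (fun j => ∫ y, χ j (x, y)) atTop (𝓝 (2 * ff κ x)) := by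
    intro x hx
    have hlim2 : ∫ y, (fib κ x).indicator (fun _ => (1 : ℝ)) y = 2 * ff κ x := by
      rw [integral_indicator (fib_meas κ x), setIntegral_const, smul_eq_mul, mul_one,
        real_fib (by have := hpos x hx; linarith)]
    rw [← hlim2]
    refine tendsto_integral_of_dominated_convergence ((fib κ x).indicator fun _ => (1 : ℝ))
      (fun j => (hint j x).aestronglyMeasurable) ?_ ?_ ?_
    · rw [integrable_indicator_iff (fib_meas κ x)]
      refine integrableOn_const ?_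
      rw [vol_fib]
      exact ENNReal.ofReal_ne_top
    · intro j
      refine Eventually.of_forall fun y => ?_
      rw [Real.norm_of_nonneg (h4 j _)]
      by_cases hy : y ∈ fib κ x
      · rw [indicator_of_mem hy]
        exact h5 j _
      · rw [indicator_of_notMem hy]
        have : χ j (x, y) = 0 := by
          by_contra h
          exact hy (h3 j (subset_tsupport _ h)).2
        rw [this]
    · refine Eventually.of_forall fun y => ?_
      have := h7 (x, y)
      convert this using 2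
      by_cases hy : y ∈ fib κ x
      · rw [indicator_of_mem hy, indicator_of_mem (show (x, y) ∈ UU κ from ⟨hK0 hx, hy⟩)]
      · rw [indicator_of_notMem hy, indicator_of_notMem (show (x, y) ∉ UU κ from fun h => hy h.2)]
  have hdini : TendstoUniformlyOn (fun j x => (∫ y, χ j (x, y)) / (2 * ff κ x)) (fun _ => 1)
      atTop K := by
    refine Monotone.tendstoUniformlyOn_of_forall_tendsto hK (fun j => ?_) (fun x hx => ?_)
      continuousOn_const (fun x hx => ?_)
    · refine (hcont j).continuousOn.div (continuous_const.mul (continuous_ff κ)).continuousOn ?_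
      intro x hx
      exact (hpos x hx).ne'
    · intro i j hij
      refine div_le_div_of_nonneg_right ?_ (hpos x hx).le
      exact integral_mono (hint i x) (hint j x) fun y => h6 (x, y) hij
    · have := (hlim x hx).div_const (2 * ff κ x)
      rwa [div_self (hpos x hx).ne'] at this
  rw [Metric.tendstoUniformlyOn_iff] at hdini
  obtain ⟨j, hj⟩ := (hdini (δ / (1 + δ)) (by positivity)).exists
  refine ⟨χ j, h1 j, h2 j, h3 j, h4 j, h5 j, fun x hx => ?_⟩
  have h8 := hj x hx
  have hg := hpos x hx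
  rw [Real.dist_eq, abs_lt] at h8
  have h9 : 1 / (1 + δ) ≤ (∫ y, χ j (x, y)) / (2 * ff κ x) := by
    have : 1 / (1 + δ) = 1 - δ / (1 + δ) := by
      field_simp
      ring
    linarith [h8.2]
  rw [le_div_iff₀ hg] at h9
  calc 2 * ff κ x / (1 + δ) = 1 / (1 + δ) * (2 * ff κ x) := by ring
    _ ≤ _ := h9

/-! ### The field -/

section field

variable {κ : ℝ} {χ : ℂ × (Fin 1 → ℝ) → ℝ} {Y : ℂ → ℂ} {δ : ℝ}

/-- the mass of the fibres -/
def qq (χ : ℂ × (Fin 1 → ℝ) → ℝ) (x : ℂ) : ℝ := ∫ y, χ (x, y)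

/-- the field -/
def FF (χ : ℂ × (Fin 1 → ℝ) → ℝ) (δ : ℝ) (Y : ℂ → ℂ)
    (q : ℂ × (Fin 1 → ℝ)) : ℂ := (χ q * (2 / ((1 + δ) * qq χ q.1))) • Y q.1

theorem tsupport_FF1 : tsupport (FF χ δ Y) ⊆ {q | q.1 ∈ tsupport Y} := by
  refine closure_minimal ?_ ((isClosed_tsupport Y).preimage continuous_fst)
  intro q hq
  refine subset_tsupport _ fun h => hq ?_
  unfold FF
  rw [h, smul_zero]

theorem tsupport_FF2 : tsupport (FF χ δ Y) ⊆ tsupport χ := by
  refine closure_mono ?_
  intro q hq h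
  apply hq
  unfold FF
  rw [h, zero_mul, zero_smul]

theorem qq_pos (hκ0 : 0 ≤ κ) (hκ : κ ≤ 1 / 32) (hδ : 0 < δ) (hY : TR κ Y)
    (hq : ∀ x ∈ tsupport Y, 2 * ff κ x / (1 + δ) ≤ ∫ y, χ (x, y)) {x : ℂ}
    (hx : x ∈ tsupport Y) : 0 < qq χ x := by
  refine lt_of_lt_of_le ?_ (hq x hx)
  have h1 : 0 < ff κ x := ff_pos hκ0 hκ (hY.sub hx)
  positivity

theorem contDiff_FF (hκ0 : 0 ≤ κ) (hκ : κ ≤ 1 / 32) (h1 : ContDiff ℝ 1 χ)
    (h2 : HasCompactSupport χ) (hδ : 0 < δ)
    (hY : TR κ Y)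
    (hq : ∀ x ∈ tsupport Y, 2 * ff κ x / (1 + δ) ≤ ∫ y, χ (x, y)) :
    ContDiff ℝ 1 (FF χ δ Y) := by
  rw [contDiff_iff_contDiffAt]
  intro q
  by_cases h : q ∈ tsupport (FF χ δ Y)
  · have h3 := tsupport_FF1 h
    have h4 := qq_pos hκ0 hκ hδ hY hq h3
    have h5 : ContDiff ℝ 1 (qq χ) := Pool.Agent.TH554.HU.contDiff_marg h1 h2
    have h6 : ContDiffAt ℝ 1 (fun q : ℂ × (Fin 1 → ℝ) => (1 + δ) * qq χ q.1) q :=
      contDiffAt_const.mul (h5.comp contDiff_fst).contDiffAt
    have h7 : (1 + δ) * qq χ q.1 ≠ 0 := by positivity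
    unfold FF
    exact (h1.contDiffAt.mul (contDiffAt_const.div h6 h7)).smul
      (hY.cd.comp contDiff_fst).contDiffAt
  · rw [notMem_tsupport_iff_eventuallyEq] at h
    exact (contDiffAt_const (c := (0 : ℂ))).congr_of_eventuallyEq h

theorem norm_FF_le (hκ0 : 0 ≤ κ) (hκ : κ ≤ 1 / 32) (h4 : ∀ q, 0 ≤ χ q) (h5 : ∀ q, χ q ≤ 1)
    (hδ : 0 < δ) (hY : TR κ Y)
    (hq : ∀ x ∈ tsupport Y, 2 * ff κ x / (1 + δ) ≤ ∫ y, χ (x, y))
    (q : ℂ × (Fin 1 → ℝ)) : ‖FF χ δ Y q‖ ≤ 1 := by
  by_cases hz : Y q.1 = 0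
  · unfold FF
    rw [hz, smul_zero, norm_zero]
    exact zero_le_one
  · have h1 : q.1 ∈ tsupport Y := subset_tsupport _ hz
    have h2 := qq_pos hκ0 hκ hδ hY hq h1
    have h3 := hq _ h1
    have h7 : 0 ≤ 2 / ((1 + δ) * qq χ q.1) := by positivity
    unfold FF
    rw [norm_smul, Real.norm_of_nonneg (mul_nonneg (h4 q) h7)]
    calc χ q * (2 / ((1 + δ) * qq χ q.1)) * ‖Y q.1‖
        ≤ 1 * (2 / ((1 + δ) * qq χ q.1)) * ff κ q.1 := by
          refine mul_le_mul (mul_le_mul_of_nonneg_right (h5 q) h7) (hY.le _ (hY.sub h1))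
            (norm_nonneg _) ?_
          rw [one_mul]
          exact h7
      _ = (2 * ff κ q.1 / (1 + δ)) / qq χ q.1 := by
          field_simp
      _ ≤ 1 := by
          rw [div_le_one h2]
          exact h3

theorem integral_FF (hκ0 : 0 ≤ κ) (hκ : κ ≤ 1 / 32) (hδ : 0 < δ) (hY : TR κ Y)
    (hq : ∀ x ∈ tsupport Y, 2 * ff κ x / (1 + δ) ≤ ∫ y, χ (x, y)) (x : ℂ) :
    ∫ y, FF χ δ Y (x, y) = (2 / (1 + δ)) • Y x := by
  by_cases hz : Y x = 0
  · simp [FF, hz]
  · have h1 : x ∈ tsupport Y := subset_tsupport _ hz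
    have h2 := qq_pos hκ0 hκ hδ hY hq h1
    simp only [FF]
    rw [integral_smul_const, integral_mul_const]
    congr 1
    change qq χ x * (2 / ((1 + δ) * qq χ x)) = _
    field_simp

end field

/-- **Planar perimeter from horizontal fields on the body.** -/
theorem per_low {κ : ℝ} (hκ0 : 0 ≤ κ) (hκ : κ ≤ 1 / 32) {A : Set ℂ} (hA : MeasurableSet A)
    {C : ℝ} (h : ∀ φ : PP 1 → PP 1, Fld 1 (Bo κ) φ → (∀ p, yc (φ p) = 0) →
      ∫ p in cylO (Bo κ) A, dv φ p ≤ 2 * C) : PR κ A C := by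
  intro Y hY
  have key : ∀ δ : ℝ, 0 < δ → ∫ x in A, dv2 Y x ≤ (1 + δ) * C := by
    intro δ hδ
    obtain ⟨χ, h1, h2, h3, h4, h5, h6⟩ := exists_cut hκ0 hκ hY.cs.isCompact hY.sub hδ
    have hF := contDiff_FF hκ0 hκ h1 h2 hδ hY h6
    have hc : HasCompactSupport (FF χ δ Y) :=
      h2.isCompact.of_isClosed_subset (isClosed_tsupport _) tsupport_FF2
    have hinj : Function.Injective (T 1) := by
      obtain ⟨e, he, -⟩ := t_fub 1
      intro p q hpq
      have : e p = e q := by rw [he, he]; exact hpq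
      exact e.injective this
    have hemb : IsClosedEmbedding (T 1) := by
      refine (LinearMap.isClosedEmbedding_of_injective (f := (T 1).toLinearMap) ?_)
      rw [LinearMap.ker_eq_bot]
      exact hinj
    have hcomp : HasCompactSupport (fun p => FF χ δ Y (T 1 p)) :=
      hc.comp_isClosedEmbedding (g := T 1) hemb
    have hs : tsupport (fun p => J 1 (FF χ δ Y (T 1 p))) ⊆ Bo κ := by
      have hcl : IsClosed {p : PP 1 | T 1 p ∈ tsupport χ} :=
        (isClosed_tsupport χ).preimage (T 1).continuous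
      refine (closure_minimal ?_ hcl).trans ?_
      · intro p hp
        refine tsupport_FF2 (δ := δ) (Y := Y) (subset_tsupport _ fun h0 => hp ?_)
        dsimp only
        rw [h0, map_zero]
      · intro p hp
        rw [mem_Bo']
        exact h3 hp
    have h7 := h (fun p => J 1 (FF χ δ Y (T 1 p))) ⟨?_, ?_, hs, ?_⟩ ?_
    · rw [Pool.Agent.TH554.HU.integral_cylO hF hc hs hA] at h7
      have h8 : (fun x => ∫ y, FF χ δ Y (x, y)) = fun x => (2 / (1 + δ)) • Y x :=
        funext fun x => integral_FF hκ0 hκ hδ hY h6 x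
      rw [h8] at h7
      simp_rw [Lam_fderiv hY.cd] at h7
      rw [integral_const_mul] at h7
      have h10 : 2 * (∫ x in A, dv2 Y x) ≤ 2 * ((1 + δ) * C) := by
        have h11 := mul_le_mul_of_nonneg_left h7 (by positivity : (0 : ℝ) ≤ 1 + δ)
        calc 2 * (∫ x in A, dv2 Y x) = (1 + δ) * (2 / (1 + δ) * ∫ x in A, dv2 Y x) := by
              field_simp
          _ ≤ (1 + δ) * (2 * C) := h11
          _ = _ := by ring
      exact le_of_mul_le_mul_left h10 two_pos
    · exact (J 1).contDiff.comp (hF.comp (T 1).contDiff)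
    · exact hcomp.comp_left (g := J 1) (map_zero _)
    · intro p
      rw [sc_one, norm_J]
      exact norm_FF_le hκ0 hκ h4 h5 hδ hY h6 _
    · intro p
      funext i
      exact J_succ _ i
  have hlim : Tendsto (fun n : ℕ => (1 + 1 / ((n : ℝ) + 1)) * C) atTop (𝓝 ((1 + 0) * C)) :=
    (tendsto_one_div_add_atTop_nhds_zero_nat.const_add 1).mul_const C
  rw [add_zero, one_mul] at hlim
  exact ge_of_tendsto' hlim fun n => key _ (by positivity)

end Pool.Agent.R224.HV
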