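import Pool.Agent.R224.HV.Ev2

/-!
# The planar problem, first stage
-/

set_option autoImplicit false

open MeasureTheory Set Metric Filter Topology
open scoped ENNReal Real

noncomputable section

namespace Pool.Agent.R224.HV

open Pool.Agent.TH304.MI Pool.Agent.TH703.HU Pool.Agent.TH742.HU Pool.Agent.TH663.HU
open Pool.Agent.R224.Sl

/-! ## Fubini -/

lemma mk_meas1 (y : ℝ) : Measurable fun x : ℝ => (⟨x, y⟩ : ℂ) :=
  mk_meas.comp measurable_prodMk_right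

lemma mk_meas2 (x : ℝ) : Measurable fun y : ℝ => (⟨x, y⟩ : ℂ) :=
  mk_meas.comp measurable_prodMk_left

lemma slice1 {N : Set ℂ} (hN : MeasurableSet N) (y : ℝ) : MeasurableSet {x : ℝ | (⟨x, y⟩ : ℂ) ∈ N} :=
  mk_meas1 y hN

lemma slice2 {N : Set ℂ} (hN : MeasurableSet N) (x : ℝ) : MeasurableSet {y : ℝ | (⟨x, y⟩ : ℂ) ∈ N} :=
  mk_meas2 x hN

lemma vol1 {N : Set ℂ} (hN : MeasurableSet N) :
    volume N = ∫⁻ y : ℝ, volume {x : ℝ | (⟨x, y⟩ : ℂ) ∈ N} := by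
  rw [← lintegral_indicator_one hN, fub1 (measurable_one.indicator hN)]
  refine lintegral_congr fun y => ?_
  rw [← lintegral_indicator_one (slice1 hN y)]
  rfl

lemma vol2 {N : Set ℂ} (hN : MeasurableSet N) :
    volume N = ∫⁻ x : ℝ, volume {y : ℝ | (⟨x, y⟩ : ℂ) ∈ N} := by
  rw [← lintegral_indicator_one hN, fub2 (measurable_one.indicator hN)]
  refine lintegral_congr fun x => ?_
  rw [← lintegral_indicator_one (slice2 hN x)]
  rfl

lemma meas_slice1 {N : Set ℂ} (hN : MeasurableSet N) :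
    Measurable fun y : ℝ => volume {x : ℝ | (⟨x, y⟩ : ℂ) ∈ N} :=
  measurable_measure_prodMk_right (mk_meas hN)

lemma meas_slice2 {N : Set ℂ} (hN : MeasurableSet N) :
    Measurable fun x : ℝ => volume {y : ℝ | (⟨x, y⟩ : ℂ) ∈ N} :=
  measurable_measure_prodMk_left (mk_meas hN)

lemma null1 {N : Set ℂ} (hN : MeasurableSet N) :
    volume N = 0 ↔ ∀ᵐ y : ℝ, volume {x : ℝ | (⟨x, y⟩ : ℂ) ∈ N} = 0 := by
  rw [vol1 hN, lintegral_eq_zero_iff (meas_slice1 hN)]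
  rfl

lemma null2 {N : Set ℂ} (hN : MeasurableSet N) :
    volume N = 0 ↔ ∀ᵐ x : ℝ, volume {y : ℝ | (⟨x, y⟩ : ℂ) ∈ N} = 0 := by
  rw [vol2 hN, lintegral_eq_zero_iff (meas_slice2 hN)]
  rfl

/-! ## The weight -/

/-- positive part of the weight -/
def fp (κ : ℝ) (z : ℂ) : ℝ := max 0 (ff κ z)

lemma fp_cont (κ : ℝ) : Continuous (fp κ) := continuous_const.max (continuous_ff κ)

lemma fp_nonneg (κ : ℝ) (z : ℂ) : 0 ≤ fp κ z := le_max_left _ _

lemma fp_eq {κ : ℝ} (hκ0 : 0 ≤ κ) (hκ : κ ≤ 1 / 32) {z : ℂ} (hz : z ∈ RR) : fp κ z = ff κ z :=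
  max_eq_right (ff_pos hκ0 hκ hz).le

lemma mem_RR {x y : ℝ} : (⟨x, y⟩ : ℂ) ∈ RR ↔ x ∈ Ioo (-1 : ℝ) 1 ∧ y ∈ Ioo (-3 : ℝ) 3 := by
  unfold RR
  simp only [mem_ofPred_eq, mem_Ioo, abs_lt]

/-- horizontal variation -/
def vH (κ : ℝ) (A : Set ℂ) (y : ℝ) : ℝ≥0∞ := Ev 1 (fun t => fp κ ⟨t, y⟩) {t | (⟨t, y⟩ : ℂ) ∈ A}

/-- vertical variation -/
def vV (κ : ℝ) (A : Set ℂ) (x : ℝ) : ℝ≥0∞ := Ev 3 (fun t => fp κ ⟨x, t⟩) {t | (⟨x, t⟩ : ℂ) ∈ A}

lemma vH_meas (κ : ℝ) {A : Set ℂ} (hA : MeasurableSet A) : Measurable (vH κ A) :=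
  Ev_meas1 (fp_cont κ) hA

lemma vV_meas (κ : ℝ) {A : Set ℂ} (hA : MeasurableSet A) : Measurable (vV κ A) :=
  Ev_meas2 (fp_cont κ) hA

/-- total horizontal variation -/
def HH (κ : ℝ) (A : Set ℂ) : ℝ≥0∞ := ∫⁻ y in Ioo (-3 : ℝ) 3, vH κ A y

/-- total vertical variation -/
def VV (κ : ℝ) (A : Set ℂ) : ℝ≥0∞ := ∫⁻ x in Ioo (-1 : ℝ) 1, vV κ A x

lemma comb {κ : ℝ} (hκ0 : 0 ≤ κ) (hκ : κ ≤ 1 / 32) {A : Set ℂ} (hA : MeasurableSet A) {P : ℝ}
    (hP : PR κ A P) {a b : ℝ} (ha : 0 ≤ a) (hb : 0 ≤ b) (hab : a ^ 2 + b ^ 2 ≤ 1) :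
    ENNReal.ofReal a * HH κ A + ENNReal.ofReal b * VV κ A ≤ ENNReal.ofReal P := by
  have h := slR hκ0 hκ (u₁ := fun z => a * fp κ z) (u₂ := fun z => b * fp κ z)
    (continuous_const.mul (fp_cont κ)) (continuous_const.mul (fp_cont κ))
    (fun z => mul_nonneg ha (fp_nonneg κ z)) (fun z => mul_nonneg hb (fp_nonneg κ z))
    (fun z hz => by
      rw [fp_eq hκ0 hκ hz]
      have := sq_nonneg (ff κ z)
      nlinarith) hA hP
  refine le_trans (le_of_eq ?_) h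
  unfold HH VV
  congr 1
  · rw [← lintegral_const_mul _ (vH_meas κ hA)]
    refine lintegral_congr fun y => ?_
    exact (Ev_smul _ _ _ ha).symm
  · rw [← lintegral_const_mul _ (vV_meas κ hA)]
    refine lintegral_congr fun y => ?_
    exact (Ev_smul _ _ _ hb).symm

/-! ## Volumes -/

lemma vol_RR : volume RR = ENNReal.ofReal 12 := by
  rw [vol2 isOpen_RR.measurableSet]
  have h : ∀ x : ℝ, volume {y : ℝ | (⟨x, y⟩ : ℂ) ∈ RR} =
      (Ioo (-1 : ℝ) 1).indicator (fun _ => ENNReal.ofReal 6) x := by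
    intro x
    by_cases hx : x ∈ Ioo (-1 : ℝ) 1
    · rw [indicator_of_mem hx]
      have : {y : ℝ | (⟨x, y⟩ : ℂ) ∈ RR} = Ioo (-3) 3 := by
        ext y; simp only [mem_ofPred_eq, mem_RR, hx, true_and]
      rw [this, Real.volume_Ioo]
      norm_num
    · rw [indicator_of_notMem hx]
      have : {y : ℝ | (⟨x, y⟩ : ℂ) ∈ RR} = ∅ := by
        ext y; simp only [mem_ofPred_eq, mem_RR, hx, false_and, mem_empty_iff_false]
      rw [this, measure_empty]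
  simp_rw [h]
  rw [lintegral_indicator measurableSet_Ioo, setLIntegral_const, Real.volume_Ioo,
    ← ENNReal.ofReal_mul (by norm_num)]
  norm_num

lemma vol_RR_lt : volume RR < ⊤ := by rw [vol_RR]; exact ENNReal.ofReal_lt_top

lemma ff_int {κ : ℝ} {B : Set ℂ} (hB : B ⊆ RR) : IntegrableOn (ff κ) B := by
  have h1 : IntegrableOn (ff κ) (closedBall (0 : ℂ) 4) :=
    (continuous_ff κ).continuousOn.integrableOn_compact (isCompact_closedBall _ _)
  exact h1.mono_set (hB.trans RR_sub_ball)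

lemma ma_le {κ : ℝ} {B : Set ℂ} (hB : B ⊆ RR) (hBm : MeasurableSet B) {v : ℝ} (hv : 0 ≤ v)
    (h : volume B ≤ ENNReal.ofReal v) : ma κ B ≤ v := by
  unfold ma
  have h1 : ∫ z in B, ff κ z ≤ ∫ _z in B, (1 : ℝ) := by
    refine setIntegral_mono_on (ff_int hB) ?_ hBm fun z _ => ff_le_one z
    exact integrableOn_const ((measure_mono hB).trans_lt vol_RR_lt).ne
  refine h1.trans ?_
  rw [setIntegral_const, smul_eq_mul, mul_one, Measure.real]
  exact ENNReal.toReal_le_of_le_ofReal hv h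

lemma ma_ge {κ : ℝ} (hκ0 : 0 ≤ κ) (hκ : κ ≤ 1 / 32) {B : Set ℂ} (hB : B ⊆ RR)
    (hBm : MeasurableSet B) {v : ℝ}
    (h : ENNReal.ofReal v ≤ volume B) : 7 / 8 * v ≤ ma κ B := by
  unfold ma
  have hfin : volume B ≠ ⊤ := ((measure_mono hB).trans_lt vol_RR_lt).ne
  have h1 : ∫ _z in B, (7 / 8 : ℝ) ≤ ∫ z in B, ff κ z := by
    refine setIntegral_mono_on ?_ (ff_int hB) hBm fun z hz => ff_ge hκ0 hκ (hB hz)
    exact integrableOn_const hfin
  refine le_trans ?_ h1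
  rw [setIntegral_const, smul_eq_mul, Measure.real]
  have h2 : v ≤ (volume B).toReal := by
    have := ENNReal.toReal_mono hfin h
    rw [ENNReal.toReal_ofReal'] at this
    exact (le_max_left v 0).trans this
  linarith

lemma ma_diff {κ : ℝ} {A B : Set ℂ} (hB : B ⊆ RR) (hA : MeasurableSet A) (hAB : A ⊆ B) :
    ma κ (B \ A) = ma κ B - ma κ A := setIntegral_sdiff hA (ff_int hB) hAB

end Pool.Agent.R224.HV
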