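import Pool.Agent.R224.HV.Pl1

/-!
# The planar problem: almost all slices are nearly the same half-line
-/

set_option autoImplicit false

open MeasureTheory Set Metric Filter Topology
open scoped ENNReal Real

noncomputable section

namespace Pool.Agent.R224.HV

open Pool.Agent.TH304.MI Pool.Agent.TH703.HU Pool.Agent.TH742.HU Pool.Agent.TH663.HU
open Pool.Agent.R224.Sl

/-- The weighted length of the horizontal axis. -/
def M0 : ℝ := ∫ x in (-1 : ℝ)..1, ph x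

lemma ph_ii (a b : ℝ) : IntervalIntegrable ph volume a b := continuous_ph.intervalIntegrable _ _

lemma M0_le : M0 ≤ 2 := by
  unfold M0
  have h : ∫ x in (-1 : ℝ)..1, ph x ≤ ∫ _x in (-1 : ℝ)..1, (1 : ℝ) :=
    intervalIntegral.integral_mono_on (by norm_num) (ph_ii _ _) intervalIntegrable_const
      fun x _ => ph_le_one x
  rw [intervalIntegral.integral_const] at h
  norm_num at h
  exact h

lemma M0_ge : 57 / 32 ≤ M0 := by
  unfold M0
  have h : ∫ _x in (-1 : ℝ)..1, (57 / 64 : ℝ) ≤ ∫ x in (-1 : ℝ)..1, ph x :=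
    intervalIntegral.integral_mono_on (by norm_num) intervalIntegrable_const (ph_ii _ _)
      fun x hx => ph_ge (abs_le.2 hx)
  rw [intervalIntegral.integral_const] at h
  norm_num at h
  exact h

lemma PR_nonneg {κ : ℝ} (hκ0 : 0 ≤ κ) (hκ : κ ≤ 1 / 32) {A : Set ℂ} {P : ℝ} (hP : PR κ A P) :
    0 ≤ P := by
  have h2 := hP (fun _ => (0 : ℂ)) ⟨contDiff_const, HasCompactSupport.zero, by
    intro x hx
    have : tsupport (fun _ : ℂ => (0 : ℂ)) = ∅ := by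
      rw [tsupport_eq_empty_iff]; rfl
    rw [this] at hx; exact hx.elim, by
    intro x hx; simpa using (ff_pos hκ0 hκ hx).le⟩
  have h3 : ∀ x, dv2 (fun _ => (0 : ℂ)) x = 0 := by
    intro x; unfold dv2; simp
  simp_rw [h3] at h2
  simpa using h2

/-- The standing hypotheses (`κ = ρ ^ 2`). -/
structure Hyp (ρ : ℝ) (A : Set ℂ) (P : ℝ) : Prop where
  ρ0 : 0 < ρ
  ρ1 : ρ ≤ 1 / 1000
  meas : MeasurableSet A
  sub : A ⊆ RR
  half : ma (ρ ^ 2) A = ma (ρ ^ 2) RR / 2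
  per : PR (ρ ^ 2) A P
  le : P ≤ M0

namespace Hyp

variable {ρ P : ℝ} {A : Set ℂ}

lemma κ0 (h : Hyp ρ A P) : 0 ≤ ρ ^ 2 := by have := h.ρ0; positivity

lemma κle (h : Hyp ρ A P) : ρ ^ 2 ≤ 1 / 1000000 := by
  have h0 := h.ρ0
  have h1 := h.ρ1
  nlinarith

lemma κ1 (h : Hyp ρ A P) : ρ ^ 2 ≤ 1 / 32 := h.κle.trans (by norm_num)

lemma P0 (h : Hyp ρ A P) : 0 ≤ P := PR_nonneg h.κ0 h.κ1 h.per

end Hyp

/-- The levels with large horizontal variation. -/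
def Tb (κ : ℝ) (A : Set ℂ) : Set ℝ := {y | y ∈ Ioo (-3 : ℝ) 3 ∧ ENNReal.ofReal (7 / 8) ≤ vH κ A y}

lemma Tb_meas (κ : ℝ) {A : Set ℂ} (hA : MeasurableSet A) : MeasurableSet (Tb κ A) :=
  measurableSet_Ioo.inter (measurableSet_le measurable_const (vH_meas κ hA))

lemma Tb_vol (κ : ℝ) {A : Set ℂ} (hA : MeasurableSet A) {h : ℝ} (hh : HH κ A ≤ ENNReal.ofReal h) :
    volume (Tb κ A) ≤ ENNReal.ofReal (8 / 7 * h) := by
  have h1 := mul_meas_ge_le_lintegral (μ := volume.restrict (Ioo (-3 : ℝ) 3)) (vH_meas κ hA)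
    (ENNReal.ofReal (7 / 8))
  rw [Measure.restrict_apply (measurableSet_le measurable_const (vH_meas κ hA))] at h1
  have h2 : {x | ENNReal.ofReal (7 / 8) ≤ vH κ A x} ∩ Ioo (-3 : ℝ) 3 = Tb κ A := by
    ext y; unfold Tb; simp only [mem_inter_iff, mem_ofPred_eq]; tauto
  rw [h2] at h1
  have h3 : ENNReal.ofReal (8 / 7) * (ENNReal.ofReal (7 / 8) * volume (Tb κ A)) ≤
      ENNReal.ofReal (8 / 7) * ENNReal.ofReal h := by
    gcongr
    exact h1.trans hh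
  rw [← mul_assoc, ← ENNReal.ofReal_mul (by norm_num), ← ENNReal.ofReal_mul (by norm_num)] at h3
  norm_num at h3
  rw [ENNReal.ofReal_mul (by norm_num)]
  exact h3

lemma dich {κ : ℝ} (hκ0 : 0 ≤ κ) (hκ : κ ≤ 1 / 32) {A : Set ℂ} (hA : MeasurableSet A) {y : ℝ}
    (hy : y ∈ Ioo (-3 : ℝ) 3) (hy2 : y ∉ Tb κ A) :
    volume ({x : ℝ | (⟨x, y⟩ : ℂ) ∈ A} ∩ Ioo (-1) 1) = 0 ∨
      volume (Ioo (-1 : ℝ) 1 \ {x : ℝ | (⟨x, y⟩ : ℂ) ∈ A}) = 0 := by
  by_contra hcon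
  rw [not_or] at hcon
  apply hy2
  refine ⟨hy, ?_⟩
  refine Ev_ge1 (slice1 hA y) (a := -1) (b := 1) le_rfl le_rfl (by norm_num) (fun t ht => ?_)
    (pos_iff_ne_zero.2 hcon.1) (pos_iff_ne_zero.2 hcon.2)
  have hz : (⟨t, y⟩ : ℂ) ∈ RR := mem_RR.2 ⟨ht, hy⟩
  rw [fp_eq hκ0 hκ hz]
  exact ff_ge hκ0 hκ hz

/-- The common trace of the slices outside `Tb`. -/
lemma ae_E0 {κ : ℝ} (hκ0 : 0 ≤ κ) (hκ : κ ≤ 1 / 32) {A : Set ℂ} (hA : MeasurableSet A) :
    ∃ E0 : Set ℝ, MeasurableSet E0 ∧ ∀ᵐ x : ℝ, x ∈ Ioo (-1 : ℝ) 1 →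
      volume {y : ℝ | y ∈ Ioo (-3 : ℝ) 3 ∧ y ∉ Tb κ A ∧ ¬ ((⟨x, y⟩ : ℂ) ∈ A ↔ y ∈ E0)} = 0 := by
  set Q : Set ℂ := {z | z.re ∈ Ioo (-1 : ℝ) 1 ∧ z ∉ A} with hQ
  have hQm : MeasurableSet Q :=
    (Complex.measurable_re measurableSet_Ioo).inter hA.compl
  set E0 : Set ℝ := {y | volume {x : ℝ | (⟨x, y⟩ : ℂ) ∈ Q} = 0} with hE0
  have hE0m : MeasurableSet E0 := meas_slice1 hQm (measurableSet_singleton 0)
  refine ⟨E0, hE0m, ?_⟩
  set N : Set ℂ := {z | z.re ∈ Ioo (-1 : ℝ) 1 ∧ z.im ∈ Ioo (-3 : ℝ) 3 ∧ z.im ∉ Tb κ A ∧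
    ¬ (z ∈ A ↔ z.im ∈ E0)} with hN
  have hNm : MeasurableSet N := by
    have m1 : MeasurableSet {z : ℂ | z.im ∈ E0} := Complex.measurable_im hE0m
    have m2 : MeasurableSet {z : ℂ | z.im ∈ Tb κ A} := Complex.measurable_im (Tb_meas κ hA)
    have e : N = (Complex.re ⁻¹' Ioo (-1 : ℝ) 1) ∩ ((Complex.im ⁻¹' Ioo (-3 : ℝ) 3) ∩
        ({z : ℂ | z.im ∈ Tb κ A}ᶜ ∩ symmDiff A {z : ℂ | z.im ∈ E0})) := by
      ext z
      simp only [hN, mem_ofPred_eq, mem_inter_iff, mem_preimage, mem_compl_iff, mem_symmDiff]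
      tauto
    rw [e]
    exact (Complex.measurable_re measurableSet_Ioo).inter
      ((Complex.measurable_im measurableSet_Ioo).inter (m2.compl.inter (hA.symmDiff m1)))
  have hN0 : volume N = 0 := by
    rw [null1 hNm]
    refine Eventually.of_forall fun y => ?_
    by_cases hy : y ∈ Ioo (-3 : ℝ) 3 ∧ y ∉ Tb κ A
    swap
    · have : {x : ℝ | (⟨x, y⟩ : ℂ) ∈ N} = ∅ := by
        ext x
        simp only [hN, mem_ofPred_eq, mem_empty_iff_false, iff_false]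
        tauto
      rw [this, measure_empty]
    by_cases hyE : y ∈ E0
    · refine measure_mono_null (fun x hx => ?_) (hyE : volume {x : ℝ | (⟨x, y⟩ : ℂ) ∈ Q} = 0)
      obtain ⟨h1, h2, h3, h4⟩ := hx
      refine ⟨h1, fun h5 => h4 ⟨fun _ => hyE, fun _ => h5⟩⟩
    · have hne : volume (Ioo (-1 : ℝ) 1 \ {x : ℝ | (⟨x, y⟩ : ℂ) ∈ A}) ≠ 0 := fun h => hyE h
      have h0 := (dich hκ0 hκ hA hy.1 hy.2).resolve_right hne
      refine measure_mono_null (fun x hx => ?_) h0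
      obtain ⟨h1, h2, h3, h4⟩ := hx
      refine ⟨?_, h1⟩
      by_contra h5
      exact h4 ⟨fun h6 => absurd h6 h5, fun h6 => absurd h6 hyE⟩
  filter_upwards [(null2 hNm).1 hN0] with x hx hx1
  refine measure_mono_null (fun y hy => ?_) hx
  exact ⟨hx1, hy.1, hy.2.1, hy.2.2⟩

lemma vol_le_slices {N : Set ℂ} (hN : MeasurableSet N) (hsub : N ⊆ RR) {v : ℝ}
    (h : ∀ᵐ x : ℝ, x ∈ Ioo (-1 : ℝ) 1 → volume {y : ℝ | (⟨x, y⟩ : ℂ) ∈ N} ≤ ENNReal.ofReal v) :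
    volume N ≤ ENNReal.ofReal (2 * v) := by
  rw [vol2 hN]
  calc ∫⁻ x : ℝ, volume {y : ℝ | (⟨x, y⟩ : ℂ) ∈ N}
      ≤ ∫⁻ x : ℝ, (Ioo (-1 : ℝ) 1).indicator (fun _ => ENNReal.ofReal v) x := by
        refine lintegral_mono_ae ?_
        filter_upwards [h] with x hx
        by_cases hx1 : x ∈ Ioo (-1 : ℝ) 1
        · rw [indicator_of_mem hx1]; exact hx hx1
        · rw [indicator_of_notMem hx1]
          have : {y : ℝ | (⟨x, y⟩ : ℂ) ∈ N} = ∅ := by
            ext y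
            simp only [mem_ofPred_eq, mem_empty_iff_false, iff_false]
            exact fun h => hx1 (mem_RR.1 (hsub h)).1
          rw [this, measure_empty]
    _ = ENNReal.ofReal (2 * v) := by
        rw [lintegral_indicator measurableSet_Ioo, setLIntegral_const, Real.volume_Ioo, mul_comm,
          ← ENNReal.ofReal_mul (by norm_num)]
        norm_num

/-- Slices are not trivial. -/
lemma nontriv {ρ P : ℝ} {A : Set ℂ} (h : Hyp ρ A P) :
    ∀ᵐ x : ℝ, x ∈ Ioo (-1 : ℝ) 1 → 0 < volume ({y : ℝ | (⟨x, y⟩ : ℂ) ∈ A} ∩ Ioo (-3) 3) ∧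
      0 < volume (Ioo (-3 : ℝ) 3 \ {y : ℝ | (⟨x, y⟩ : ℂ) ∈ A}) := by
  have hA := h.meas
  set κ := ρ ^ 2 with hκ
  have c := comb h.κ0 h.κ1 hA h.per (a := 1) (b := 0) (by norm_num) le_rfl (by norm_num)
  rw [ENNReal.ofReal_one, one_mul, ENNReal.ofReal_zero, zero_mul, add_zero] at c
  have hT := Tb_vol κ hA c
  have hT2 : volume (Tb κ A) ≤ ENNReal.ofReal (16 / 7) := by
    refine hT.trans (ENNReal.ofReal_le_ofReal ?_)
    have := h.le.trans M0_le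
    linarith
  obtain ⟨E0, hE0m, hE0⟩ := ae_E0 h.κ0 h.κ1 hA
  have htot : 21 / 2 ≤ ma κ RR := by
    have := ma_ge h.κ0 h.κ1 (Subset.refl RR) isOpen_RR.measurableSet (v := 12) (by rw [vol_RR])
    linarith
  have hhalf : 21 / 4 ≤ ma κ A := by rw [h.half]; linarith
  have hhalf2 : 21 / 4 ≤ ma κ (RR \ A) := by
    rw [ma_diff (Subset.refl RR) hA h.sub, h.half]; linarith
  have side1 : ∀ᵐ x : ℝ, x ∈ Ioo (-1 : ℝ) 1 →
      0 < volume ({y : ℝ | (⟨x, y⟩ : ℂ) ∈ A} ∩ Ioo (-3) 3) := by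
    by_contra hcon
    rw [not_eventually] at hcon
    obtain ⟨x0, hx0, hx1⟩ := (Frequently.and_eventually hcon hE0).exists
    rw [Classical.not_imp] at hx0
    obtain ⟨hx0, hx2⟩ := hx0
    have hx2 : volume ({y : ℝ | (⟨x0, y⟩ : ℂ) ∈ A} ∩ Ioo (-3) 3) = 0 := by simpa using hx2
    have hx1 := hx1 hx0
    -- `E0` is null off `Tb`
    have hE : volume {y : ℝ | y ∈ Ioo (-3 : ℝ) 3 ∧ y ∉ Tb κ A ∧ y ∈ E0} = 0 := by
      refine measure_mono_null (t := {y : ℝ | y ∈ Ioo (-3 : ℝ) 3 ∧ y ∉ Tb κ A ∧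
        ¬ ((⟨x0, y⟩ : ℂ) ∈ A ↔ y ∈ E0)} ∪ ({y : ℝ | (⟨x0, y⟩ : ℂ) ∈ A} ∩ Ioo (-3) 3))
        (fun y hy => ?_) (measure_union_null hx1 hx2)
      by_cases hyA : (⟨x0, y⟩ : ℂ) ∈ A
      · exact Or.inr ⟨hyA, hy.1⟩
      · exact Or.inl ⟨hy.1, hy.2.1, fun h3 => hyA (h3.2 hy.2.2)⟩
    have hvol : volume A ≤ ENNReal.ofReal (2 * (16 / 7)) := by
      refine vol_le_slices hA h.sub ?_
      filter_upwards [hE0] with x hx hx1
      refine le_trans ?_ hT2
      calc volume {y : ℝ | (⟨x, y⟩ : ℂ) ∈ A} ≤ volume (Tb κ A) + (volume {y : ℝ |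
            y ∈ Ioo (-3 : ℝ) 3 ∧ y ∉ Tb κ A ∧ ¬ ((⟨x, y⟩ : ℂ) ∈ A ↔ y ∈ E0)} +
            volume {y : ℝ | y ∈ Ioo (-3 : ℝ) 3 ∧ y ∉ Tb κ A ∧ y ∈ E0}) := by
            refine le_trans (measure_mono fun y hy => ?_)
              ((measure_union_le _ _).trans (add_le_add le_rfl (measure_union_le _ _)))
            have hy3 := (mem_RR.1 (h.sub hy)).2
            by_cases hyT : y ∈ Tb κ A
            · exact Or.inl hyT
            · by_cases hyE : y ∈ E0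
              · exact Or.inr (Or.inr ⟨hy3, hyT, hyE⟩)
              · exact Or.inr (Or.inl ⟨hy3, hyT, fun h3 => hyE (h3.1 hy)⟩)
        _ = volume (Tb κ A) := by rw [hx hx1, hE, add_zero, add_zero]
    have := ma_le (κ := κ) h.sub hA (by norm_num) hvol
    linarith
  have side2 : ∀ᵐ x : ℝ, x ∈ Ioo (-1 : ℝ) 1 →
      0 < volume (Ioo (-3 : ℝ) 3 \ {y : ℝ | (⟨x, y⟩ : ℂ) ∈ A}) := by
    by_contra hcon
    rw [not_eventually] at hcon
    obtain ⟨x0, hx0, hx1⟩ := (Frequently.and_eventually hcon hE0).exists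
    rw [Classical.not_imp] at hx0
    obtain ⟨hx0, hx2⟩ := hx0
    have hx2 : volume (Ioo (-3 : ℝ) 3 \ {y : ℝ | (⟨x0, y⟩ : ℂ) ∈ A}) = 0 := by simpa using hx2
    have hx1 := hx1 hx0
    have hE : volume {y : ℝ | y ∈ Ioo (-3 : ℝ) 3 ∧ y ∉ Tb κ A ∧ y ∉ E0} = 0 := by
      refine measure_mono_null (t := {y : ℝ | y ∈ Ioo (-3 : ℝ) 3 ∧ y ∉ Tb κ A ∧
        ¬ ((⟨x0, y⟩ : ℂ) ∈ A ↔ y ∈ E0)} ∪ (Ioo (-3 : ℝ) 3 \ {y : ℝ | (⟨x0, y⟩ : ℂ) ∈ A}))
        (fun y hy => ?_) (measure_union_null hx1 hx2)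
      by_cases hyA : (⟨x0, y⟩ : ℂ) ∈ A
      · exact Or.inl ⟨hy.1, hy.2.1, fun h3 => hy.2.2 (h3.1 hyA)⟩
      · exact Or.inr ⟨hy.1, hyA⟩
    have hvol : volume (RR \ A) ≤ ENNReal.ofReal (2 * (16 / 7)) := by
      refine vol_le_slices (isOpen_RR.measurableSet.diff hA) sdiff_subset ?_
      filter_upwards [hE0] with x hx hx1
      refine le_trans ?_ hT2
      calc volume {y : ℝ | (⟨x, y⟩ : ℂ) ∈ RR \ A} ≤ volume (Tb κ A) + (volume {y : ℝ |
            y ∈ Ioo (-3 : ℝ) 3 ∧ y ∉ Tb κ A ∧ ¬ ((⟨x, y⟩ : ℂ) ∈ A ↔ y ∈ E0)} +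
            volume {y : ℝ | y ∈ Ioo (-3 : ℝ) 3 ∧ y ∉ Tb κ A ∧ y ∉ E0}) := by
            refine le_trans (measure_mono fun y hy => ?_)
              ((measure_union_le _ _).trans (add_le_add le_rfl (measure_union_le _ _)))
            have hy3 := (mem_RR.1 hy.1).2
            by_cases hyT : y ∈ Tb κ A
            · exact Or.inl hyT
            · by_cases hyE : y ∈ E0
              · exact Or.inr (Or.inl ⟨hy3, hyT, fun h3 => hy.2 (h3.2 hyE)⟩)
              · exact Or.inr (Or.inr ⟨hy3, hyT, hyE⟩)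
        _ = volume (Tb κ A) := by rw [hx hx1, hE, add_zero, add_zero]
    have := ma_le (κ := κ) (sdiff_subset (s := RR) (t := A)) (isOpen_RR.measurableSet.diff hA)
      (by norm_num) hvol
    linarith
  filter_upwards [side1, side2] with x h1 h2 hx
  exact ⟨h1 hx, h2 hx⟩

/-! ## Integrals of the profile -/

/-- the profile cut at the level `1 - a` -/
lemma min_ge {a x : ℝ} (ha : 0 ≤ a) :
    ph x - (Icc (-(1 / 8 + 8 * a)) (1 / 8 + 8 * a)).indicator (fun _ => a) x ≤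
      min (ph x) (1 - a) := by
  by_cases hx : x ∈ Icc (-(1 / 8 + 8 * a)) (1 / 8 + 8 * a)
  · rw [indicator_of_mem hx]
    have := ph_le_one x
    exact le_min (by linarith) (by linarith)
  · rw [indicator_of_notMem hx, sub_zero]
    refine le_min le_rfl ?_
    have h1 : 1 / 8 + 8 * a < |x| := by
      by_contra hcon
      push Not at hcon
      exact hx (abs_le.1 hcon)
    have := ph_le' x
    linarith

lemma int_min {a : ℝ} (ha : 0 ≤ a) :
    M0 - (a / 4 + 16 * a ^ 2) ≤ ∫ x in Ioo (-1 : ℝ) 1, min (ph x) (1 - a) := by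
  have e1 : M0 = ∫ x in Ioo (-1 : ℝ) 1, ph x := by
    unfold M0
    rw [intervalIntegral.integral_of_le (by norm_num), integral_Ioc_eq_integral_Ioo]
  have i1 : IntegrableOn ph (Ioo (-1 : ℝ) 1) :=
    (continuous_ph.continuousOn.integrableOn_compact isCompact_Icc).mono_set Ioo_subset_Icc_self
  have i2 : IntegrableOn ((Icc (-(1 / 8 + 8 * a)) (1 / 8 + 8 * a)).indicator (fun _ => a))
      (Ioo (-1 : ℝ) 1) := by
    refine Integrable.indicator ?_ measurableSet_Icc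
    exact integrableOn_const (by simp)
  have i3 : IntegrableOn (fun x => min (ph x) (1 - a)) (Ioo (-1 : ℝ) 1) :=
    ((continuous_ph.min continuous_const).continuousOn.integrableOn_compact
      isCompact_Icc).mono_set Ioo_subset_Icc_self
  have h1 := setIntegral_mono (μ := volume) (s := Ioo (-1 : ℝ) 1) (i1.sub i2) i3
    (fun x => min_ge (x := x) ha)
  have h2 : ∫ x in Ioo (-1 : ℝ) 1,
      (ph - (Icc (-(1 / 8 + 8 * a)) (1 / 8 + 8 * a)).indicator (fun _ => a)) x =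
      M0 - ∫ x in Ioo (-1 : ℝ) 1,
        (Icc (-(1 / 8 + 8 * a)) (1 / 8 + 8 * a)).indicator (fun _ => a) x := by
    rw [e1, ← integral_sub i1 i2]
    rfl
  have h3 : ∫ x in Ioo (-1 : ℝ) 1,
      (Icc (-(1 / 8 + 8 * a)) (1 / 8 + 8 * a)).indicator (fun _ => a) x ≤ a / 4 + 16 * a ^ 2 := by
    rw [integral_indicator measurableSet_Icc, Measure.restrict_restrict measurableSet_Icc,
      setIntegral_const, smul_eq_mul]
    have h4 : volume.real (Icc (-(1 / 8 + 8 * a)) (1 / 8 + 8 * a) ∩ Ioo (-1 : ℝ) 1) ≤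
        2 * (1 / 8 + 8 * a) := by
      have h5 : volume.real (Icc (-(1 / 8 + 8 * a)) (1 / 8 + 8 * a) ∩ Ioo (-1 : ℝ) 1) ≤
          volume.real (Icc (-(1 / 8 + 8 * a)) (1 / 8 + 8 * a)) :=
        measureReal_mono inter_subset_left (by rw [Real.volume_Icc]; exact ENNReal.ofReal_ne_top)
      refine h5.trans (le_of_eq ?_)
      rw [Real.volume_real_Icc_of_le (by linarith)]
      ring
    nlinarith
  have h1' : M0 - ∫ x in Ioo (-1 : ℝ) 1,
        (Icc (-(1 / 8 + 8 * a)) (1 / 8 + 8 * a)).indicator (fun _ => a) x ≤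
      ∫ x in Ioo (-1 : ℝ) 1, min (ph x) (1 - a) := by
    rw [← h2]; exact h1
  linarith

/-- Lower bound for the vertical variation, with a gain on the bad set. -/
lemma vert_gain {κ : ℝ} {A : Set ℂ} (hA : MeasurableSet A) {a : ℝ}
    (ha : 0 ≤ a) (ha1 : a ≤ 1) (hv : ∀ᵐ x : ℝ, x ∈ Ioo (-1 : ℝ) 1 →
      ENNReal.ofReal (min (ph x) (1 - a)) ≤ vV κ A x) :
    ENNReal.ofReal (M0 - (a / 4 + 16 * a ^ 2)) +
      ENNReal.ofReal (3 / 4) * volume {x | x ∈ Ioo (-1 : ℝ) 1 ∧ ENNReal.ofReal (7 / 4) ≤ vV κ A x} ≤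
      VV κ A := by
  set B : Set ℝ := {x | x ∈ Ioo (-1 : ℝ) 1 ∧ ENNReal.ofReal (7 / 4) ≤ vV κ A x} with hB
  have hBm : MeasurableSet B :=
    measurableSet_Ioo.inter (measurableSet_le measurable_const (vV_meas κ hA))
  have i3 : IntegrableOn (fun x => min (ph x) (1 - a)) (Ioo (-1 : ℝ) 1) :=
    ((continuous_ph.min continuous_const).continuousOn.integrableOn_compact
      isCompact_Icc).mono_set Ioo_subset_Icc_self
  have hmin0 : ∀ x ∈ Ioo (-1 : ℝ) 1, 0 ≤ min (ph x) (1 - a) := fun x hx =>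
    le_min (le_trans (by norm_num) (ph_ge (abs_le.2 ⟨hx.1.le, hx.2.le⟩))) (by linarith)
  have h1 : ENNReal.ofReal (M0 - (a / 4 + 16 * a ^ 2)) ≤
      ∫⁻ x in Ioo (-1 : ℝ) 1, ENNReal.ofReal (min (ph x) (1 - a)) := by
    rw [← ofReal_integral_eq_lintegral_ofReal i3]
    · exact ENNReal.ofReal_le_ofReal (int_min ha)
    · filter_upwards [ae_restrict_mem measurableSet_Ioo] with x hx
      exact hmin0 x hx
  have h2 : ENNReal.ofReal (3 / 4) * volume B =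
      ∫⁻ x in Ioo (-1 : ℝ) 1, B.indicator (fun _ => ENNReal.ofReal (3 / 4)) x := by
    rw [lintegral_indicator hBm, Measure.restrict_restrict hBm, setLIntegral_const]
    congr 2
    exact (inter_eq_left.2 fun x hx => hx.1).symm
  rw [h2]
  refine (add_le_add_left h1 _).trans ?_
  rw [← lintegral_add_left (continuous_ph.min continuous_const).measurable.ennreal_ofReal]
  unfold VV
  refine lintegral_mono_ae ?_
  refine (ae_restrict_iff' measurableSet_Ioo).2 ?_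
  filter_upwards [hv] with x hx hx1
  by_cases hxB : x ∈ B
  · rw [indicator_of_mem hxB]
    refine le_trans ?_ hxB.2
    rw [← ENNReal.ofReal_add (hmin0 x hx1) (by norm_num)]
    apply ENNReal.ofReal_le_ofReal
    have := (min_le_left (ph x) (1 - a)).trans (ph_le_one x)
    linarith
  · rw [indicator_of_notMem hxB, add_zero]
    exact hx hx1

end Pool.Agent.R224.HV
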