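import Pool.Agent.R224.HV.Pl2

/-!
# The planar problem: orientation, good slices
-/

set_option autoImplicit false

open MeasureTheory Set Metric Filter Topology
open scoped ENNReal Real

noncomputable section

namespace Pool.Agent.R224.HV

open Pool.Agent.TH304.MI Pool.Agent.TH703.HU Pool.Agent.TH742.HU Pool.Agent.TH663.HU
open Pool.Agent.R224.Sl

/-- The abscissas with large vertical variation. -/
def Bd (κ : ℝ) (A : Set ℂ) : Set ℝ := {x | x ∈ Ioo (-1 : ℝ) 1 ∧ ENNReal.ofReal (7 / 4) ≤ vV κ A x}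

lemma Bd_meas (κ : ℝ) {A : Set ℂ} (hA : MeasurableSet A) : MeasurableSet (Bd κ A) :=
  measurableSet_Ioo.inter (measurableSet_le measurable_const (vV_meas κ hA))

lemma enn_aux {a b : ℝ} (ha : 0 ≤ a) {v : ℝ≥0∞} (hv : v ≠ ⊤) (h : ENNReal.ofReal a +
    ENNReal.ofReal (3 / 4) * v ≤ ENNReal.ofReal b) (hb : 0 ≤ b) :
    v ≤ ENNReal.ofReal (4 / 3 * (b - a)) := by
  have h1 : v = ENNReal.ofReal v.toReal := (ENNReal.ofReal_toReal hv).symm
  have hv0 : 0 ≤ v.toReal := ENNReal.toReal_nonneg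
  rw [h1, ← ENNReal.ofReal_mul (by norm_num), ← ENNReal.ofReal_add ha (by positivity),
    ENNReal.ofReal_le_ofReal_iff hb] at h
  rw [h1]
  apply ENNReal.ofReal_le_ofReal
  linarith

namespace Hyp

variable {ρ P : ℝ} {A : Set ℂ}

lemma VV_le (h : Hyp ρ A P) : VV (ρ ^ 2) A ≤ ENNReal.ofReal P := by
  have c := comb h.κ0 h.κ1 h.meas h.per (a := 0) (b := 1) le_rfl (by norm_num) (by norm_num)
  rwa [ENNReal.ofReal_one, one_mul, ENNReal.ofReal_zero, zero_mul, zero_add] at c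

lemma Bd_fin (_h : Hyp ρ A P) : volume (Bd (ρ ^ 2) A) ≠ ⊤ := by
  have : volume (Bd (ρ ^ 2) A) ≤ volume (Ioo (-1 : ℝ) 1) := measure_mono fun x hx => hx.1
  exact (this.trans_lt (by rw [Real.volume_Ioo]; exact ENNReal.ofReal_lt_top)).ne

lemma v_basic (h : Hyp ρ A P) : ∀ᵐ x : ℝ, x ∈ Ioo (-1 : ℝ) 1 →
    ENNReal.ofReal (min (ph x) (1 - 3 * ρ ^ 2)) ≤ vV (ρ ^ 2) A x := by
  filter_upwards [nontriv h] with x hx hx1
  have h0 := h.κ0
  have h1 := h.κ1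
  refine Ev_ge1 (slice2 h.meas x) (a := -3) (b := 3) le_rfl le_rfl ?_ (fun t ht => ?_)
    (hx hx1).1 (hx hx1).2
  · exact le_min (le_trans (by norm_num) (ph_ge (abs_le.2 ⟨hx1.1.le, hx1.2.le⟩))) (by linarith)
  · rw [fp_eq h0 h1 (mem_RR.2 ⟨hx1, ht⟩)]
    refine min_le_min le_rfl ?_
    have : |t| ≤ 3 := abs_le.2 ⟨ht.1.le, ht.2.le⟩
    have := mul_le_mul_of_nonneg_left this h0
    simp only
    linarith

lemma V_ge (h : Hyp ρ A P) : ENNReal.ofReal (M0 - ρ ^ 2) + ENNReal.ofReal (3 / 4) *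
    volume (Bd (ρ ^ 2) A) ≤ VV (ρ ^ 2) A := by
  have h0 := h.κ0
  have h1 := h.κle
  refine le_trans ?_ (vert_gain h.meas (a := 3 * ρ ^ 2) (by positivity) (by linarith) h.v_basic)
  gcongr
  · nlinarith
  · exact le_rfl

lemma H_le (h : Hyp ρ A P) : HH (ρ ^ 2) A ≤ ENNReal.ofReal (3 * ρ) := by
  have h0 := h.κ0
  have h1 := h.κle
  have hρ := h.ρ0
  have hM := M0_ge
  have hM2 := M0_le
  have c := comb h0 h.κ1 h.meas h.per (a := ρ) (b := 1 - ρ ^ 2) hρ.le (by linarith)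
    (by nlinarith)
  have v1 : ENNReal.ofReal (M0 - ρ ^ 2) ≤ VV (ρ ^ 2) A := le_self_add.trans h.V_ge
  have c2 : ENNReal.ofReal ρ * HH (ρ ^ 2) A + ENNReal.ofReal (1 - ρ ^ 2) *
      ENNReal.ofReal (M0 - ρ ^ 2) ≤ ENNReal.ofReal M0 :=
    (add_le_add le_rfl (mul_le_mul' le_rfl v1)).trans (c.trans (ENNReal.ofReal_le_ofReal h.le))
  have hfin : HH (ρ ^ 2) A ≠ ⊤ := by
    intro htop
    rw [htop, ENNReal.mul_top (by rw [Ne, ENNReal.ofReal_eq_zero]; linarith), top_add] at c2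
    exact absurd (top_le_iff.1 c2) ENNReal.ofReal_ne_top
  have e1 : HH (ρ ^ 2) A = ENNReal.ofReal (HH (ρ ^ 2) A).toReal := (ENNReal.ofReal_toReal hfin).symm
  have e2 : 0 ≤ (HH (ρ ^ 2) A).toReal := ENNReal.toReal_nonneg
  rw [e1, ← ENNReal.ofReal_mul hρ.le, ← ENNReal.ofReal_mul (by linarith),
    ← ENNReal.ofReal_add (by positivity) (mul_nonneg (by linarith) (by linarith)),
    ENNReal.ofReal_le_ofReal_iff (by linarith)] at c2
  rw [e1]
  apply ENNReal.ofReal_le_ofReal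
  have h3 : ρ * (HH (ρ ^ 2) A).toReal ≤ ρ * (3 * ρ) := by nlinarith
  exact le_of_mul_le_mul_left h3 hρ

lemma Tb_le (h : Hyp ρ A P) : volume (Tb (ρ ^ 2) A) ≤ ENNReal.ofReal (4 * ρ) := by
  have hρ := h.ρ0
  exact (Tb_vol _ h.meas h.H_le).trans (ENNReal.ofReal_le_ofReal (by linarith))

lemma Bd_le (h : Hyp ρ A P) : volume (Bd (ρ ^ 2) A) ≤ ENNReal.ofReal (4 / 3 * ρ ^ 2) := by
  have h0 := h.κ0
  have h1 := h.κle
  have hM := M0_ge
  have := enn_aux (a := M0 - ρ ^ 2) (b := M0) (by linarith) h.Bd_fin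
    (h.V_ge.trans (h.VV_le.trans (ENNReal.ofReal_le_ofReal h.le))) (by linarith)
  refine this.trans (ENNReal.ofReal_le_ofReal (by linarith))

/-- All slices are close to one half-line. -/
theorem stage1 (h : Hyp ρ A P) : ∃ k ∈ Ioo (-3 : ℝ) 3,
    (∀ᵐ x : ℝ, x ∈ Ioo (-1 : ℝ) 1 → volume {y : ℝ | y ∈ Ioo (-3 : ℝ) 3 ∧
      ¬ ((⟨x, y⟩ : ℂ) ∈ A ↔ y < k)} ≤ ENNReal.ofReal (4 * ρ)) ∨
    (∀ᵐ x : ℝ, x ∈ Ioo (-1 : ℝ) 1 → volume {y : ℝ | y ∈ Ioo (-3 : ℝ) 3 ∧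
      ¬ ((⟨x, y⟩ : ℂ) ∉ A ↔ y < k)} ≤ ENNReal.ofReal (4 * ρ)) := by
  have hA := h.meas
  have h0 := h.κ0
  have h1 := h.κle
  obtain ⟨E0, hE0m, hE0⟩ := ae_E0 h.κ0 h.κ1 hA
  -- a good abscissa
  have hfr : ∃ᶠ x in ae (volume : Measure ℝ), x ∈ Ioo (-1 : ℝ) 1 \ Bd (ρ ^ 2) A := by
    rw [frequently_ae_mem_iff]
    intro hz
    have e1 : volume (Ioo (-1 : ℝ) 1) ≤ volume (Bd (ρ ^ 2) A) := by
      calc volume (Ioo (-1 : ℝ) 1) ≤ volume (Ioo (-1 : ℝ) 1 \ Bd (ρ ^ 2) A) +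
            volume (Bd (ρ ^ 2) A) := by
            refine le_trans (measure_mono fun x hx => ?_) (measure_union_le _ _)
            by_cases hxB : x ∈ Bd (ρ ^ 2) A
            · exact Or.inr hxB
            · exact Or.inl ⟨hx, hxB⟩
        _ = _ := by rw [hz, zero_add]
    have e2 := e1.trans h.Bd_le
    rw [Real.volume_Ioo, ENNReal.ofReal_le_ofReal_iff (by positivity)] at e2
    linarith
  obtain ⟨x0, hx0, hn, hE⟩ := (hfr.and_eventually ((nontriv h).and hE0)).exists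
  obtain ⟨hx1, hx2⟩ := hx0
  have hlt : vV (ρ ^ 2) A x0 < ENNReal.ofReal (2 * (7 / 8)) := by
    by_contra hcon
    push Not at hcon
    refine hx2 ⟨hx1, ?_⟩
    have e : (2 * (7 / 8) : ℝ) = 7 / 4 := by norm_num
    rwa [e] at hcon
  obtain ⟨k, hk, hk2⟩ := Ev_half (slice2 hA x0) (by norm_num : (0 : ℝ) < 7 / 8) (fun t ht => by
    rw [fp_eq h0 h.κ1 (mem_RR.2 ⟨hx1, ht⟩)]
    exact ff_ge h0 h.κ1 (mem_RR.2 ⟨hx1, ht⟩)) hlt (hn hx1).1 (hn hx1).2
  refine ⟨k, hk, ?_⟩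
  have hE1 := hE hx1
  rcases hk2 with hk2 | hk2
  · left
    have hz : volume {y : ℝ | ¬ (y ∈ Ioo (-3 : ℝ) 3 → ((⟨x0, y⟩ : ℂ) ∈ A ↔ y < k))} = 0 :=
      ae_iff.1 hk2
    filter_upwards [hE0] with x hx hxI
    have hx := hx hxI
    refine le_trans ?_ h.Tb_le
    calc volume {y : ℝ | y ∈ Ioo (-3 : ℝ) 3 ∧ ¬ ((⟨x, y⟩ : ℂ) ∈ A ↔ y < k)}
        ≤ volume (Tb (ρ ^ 2) A) + (volume {y : ℝ | y ∈ Ioo (-3 : ℝ) 3 ∧ y ∉ Tb (ρ ^ 2) A ∧
            ¬ ((⟨x, y⟩ : ℂ) ∈ A ↔ y ∈ E0)} + (volume {y : ℝ | y ∈ Ioo (-3 : ℝ) 3 ∧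
            y ∉ Tb (ρ ^ 2) A ∧ ¬ ((⟨x0, y⟩ : ℂ) ∈ A ↔ y ∈ E0)} +
            volume {y : ℝ | ¬ (y ∈ Ioo (-3 : ℝ) 3 → ((⟨x0, y⟩ : ℂ) ∈ A ↔ y < k))})) := by
          refine le_trans (measure_mono fun y hy => ?_)
              ((measure_union_le _ _).trans (add_le_add le_rfl ((measure_union_le _ _).trans
                (add_le_add le_rfl (measure_union_le _ _)))))
          obtain ⟨hy1, hy2⟩ := hy
          by_cases hT : y ∈ Tb (ρ ^ 2) A
          · exact Or.inl hT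
          by_cases h3 : ((⟨x, y⟩ : ℂ) ∈ A ↔ y ∈ E0)
          swap
          · exact Or.inr (Or.inl ⟨hy1, hT, h3⟩)
          by_cases h4 : ((⟨x0, y⟩ : ℂ) ∈ A ↔ y ∈ E0)
          swap
          · exact Or.inr (Or.inr (Or.inl ⟨hy1, hT, h4⟩))
          refine Or.inr (Or.inr (Or.inr ?_))
          rw [mem_ofPred_eq, Classical.not_imp]
          exact ⟨hy1, fun h5 => hy2 (h3.trans (h4.symm.trans h5))⟩
      _ = volume (Tb (ρ ^ 2) A) := by rw [hx, hE1, hz, add_zero, add_zero, add_zero]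
  · right
    have hz : volume {y : ℝ | ¬ (y ∈ Ioo (-3 : ℝ) 3 → ((⟨x0, y⟩ : ℂ) ∉ A ↔ y < k))} = 0 :=
      ae_iff.1 hk2
    filter_upwards [hE0] with x hx hxI
    have hx := hx hxI
    refine le_trans ?_ h.Tb_le
    calc volume {y : ℝ | y ∈ Ioo (-3 : ℝ) 3 ∧ ¬ ((⟨x, y⟩ : ℂ) ∉ A ↔ y < k)}
        ≤ volume (Tb (ρ ^ 2) A) + (volume {y : ℝ | y ∈ Ioo (-3 : ℝ) 3 ∧ y ∉ Tb (ρ ^ 2) A ∧
            ¬ ((⟨x, y⟩ : ℂ) ∈ A ↔ y ∈ E0)} + (volume {y : ℝ | y ∈ Ioo (-3 : ℝ) 3 ∧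
            y ∉ Tb (ρ ^ 2) A ∧ ¬ ((⟨x0, y⟩ : ℂ) ∈ A ↔ y ∈ E0)} +
            volume {y : ℝ | ¬ (y ∈ Ioo (-3 : ℝ) 3 → ((⟨x0, y⟩ : ℂ) ∉ A ↔ y < k))})) := by
          refine le_trans (measure_mono fun y hy => ?_)
              ((measure_union_le _ _).trans (add_le_add le_rfl ((measure_union_le _ _).trans
                (add_le_add le_rfl (measure_union_le _ _)))))
          obtain ⟨hy1, hy2⟩ := hy
          by_cases hT : y ∈ Tb (ρ ^ 2) A
          · exact Or.inl hT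
          by_cases h3 : ((⟨x, y⟩ : ℂ) ∈ A ↔ y ∈ E0)
          swap
          · exact Or.inr (Or.inl ⟨hy1, hT, h3⟩)
          by_cases h4 : ((⟨x0, y⟩ : ℂ) ∈ A ↔ y ∈ E0)
          swap
          · exact Or.inr (Or.inr (Or.inl ⟨hy1, hT, h4⟩))
          refine Or.inr (Or.inr (Or.inr ?_))
          rw [mem_ofPred_eq, Classical.not_imp]
          exact ⟨hy1, fun h5 => hy2 ((not_congr (h3.trans h4.symm)).trans h5)⟩
      _ = volume (Tb (ρ ^ 2) A) := by rw [hx, hE1, hz, add_zero, add_zero, add_zero]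

end Hyp

/-! ## Lower orientation -/

/-- The set is close to the lower half of the rectangle. -/
structure Low (ρ : ℝ) (A : Set ℂ) (P k : ℝ) : Prop extends Hyp ρ A P where
  k1 : k ∈ Ioo (-3 : ℝ) 3
  sl : ∀ᵐ x : ℝ, x ∈ Ioo (-1 : ℝ) 1 → volume {y : ℝ | y ∈ Ioo (-3 : ℝ) 3 ∧
      ¬ ((⟨x, y⟩ : ℂ) ∈ A ↔ y < k)} ≤ ENNReal.ofReal (4 * ρ)

/-- lower part of the rectangle -/
def Lo (k : ℝ) : Set ℂ := {z | z ∈ RR ∧ z.im < k}

lemma Lo_meas (k : ℝ) : MeasurableSet (Lo k) :=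
  isOpen_RR.measurableSet.inter (measurableSet_lt Complex.measurable_im measurable_const)

lemma Lo_sub (k : ℝ) : Lo k ⊆ RR := fun _ hz => hz.1

lemma strip_vol {a b : ℝ} (ha : -3 ≤ a) (hab : a ≤ b) (hb : b ≤ 3) :
    ENNReal.ofReal (2 * (b - a)) ≤ volume (Lo b \ Lo a) := by
  rw [vol2 ((Lo_meas b).diff (Lo_meas a))]
  calc ENNReal.ofReal (2 * (b - a)) =
        ∫⁻ x : ℝ, (Ioo (-1 : ℝ) 1).indicator (fun _ => ENNReal.ofReal (b - a)) x := by
        rw [lintegral_indicator measurableSet_Ioo, setLIntegral_const, Real.volume_Ioo, mul_comm,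
          ← ENNReal.ofReal_mul (by linarith)]
        congr 1; ring
    _ ≤ _ := by
        refine lintegral_mono fun x => ?_
        by_cases hx : x ∈ Ioo (-1 : ℝ) 1
        · rw [indicator_of_mem hx, ← Real.volume_Ioo]
          refine measure_mono fun y hy => ?_
          have hR : (⟨x, y⟩ : ℂ) ∈ RR := mem_RR.2 ⟨hx, by linarith [hy.1], by linarith [hy.2]⟩
          exact ⟨⟨hR, hy.2⟩, fun h => absurd h.2 (not_lt.2 hy.1.le)⟩
        · rw [indicator_of_notMem hx]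
          exact zero_le

lemma ma_Lo0 (κ : ℝ) : ma κ (Lo 0) = ma κ RR / 2 := by
  have h1 : ma κ (RR \ Lo 0) = ma κ RR - ma κ (Lo 0) := ma_diff (Subset.refl RR) (Lo_meas 0) (Lo_sub 0)
  have h2 : ma κ (RR \ Lo 0) = ma κ (Lo 0) := by
    have e1 : volume {z : ℂ | z.im = 0} = 0 := by
      have hm : MeasurableSet {z : ℂ | z.im = 0} :=
        measurableSet_eq_fun Complex.measurable_im measurable_const
      rw [null2 hm]
      refine Eventually.of_forall fun x => ?_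
      have : {y : ℝ | (⟨x, y⟩ : ℂ) ∈ {z : ℂ | z.im = 0}} = {0} := by
        ext y
        simp
      rw [this]
      simp
    have e2 : (RR \ Lo 0 : Set ℂ) =ᵐ[volume] (fun z : ℂ => -z) ⁻¹' Lo 0 := by
      have : ∀ᵐ z : ℂ, z.im ≠ 0 := by
        rw [ae_iff]
        simpa using e1
      filter_upwards [this] with z hz
      apply propext
      change (z ∈ RR ∧ ¬ (z ∈ RR ∧ z.im < 0)) ↔ (-z ∈ RR ∧ (-z).im < 0)
      constructor
      · rintro ⟨h1, h2⟩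
        refine ⟨RR_neg h1, ?_⟩
        rw [Complex.neg_im]
        have : ¬ z.im < 0 := fun h => h2 ⟨h1, h⟩
        rcases lt_or_gt_of_ne hz with h | h
        · exact absurd h this
        · linarith
      · rintro ⟨h1, h2⟩
        rw [Complex.neg_im] at h2
        have h3 := RR_neg h1
        rw [neg_neg] at h3
        exact ⟨h3, fun h => by linarith [h.2]⟩
    unfold ma
    rw [setIntegral_congr_set e2]
    have mp : MeasurePreserving (fun z : ℂ => -z) volume volume :=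
      Measure.measurePreserving_neg volume
    have := mp.setIntegral_preimage_emb (MeasurableEquiv.neg ℂ).measurableEmbedding (ff κ) (Lo 0)
    rw [← this]
    refine setIntegral_congr_fun (measurable_neg (Lo_meas 0)) fun z _ => ?_
    exact (ff_neg κ z).symm
  linarith

namespace Low

variable {ρ P k : ℝ} {A : Set ℂ}

lemma k_le (h : Low ρ A P k) : |k| ≤ 5 * ρ := by
  have hρ := h.ρ0
  have hA := h.meas
  have h0 := h.κ0
  have h1 := h.κ1
  have hsym : volume (symmDiff A (Lo k)) ≤ ENNReal.ofReal (2 * (4 * ρ)) := by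
    refine vol_le_slices (hA.symmDiff (Lo_meas k)) ?_ ?_
    · rintro z (hz | hz)
      · exact h.sub hz.1
      · exact hz.1.1
    · filter_upwards [h.sl] with x hx hxI
      refine le_trans (measure_mono fun y hy => ?_) (hx hxI)
      rcases hy with ⟨hy1, hy2⟩ | ⟨hy1, hy2⟩
      · have := (mem_RR.1 (h.sub hy1)).2
        exact ⟨this, fun h3 => hy2 ⟨h.sub hy1, h3.1 hy1⟩⟩
      · have := (mem_RR.1 hy1.1).2
        exact ⟨this, fun h3 => hy2 (h3.2 hy1.2)⟩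
  have hs1 : ma (ρ ^ 2) (A \ Lo k) ≤ 8 * ρ :=
    ma_le (sdiff_subset.trans h.sub) (hA.diff (Lo_meas k)) (by positivity)
      ((measure_mono subset_union_left).trans (hsym.trans (ENNReal.ofReal_le_ofReal (by linarith))))
  have hs2 : ma (ρ ^ 2) (Lo k \ A) ≤ 8 * ρ :=
    ma_le (sdiff_subset.trans (Lo_sub k)) ((Lo_meas k).diff hA) (by positivity)
      ((measure_mono subset_union_right).trans (hsym.trans (ENNReal.ofReal_le_ofReal (by linarith))))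
  have hs3 : 0 ≤ ma (ρ ^ 2) (A \ Lo k) := by
    have := ma_ge h0 h1 (sdiff_subset.trans h.sub) (hA.diff (Lo_meas k)) (v := 0) (by simp)
    linarith
  have hs4 : 0 ≤ ma (ρ ^ 2) (Lo k \ A) := by
    have := ma_ge h0 h1 (sdiff_subset.trans (Lo_sub k)) ((Lo_meas k).diff hA) (v := 0) (by simp)
    linarith
  have e1 : ma (ρ ^ 2) (A ∩ Lo k) + ma (ρ ^ 2) (A \ Lo k) = ma (ρ ^ 2) A :=
    integral_inter_add_sdiff (Lo_meas k) (ff_int h.sub)
  have e2 : ma (ρ ^ 2) (Lo k ∩ A) + ma (ρ ^ 2) (Lo k \ A) = ma (ρ ^ 2) (Lo k) :=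
    integral_inter_add_sdiff hA (ff_int (Lo_sub k))
  rw [inter_comm] at e2
  have e3 := ma_Lo0 (ρ ^ 2)
  have e4 := h.half
  have hk := h.k1
  rcases le_total 0 k with hk0 | hk0
  · have s1 := strip_vol (a := 0) (b := k) (by norm_num) hk0 hk.2.le
    have s2 := ma_ge h0 h1 (sdiff_subset.trans (Lo_sub k)) ((Lo_meas k).diff (Lo_meas 0)) s1
    rw [ma_diff (Lo_sub k) (Lo_meas 0) (fun z hz => ⟨hz.1, hz.2.trans_le hk0⟩)] at s2
    rw [abs_of_nonneg hk0]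
    linarith
  · have s1 := strip_vol (a := k) (b := 0) hk.1.le hk0 (by norm_num)
    have s2 := ma_ge h0 h1 (sdiff_subset.trans (Lo_sub 0)) ((Lo_meas 0).diff (Lo_meas k)) s1
    rw [ma_diff (Lo_sub 0) (Lo_meas k) (fun z hz => ⟨hz.1, hz.2.trans_le hk0⟩)] at s2
    rw [abs_of_nonpos hk0]
    linarith

/-- deviation of the slice from the lower half -/
def Dv (A : Set ℂ) (x : ℝ) : Set ℝ := {y | y ∈ Ioo (-3 : ℝ) 3 ∧ ¬ ((⟨x, y⟩ : ℂ) ∈ A ↔ y < 0)}

lemma D_le (h : Low ρ A P k) : ∀ᵐ x : ℝ, x ∈ Ioo (-1 : ℝ) 1 →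
    volume (Dv A x) ≤ ENNReal.ofReal (14 * ρ) := by
  have hρ := h.ρ0
  have hk := h.k_le
  filter_upwards [h.sl] with x hx hxI
  calc volume (Dv A x) ≤ volume {y : ℝ | y ∈ Ioo (-3 : ℝ) 3 ∧ ¬ ((⟨x, y⟩ : ℂ) ∈ A ↔ y < k)} +
        volume (Icc (-|k|) |k|) := by
        refine le_trans (measure_mono fun y hy => ?_) (measure_union_le _ _)
        obtain ⟨hy1, hy2⟩ := hy
        by_cases h3 : ((⟨x, y⟩ : ℂ) ∈ A ↔ y < k)
        · right
          have h4 : ¬ (y < k ↔ y < 0) := fun h5 => hy2 (h3.trans h5)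
          rcases abs_cases k with ⟨h6, h7⟩ | ⟨h6, h7⟩ <;> rw [h6]
          · by_cases h8 : y < 0
            · exact absurd (iff_of_true (h8.trans_le h7) h8) h4
            · by_cases h9 : y < k
              · push Not at h8
                exact ⟨by linarith, h9.le⟩
              · exact absurd (iff_of_false h9 h8) h4
          · by_cases h8 : y < 0
            · by_cases h9 : y < k
              · exact absurd (iff_of_true h9 h8) h4
              · push Not at h9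
                exact ⟨by linarith, by linarith⟩
            · exact absurd (iff_of_false (fun h9 => h8 (h9.trans h7)) h8) h4
        · exact Or.inl ⟨hy1, h3⟩
    _ ≤ ENNReal.ofReal (4 * ρ) + ENNReal.ofReal (10 * ρ) := by
        gcongr
        · exact hx hxI
        · rw [Real.volume_Icc]
          exact ENNReal.ofReal_le_ofReal (by linarith)
    _ ≤ _ := by
        rw [← ENNReal.ofReal_add (by positivity) (by positivity)]
        apply ENNReal.ofReal_le_ofReal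
        linarith

/-- Improved lower bound for the vertical variation. -/
lemma v_impr (h : Low ρ A P k) : ∀ᵐ x : ℝ, x ∈ Ioo (-1 : ℝ) 1 →
    ENNReal.ofReal (min (ph x) (1 - 14 * ρ ^ 3)) ≤ vV (ρ ^ 2) A x := by
  have hρ := h.ρ0
  have h0 := h.κ0
  have h1 := h.κ1
  filter_upwards [nontriv h.toHyp, h.D_le] with x hx hD hxI
  have hD := hD hxI
  have := Ev_vert (slice2 h.meas x) (u := fun t => fp (ρ ^ 2) ⟨x, t⟩) (q := 1) (p := ph x)
    (κ := ρ ^ 2) (D := 14 * ρ) (by norm_num) h0 (fun t ht => ?_) (hx hxI).1 (hx hxI).2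
    ((measure_mono fun y hy => ?_).trans hD) ((measure_mono fun y hy => ?_).trans hD) (by positivity)
  · rw [one_mul] at this
    refine le_trans (le_of_eq ?_) this
    congr 2
    ring
  · rw [fp_eq h0 h1 (mem_RR.2 ⟨hxI, ht⟩), one_mul]
    rfl
  · exact ⟨⟨by linarith [hy.2.1], hy.2.2⟩, fun h3 => by
      have := h3.1 hy.1
      linarith [hy.2.1]⟩
  · exact ⟨⟨hy.1.1, by linarith [hy.1.2]⟩, fun h3 => hy.2 (h3.2 hy.1.2)⟩

/-- Few bad slices. -/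
lemma Bd_le' (h : Low ρ A P k) : volume (Bd (ρ ^ 2) A) ≤ ENNReal.ofReal (5 * ρ ^ 3) := by
  have hρ := h.ρ0
  have hρ1 := h.ρ1
  have h0 := h.κ0
  have h1 := h.κle
  have hM := M0_ge
  have hρ3 : ρ ^ 3 ≤ 1 / 1000 ^ 3 := by
    have := pow_le_pow_left₀ hρ.le hρ1 3
    rwa [div_pow, one_pow] at this
  have hρ30 : 0 < ρ ^ 3 := by positivity
  have g := vert_gain h.meas (a := 14 * ρ ^ 3) (by positivity) (by linarith) h.v_impr
  have := enn_aux (a := M0 - (14 * ρ ^ 3 / 4 + 16 * (14 * ρ ^ 3) ^ 2)) (b := M0) (by nlinarith)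
    h.toHyp.Bd_fin (g.trans (h.VV_le.trans (ENNReal.ofReal_le_ofReal h.le))) (by linarith)
  refine this.trans (ENNReal.ofReal_le_ofReal ?_)
  nlinarith

/-- Good slices are lower half-lines. -/
lemma good (h : Low ρ A P k) : ∀ᵐ x : ℝ, x ∈ Ioo (-1 : ℝ) 1 → x ∉ Bd (ρ ^ 2) A →
    ∃ k' ∈ Ioo (-3 : ℝ) 3, ∀ᵐ t : ℝ, t ∈ Ioo (-3 : ℝ) 3 → ((⟨x, t⟩ : ℂ) ∈ A ↔ t < k') := by
  have hρ := h.ρ0
  have hρ1 := h.ρ1
  have h0 := h.κ0
  have h1 := h.κ1
  filter_upwards [nontriv h.toHyp, h.D_le] with x hx hD hxI hxB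
  have hD := hD hxI
  have hlt : vV (ρ ^ 2) A x < ENNReal.ofReal (2 * (7 / 8)) := by
    by_contra hcon
    push Not at hcon
    refine hxB ⟨hxI, ?_⟩
    have e : (2 * (7 / 8) : ℝ) = 7 / 4 := by norm_num
    rwa [e] at hcon
  obtain ⟨k', hk', hk2⟩ := Ev_half (slice2 h.meas x) (by norm_num : (0 : ℝ) < 7 / 8)
    (fun t ht => by
      rw [fp_eq h0 h1 (mem_RR.2 ⟨hxI, ht⟩)]
      exact ff_ge h0 h1 (mem_RR.2 ⟨hxI, ht⟩)) hlt (hx hxI).1 (hx hxI).2
  rcases hk2 with hk2 | hk2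
  · exact ⟨k', hk', hk2⟩
  · exfalso
    have hz : volume {y : ℝ | ¬ (y ∈ Ioo (-3 : ℝ) 3 → ((⟨x, y⟩ : ℂ) ∉ A ↔ y < k'))} = 0 :=
      ae_iff.1 hk2
    have h3 : ENNReal.ofReal 3 ≤ volume (Dv A x) := by
      rcases le_total 0 k' with h4 | h4
      · calc ENNReal.ofReal 3 = volume (Ioo (-3 : ℝ) 0) := by rw [Real.volume_Ioo]; norm_num
          _ ≤ volume (Dv A x) + volume {y : ℝ | ¬ (y ∈ Ioo (-3 : ℝ) 3 →
              ((⟨x, y⟩ : ℂ) ∉ A ↔ y < k'))} := by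
              refine le_trans (measure_mono fun y hy => ?_) (measure_union_le _ _)
              have hy3 : y ∈ Ioo (-3 : ℝ) 3 := ⟨hy.1, by linarith [hy.2]⟩
              by_cases h5 : ((⟨x, y⟩ : ℂ) ∉ A ↔ y < k')
              · left
                exact ⟨hy3, fun h6 => h5.2 (hy.2.trans_le h4) (h6.2 hy.2)⟩
              · right
                rw [mem_ofPred_eq, Classical.not_imp]
                exact ⟨hy3, h5⟩
          _ = _ := by rw [hz, add_zero]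
      · calc ENNReal.ofReal 3 = volume (Ioo (0 : ℝ) 3) := by rw [Real.volume_Ioo]; norm_num
          _ ≤ volume (Dv A x) + volume {y : ℝ | ¬ (y ∈ Ioo (-3 : ℝ) 3 →
              ((⟨x, y⟩ : ℂ) ∉ A ↔ y < k'))} := by
              refine le_trans (measure_mono fun y hy => ?_) (measure_union_le _ _)
              have hy3 : y ∈ Ioo (-3 : ℝ) 3 := ⟨by linarith [hy.1], hy.2⟩
              by_cases h5 : ((⟨x, y⟩ : ℂ) ∉ A ↔ y < k')
              · left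
                refine ⟨hy3, fun h6 => ?_⟩
                by_cases h7 : (⟨x, y⟩ : ℂ) ∈ A
                · exact absurd (h6.1 h7) (not_lt.2 hy.1.le)
                · exact absurd (h5.1 h7) (not_lt.2 (h4.trans hy.1.le))
              · right
                rw [mem_ofPred_eq, Classical.not_imp]
                exact ⟨hy3, h5⟩
          _ = _ := by rw [hz, add_zero]
    have h4 := h3.trans hD
    rw [ENNReal.ofReal_le_ofReal_iff (by positivity)] at h4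
    linarith

/-- the height of the slice -/
def kk (A : Set ℂ) (x : ℝ) : ℝ := (volume ({y : ℝ | (⟨x, y⟩ : ℂ) ∈ A} ∩ Ioo (-3) 3)).toReal - 3

lemma kk_meas (hA : MeasurableSet A) : Measurable (kk A) := by
  unfold kk
  have e : (fun x : ℝ => volume ({y : ℝ | (⟨x, y⟩ : ℂ) ∈ A} ∩ Ioo (-3) 3)) =
      fun x : ℝ => volume {y : ℝ | (⟨x, y⟩ : ℂ) ∈ A ∩ Complex.im ⁻¹' Ioo (-3) 3} := rfl
  have := meas_slice2 (hA.inter (Complex.measurable_im (measurableSet_Ioo (a := (-3 : ℝ)) (b := 3))))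
  rw [← e] at this
  exact this.ennreal_toReal.sub_const 3

lemma kk_eq (h : Low ρ A P k) : ∀ᵐ x : ℝ, x ∈ Ioo (-1 : ℝ) 1 → x ∉ Bd (ρ ^ 2) A →
    ∀ᵐ t : ℝ, t ∈ Ioo (-3 : ℝ) 3 → ((⟨x, t⟩ : ℂ) ∈ A ↔ t < kk A x) := by
  filter_upwards [h.good] with x hx h1 h2
  obtain ⟨k', hk', hk2⟩ := hx h1 h2
  have : kk A x = k' := by
    unfold kk
    have e : volume ({y : ℝ | (⟨x, y⟩ : ℂ) ∈ A} ∩ Ioo (-3) 3) = volume (Ioo (-3) k') := by
      apply measure_congr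
      have hne : ∀ᵐ t : ℝ, t ≠ -3 := by rw [ae_iff]; simp
      filter_upwards [hk2] with t ht
      apply propext
      change ((⟨x, t⟩ : ℂ) ∈ A ∧ t ∈ Ioo (-3) 3) ↔ (-3 < t ∧ t < k')
      constructor
      · rintro ⟨h3, h4⟩
        exact ⟨h4.1, (ht h4).1 h3⟩
      · rintro ⟨h3, h4⟩
        have h5 : t ∈ Ioo (-3 : ℝ) 3 := ⟨h3, h4.trans hk'.2⟩
        exact ⟨(ht h5).2 h4, h5⟩
    rw [e, Real.volume_Ioo, ENNReal.toReal_ofReal (by linarith [hk'.1])]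
    ring
  rw [this]
  exact hk2

/-- The exceptional set is null. -/
lemma null_exc (h : Low ρ A P k) : MeasurableSet {z : ℂ | z.re ∈ Ioo (-1 : ℝ) 1 ∧
    z.re ∉ Bd (ρ ^ 2) A ∧ z.im ∈ Ioo (-3 : ℝ) 3 ∧ ¬ (z ∈ A ↔ z.im < kk A z.re)} ∧
    volume {z : ℂ | z.re ∈ Ioo (-1 : ℝ) 1 ∧
    z.re ∉ Bd (ρ ^ 2) A ∧ z.im ∈ Ioo (-3 : ℝ) 3 ∧ ¬ (z ∈ A ↔ z.im < kk A z.re)} = 0 := by
  have hm : MeasurableSet {z : ℂ | z.re ∈ Ioo (-1 : ℝ) 1 ∧
    z.re ∉ Bd (ρ ^ 2) A ∧ z.im ∈ Ioo (-3 : ℝ) 3 ∧ ¬ (z ∈ A ↔ z.im < kk A z.re)} := by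
    have m1 : MeasurableSet {z : ℂ | z.im < kk A z.re} :=
      measurableSet_lt Complex.measurable_im ((kk_meas h.meas).comp Complex.measurable_re)
    have m2 : MeasurableSet {z : ℂ | z.re ∈ Bd (ρ ^ 2) A} :=
      Complex.measurable_re (Bd_meas _ h.meas)
    have e : {z : ℂ | z.re ∈ Ioo (-1 : ℝ) 1 ∧
        z.re ∉ Bd (ρ ^ 2) A ∧ z.im ∈ Ioo (-3 : ℝ) 3 ∧ ¬ (z ∈ A ↔ z.im < kk A z.re)} =
        (Complex.re ⁻¹' Ioo (-1 : ℝ) 1) ∩ ({z : ℂ | z.re ∈ Bd (ρ ^ 2) A}ᶜ ∩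
        ((Complex.im ⁻¹' Ioo (-3 : ℝ) 3) ∩ symmDiff A {z : ℂ | z.im < kk A z.re})) := by
      ext z
      simp only [mem_ofPred_eq, mem_inter_iff, mem_preimage, mem_compl_iff, mem_symmDiff]
      tauto
    rw [e]
    exact (Complex.measurable_re measurableSet_Ioo).inter
      (m2.compl.inter ((Complex.measurable_im measurableSet_Ioo).inter (h.meas.symmDiff m1)))
  refine ⟨hm, ?_⟩
  rw [null2 hm]
  filter_upwards [h.kk_eq] with x hx
  by_cases h1 : x ∈ Ioo (-1 : ℝ) 1 ∧ x ∉ Bd (ρ ^ 2) A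
  · have h2 := ae_iff.1 (hx h1.1 h1.2)
    refine measure_mono_null (fun y hy => ?_) h2
    rw [mem_ofPred_eq, Classical.not_imp]
    exact ⟨hy.2.2.1, hy.2.2.2⟩
  · exact measure_mono_null (t := ∅) (fun y hy => h1 ⟨hy.1, hy.2.1⟩) measure_empty

end Low

end Pool.Agent.R224.HV
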