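import Pool.Agent.R224.HV.Pl3

/-!
# The planar problem: consequences of trapping
-/

set_option autoImplicit false

open MeasureTheory Set Metric Filter Topology
open scoped ENNReal Real

noncomputable section

namespace Pool.Agent.R224.HV

open Pool.Agent.TH304.MI Pool.Agent.TH703.HU Pool.Agent.TH742.HU Pool.Agent.TH663.HU
open Pool.Agent.R224.Sl

lemma scale_null {N : Set ℂ} (hN : MeasurableSet N) (h0 : volume N = 0) :
    ∀ᵐ z : ℂ, ∀ᵐ τ : ℝ, τ ∈ Ioo (0 : ℝ) 1 → (τ : ℂ) * z ∉ N := by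
  have hm : Measurable fun p : ℂ × ℝ => (p.2 : ℂ) * p.1 := by fun_prop
  set S : Set (ℂ × ℝ) := {p | p.2 ∈ Ioo (0 : ℝ) 1 ∧ (p.2 : ℂ) * p.1 ∈ N} with hS
  have hSm : MeasurableSet S := (measurable_snd measurableSet_Ioo).inter (hm hN)
  have e1 : ∫⁻ z : ℂ, ∫⁻ τ : ℝ, S.indicator 1 (z, τ) =
      ∫⁻ τ : ℝ, ∫⁻ z : ℂ, (S.indicator 1 (z, τ) : ℝ≥0∞) :=
    lintegral_lintegral_swap (measurable_one.indicator hSm).aemeasurable
  have e2 : ∀ τ : ℝ, ∫⁻ z : ℂ, (S.indicator 1 (z, τ) : ℝ≥0∞) = 0 := by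
    intro τ
    by_cases hτ : τ ∈ Ioo (0 : ℝ) 1
    · have hs : MeasurableSet {z : ℂ | (z, τ) ∈ S} := measurable_prodMk_right hSm
      have e3 : ∫⁻ z : ℂ, (S.indicator 1 (z, τ) : ℝ≥0∞) = volume {z : ℂ | (z, τ) ∈ S} := by
        rw [← lintegral_indicator_one hs]
        rfl
      rw [e3]
      have e4 : {z : ℂ | (z, τ) ∈ S} ⊆ (fun z : ℂ => τ • z) ⁻¹' N := by
        intro z hz
        have := hz.2
        change τ • z ∈ N
        rwa [Complex.real_smul]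
      refine measure_mono_null e4 ?_
      rw [Measure.addHaar_preimage_smul volume hτ.1.ne', h0, mul_zero]
    · have : ∀ z : ℂ, (S.indicator 1 (z, τ) : ℝ≥0∞) = 0 := fun z =>
        indicator_of_notMem (fun h => hτ h.1) _
      simp_rw [this]
      simp
  simp_rw [e2] at e1
  rw [lintegral_zero, lintegral_eq_zero_iff
    (measurable_one.indicator hSm).lintegral_prod_right'] at e1
  filter_upwards [e1] with z hz
  have h1 : Measurable fun τ : ℝ => (S.indicator 1 (z, τ) : ℝ≥0∞) :=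
    (measurable_one.indicator hSm).comp measurable_prodMk_left
  have hz' : ∫⁻ τ : ℝ, (S.indicator 1 (z, τ) : ℝ≥0∞) = 0 := hz
  rw [lintegral_eq_zero_iff h1] at hz'
  filter_upwards [hz'] with τ hτ hτ1 hτ2
  have : (z, τ) ∈ S := ⟨hτ1, hτ2⟩
  rw [indicator_of_mem this] at hτ
  simp at hτ

namespace Low

variable {ρ P k : ℝ} {A : Set ℂ}

lemma XR_vol (h : Low ρ A P k) {c : ℝ} (hc0 : 0 < c)
    (hX : c * ma (ρ ^ 2) RR ≤ ma (ρ ^ 2) (XR A)) :
    0 < volume (XR A \ {z : ℂ | z ∈ RR ∧ |z.re| < c / 2}) := by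
  have hXm := XR_meas h.meas
  have hXs : XR A ⊆ RR := fun z hz => hz.1
  have htot : 21 / 2 ≤ ma (ρ ^ 2) RR := by
    have := ma_ge h.κ0 h.κ1 (Subset.refl RR) isOpen_RR.measurableSet (v := 12) (by rw [vol_RR])
    linarith
  have hfin : volume (XR A) ≠ ⊤ := ((measure_mono hXs).trans_lt vol_RR_lt).ne
  have h1 : ma (ρ ^ 2) (XR A) ≤ (volume (XR A)).toReal :=
    ma_le hXs hXm ENNReal.toReal_nonneg (by rw [ENNReal.ofReal_toReal hfin])
  have h2 : c * (21 / 2) ≤ (volume (XR A)).toReal :=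
    (mul_le_mul_of_nonneg_left htot hc0.le).trans (hX.trans h1)
  have hstrip : volume {z : ℂ | z ∈ RR ∧ |z.re| < c / 2} ≤ ENNReal.ofReal (6 * c) := by
    have hm : MeasurableSet {z : ℂ | z ∈ RR ∧ |z.re| < c / 2} :=
      isOpen_RR.measurableSet.inter
        (measurableSet_lt Complex.continuous_re.abs.measurable measurable_const)
    rw [vol2 hm]
    calc _ ≤ ∫⁻ x : ℝ, (Ioo (-(c / 2)) (c / 2)).indicator (fun _ => ENNReal.ofReal 6) x := by
          refine lintegral_mono fun x => ?_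
          by_cases hx : x ∈ Ioo (-(c / 2)) (c / 2)
          · rw [indicator_of_mem hx]
            calc volume {y : ℝ | (⟨x, y⟩ : ℂ) ∈ {z : ℂ | z ∈ RR ∧ |z.re| < c / 2}} ≤
                  volume (Ioo (-3 : ℝ) 3) := measure_mono fun y hy => (mem_RR.1 hy.1).2
              _ = _ := by rw [Real.volume_Ioo]; norm_num
          · rw [indicator_of_notMem hx]
            refine le_of_eq (measure_mono_null (t := ∅) (fun y hy => hx ?_) measure_empty)
            exact abs_lt.1 hy.2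
      _ = ENNReal.ofReal (6 * c) := by
          rw [lintegral_indicator measurableSet_Ioo, setLIntegral_const, Real.volume_Ioo,
            ← ENNReal.ofReal_mul (by norm_num)]
          congr 1; ring
  have h3 : ENNReal.ofReal (c * (21 / 2)) ≤ volume (XR A) := by
    rw [← ENNReal.ofReal_toReal hfin]
    exact ENNReal.ofReal_le_ofReal h2
  by_contra hcon
  have hz : volume (XR A \ {z : ℂ | z ∈ RR ∧ |z.re| < c / 2}) = 0 := by simpa using hcon
  have h4 : volume (XR A) ≤ ENNReal.ofReal (6 * c) := by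
    calc volume (XR A) ≤ volume (XR A \ {z : ℂ | z ∈ RR ∧ |z.re| < c / 2}) +
          volume {z : ℂ | z ∈ RR ∧ |z.re| < c / 2} := by
          refine le_trans (measure_mono fun z hz => ?_) (measure_union_le _ _)
          by_cases hs : z ∈ {z : ℂ | z ∈ RR ∧ |z.re| < c / 2}
          · exact Or.inr hs
          · exact Or.inl ⟨hz, hs⟩
      _ ≤ _ := by rw [hz, zero_add]; exact hstrip
  have h5 := h3.trans h4
  rw [ENNReal.ofReal_le_ofReal_iff (by positivity)] at h5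
  linarith

/-- abscissas with high slices -/
def S1 (ρ : ℝ) (A : Set ℂ) (ℓ : ℝ) : Set ℝ := {x | x ∈ Ioo (-ℓ) ℓ ∧ x ∉ Bd (ρ ^ 2) A ∧ -ℓ < kk A x}

/-- abscissas with low slices -/
def S2 (ρ : ℝ) (A : Set ℂ) (ℓ : ℝ) : Set ℝ := {x | x ∈ Ioo (-ℓ) ℓ ∧ x ∉ Bd (ρ ^ 2) A ∧ kk A x < ℓ}

lemma S1_meas (h : Low ρ A P k) (ℓ : ℝ) : MeasurableSet (S1 ρ A ℓ) :=
  measurableSet_Ioo.inter ((Bd_meas _ h.meas).compl.inter
    (measurableSet_lt measurable_const (kk_meas h.meas)))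

lemma S2_meas (h : Low ρ A P k) (ℓ : ℝ) : MeasurableSet (S2 ρ A ℓ) :=
  measurableSet_Ioo.inter ((Bd_meas _ h.meas).compl.inter
    (measurableSet_lt (kk_meas h.meas) measurable_const))

lemma trap (h : Low ρ A P k) {c ℓ : ℝ} (hc0 : 0 < c) (hℓ : ℓ = 120 * ρ ^ 3 / c) (hℓ1 : ℓ ≤ 1)
    (hX : c * ma (ρ ^ 2) RR ≤ ma (ρ ^ 2) (XR A)) :
    0 < volume (S1 ρ A ℓ) ∧ 0 < volume (S2 ρ A ℓ) := by
  have hρ := h.ρ0
  have hℓ0 : 0 < ℓ := by rw [hℓ]; positivity
  obtain ⟨hNm, hN0⟩ := h.null_exc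
  set N : Set ℂ := {z : ℂ | z.re ∈ Ioo (-1 : ℝ) 1 ∧
    z.re ∉ Bd (ρ ^ 2) A ∧ z.im ∈ Ioo (-3 : ℝ) 3 ∧ ¬ (z ∈ A ↔ z.im < kk A z.re)} with hN
  have hN' : MeasurableSet ((fun z : ℂ => -z) ⁻¹' N) := measurable_neg hNm
  have hN0' : volume ((fun z : ℂ => -z) ⁻¹' N) = 0 := by
    rw [(Measure.measurePreserving_neg (volume : Measure ℂ)).measure_preimage
      hNm.nullMeasurableSet]
    exact hN0
  have hfr : ∃ᶠ z in ae (volume : Measure ℂ), z ∈ XR A \ {z : ℂ | z ∈ RR ∧ |z.re| < c / 2} := by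
    rw [frequently_ae_mem_iff]
    exact (h.XR_vol hc0 hX).ne'
  obtain ⟨z, ⟨hz1, hz2⟩, hz3, hz4⟩ := (hfr.and_eventually ((scale_null hNm hN0).and
    (scale_null hN' hN0'))).exists
  have hzR := hz1.1
  have hzG := GG_zero h.meas hz1.2
  have hx1 : c / 2 ≤ |z.re| := by
    by_contra hcon
    push Not at hcon
    exact hz2 ⟨hzR, hcon⟩
  have hxne : z.re ≠ 0 := by
    intro h0
    rw [h0, abs_zero] at hx1
    linarith
  have hre : |z.re| < 1 := hzR.1
  have him : |z.im| < 3 := hzR.2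
  -- the good parameters
  set Θ : Set ℝ := {τ | τ ∈ Ioo (0 : ℝ) (ℓ / 3) ∧ τ * z.re ∉ Bd (ρ ^ 2) A ∧
    τ * (-z.re) ∉ Bd (ρ ^ 2) A} with hΘ
  have hΘpos : 0 < volume Θ := by
    by_contra hcon
    have hz0 : volume Θ = 0 := by simpa using hcon
    have b1 : ∀ a : ℝ, a ≠ 0 → c / 2 ≤ |a| → volume ((fun τ : ℝ => τ * a) ⁻¹' Bd (ρ ^ 2) A) ≤
        ENNReal.ofReal (10 * ρ ^ 3 / c) := by
      intro a ha hca
      rw [Real.volume_preimage_mul_right ha]
      calc ENNReal.ofReal |a⁻¹| * volume (Bd (ρ ^ 2) A) ≤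
            ENNReal.ofReal (2 / c) * ENNReal.ofReal (5 * ρ ^ 3) := by
            gcongr
            · rw [abs_inv]
              rw [show (2 / c : ℝ) = (c / 2)⁻¹ by rw [inv_div]]
              exact inv_anti₀ (by positivity) hca
            · exact h.Bd_le'
        _ = _ := by
            rw [← ENNReal.ofReal_mul (by positivity)]
            congr 1; ring
    have b2 : volume (Ioo (0 : ℝ) (ℓ / 3)) ≤
        ENNReal.ofReal (10 * ρ ^ 3 / c) + ENNReal.ofReal (10 * ρ ^ 3 / c) := by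
      calc volume (Ioo (0 : ℝ) (ℓ / 3)) ≤ volume Θ +
            (volume ((fun τ : ℝ => τ * z.re) ⁻¹' Bd (ρ ^ 2) A) +
              volume ((fun τ : ℝ => τ * (-z.re)) ⁻¹' Bd (ρ ^ 2) A)) := by
            refine le_trans (measure_mono fun τ hτ => ?_)
              ((measure_union_le _ _).trans (add_le_add le_rfl (measure_union_le _ _)))
            by_cases h1 : τ * z.re ∈ Bd (ρ ^ 2) A
            · exact Or.inr (Or.inl h1)
            by_cases h2 : τ * (-z.re) ∈ Bd (ρ ^ 2) A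
            · exact Or.inr (Or.inr h2)
            exact Or.inl ⟨hτ, h1, h2⟩
        _ ≤ _ := by
            rw [hz0, zero_add]
            exact add_le_add (b1 _ hxne hx1) (b1 _ (neg_ne_zero.2 hxne) (by rwa [abs_neg]))
    rw [Real.volume_Ioo, ← ENNReal.ofReal_add (by positivity) (by positivity),
      ENNReal.ofReal_le_ofReal_iff (by positivity), hℓ] at b2
    have b3 : 0 < ρ ^ 3 / c := by positivity
    have b4 : 120 * ρ ^ 3 / c / 3 - 0 = 40 * (ρ ^ 3 / c) := by ring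
    have b5 : 10 * ρ ^ 3 / c + 10 * ρ ^ 3 / c = 20 * (ρ ^ 3 / c) := by ring
    rw [b4, b5] at b2
    linarith
  -- for almost all good parameters
  have key : ∀ᵐ τ : ℝ, τ ∈ Θ → τ * z.re ∈ S1 ρ A ℓ ∧ τ * (-z.re) ∈ S2 ρ A ℓ := by
    filter_upwards [hz3, hz4, hzG] with τ t1 t2 t3 hτ
    obtain ⟨hτ0, hτB, hτB'⟩ := hτ
    have hτ1 : τ ∈ Ioo (0 : ℝ) 1 := ⟨hτ0.1, by linarith [hτ0.2]⟩
    have t1 := t1 hτ1
    have t2 := t2 hτ1
    obtain ⟨t3, t4⟩ := t3 hτ1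
    have e1 : ((τ : ℂ) * z).re = τ * z.re := by simp
    have e2 : ((τ : ℂ) * z).im = τ * z.im := by simp
    have e3 : (-((τ : ℂ) * z)).re = τ * (-z.re) := by simp
    have e4 : (-((τ : ℂ) * z)).im = τ * (-z.im) := by simp
    have hτp := hτ0.1
    have a1 : |τ * z.re| < ℓ := by
      rw [abs_mul, abs_of_pos hτp]
      calc τ * |z.re| ≤ τ * 1 := mul_le_mul_of_nonneg_left hre.le hτp.le
        _ < ℓ := by linarith [hτ0.2]
    have a2 : |τ * z.im| < ℓ := by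
      rw [abs_mul, abs_of_pos hτp]
      calc τ * |z.im| ≤ τ * 3 := mul_le_mul_of_nonneg_left him.le hτp.le
        _ < ℓ := by linarith [hτ0.2]
    have a1' : |τ * (-z.re)| < ℓ := by rwa [mul_neg, abs_neg]
    have a2' : |τ * (-z.im)| < ℓ := by rwa [mul_neg, abs_neg]
    have c1 : ((τ : ℂ) * z ∈ A ↔ τ * z.im < kk A (τ * z.re)) := by
      by_contra hcon
      apply t1
      refine ⟨?_, ?_, ?_, ?_⟩
      · rw [e1]
        exact abs_lt.1 (a1.trans_le hℓ1)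
      · rw [e1]; exact hτB
      · rw [e2]
        have := abs_lt.1 a2
        exact ⟨by linarith [this.1], by linarith [this.2]⟩
      · rw [e1, e2]; exact hcon
    have c2 : (-((τ : ℂ) * z) ∈ A ↔ τ * (-z.im) < kk A (τ * (-z.re))) := by
      by_contra hcon
      apply t2
      refine ⟨?_, ?_, ?_, ?_⟩
      · simp only [e3]
        exact abs_lt.1 (a1'.trans_le hℓ1)
      · simp only [e3]; exact hτB'
      · simp only [e4]
        have := abs_lt.1 a2'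
        exact ⟨by linarith [this.1], by linarith [this.2]⟩
      · simp only [e3, e4]; exact hcon
    refine ⟨⟨abs_lt.1 a1, hτB, ?_⟩, ⟨abs_lt.1 a1', hτB', ?_⟩⟩
    · have := c1.1 t3
      linarith [(abs_lt.1 a2).1]
    · have : ¬ (τ * (-z.im) < kk A (τ * (-z.re))) := fun h5 => t4 (c2.2 h5)
      push Not at this
      exact this.trans_lt (abs_lt.1 a2').2
  have fin : ∀ (a : ℝ) (S : Set ℝ), a ≠ 0 → (∀ᵐ τ : ℝ, τ ∈ Θ → τ * a ∈ S) → 0 < volume S := by
    intro a S ha hae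
    by_contra hcon
    have hS0 : volume S = 0 := by simpa using hcon
    have h1 : volume ((fun τ : ℝ => τ * a) ⁻¹' S) = 0 := by
      rw [Real.volume_preimage_mul_right ha, hS0, mul_zero]
    have h2 : volume Θ ≤ volume ((fun τ : ℝ => τ * a) ⁻¹' S) := measure_mono_ae hae
    rw [h1] at h2
    exact absurd hΘpos (not_lt.2 h2)
  exact ⟨fin _ _ hxne (by filter_upwards [key] with τ hτ h1 using (hτ h1).1),
    fin _ _ (neg_ne_zero.2 hxne) (by filter_upwards [key] with τ hτ h1 using (hτ h1).2)⟩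

/-- Below `-ℓ` almost all horizontal slices meet `A` near the axis. -/
lemma trap1 (h : Low ρ A P k) {ℓ : ℝ} (hℓ0 : 0 < ℓ) (hℓ1 : ℓ ≤ 1) (h1 : 0 < volume (S1 ρ A ℓ)) :
    ∀ᵐ t : ℝ, t ∈ Ioo (-3 : ℝ) (-ℓ) → 0 < volume ({x : ℝ | (⟨x, t⟩ : ℂ) ∈ A} ∩ Ioo (-ℓ) ℓ) := by
  set N : Set ℂ := {z | z.re ∈ S1 ρ A ℓ ∧ z.im ∈ Ioo (-3 : ℝ) (-ℓ) ∧ z ∉ A} with hN
  have hNm : MeasurableSet N :=
    (Complex.measurable_re (h.S1_meas ℓ)).inter ((Complex.measurable_im measurableSet_Ioo).inter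
      h.meas.compl)
  have hN0 : volume N = 0 := by
    rw [null2 hNm]
    filter_upwards [h.kk_eq] with x hx
    by_cases hxS : x ∈ S1 ρ A ℓ
    · have hxI : x ∈ Ioo (-1 : ℝ) 1 := ⟨by linarith [hxS.1.1], by linarith [hxS.1.2]⟩
      refine measure_mono_null (fun y hy => ?_) (ae_iff.1 (hx hxI hxS.2.1))
      rw [mem_ofPred_eq, Classical.not_imp]
      have hy2 : y ∈ Ioo (-3 : ℝ) (-ℓ) := hy.2.1
      refine ⟨⟨hy2.1, by linarith [hy2.2]⟩, fun h3 => hy.2.2 (h3.2 ?_)⟩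
      exact hy2.2.trans hxS.2.2
    · exact measure_mono_null (t := ∅) (fun y hy => hxS hy.1) measure_empty
  filter_upwards [(null1 hNm).1 hN0] with t ht htI
  by_contra hcon
  have hz : volume ({x : ℝ | (⟨x, t⟩ : ℂ) ∈ A} ∩ Ioo (-ℓ) ℓ) = 0 := by simpa using hcon
  have : volume (S1 ρ A ℓ) ≤ 0 := by
    calc volume (S1 ρ A ℓ) ≤ volume ({x : ℝ | (⟨x, t⟩ : ℂ) ∈ A} ∩ Ioo (-ℓ) ℓ) +
          volume {x : ℝ | (⟨x, t⟩ : ℂ) ∈ N} := by
          refine le_trans (measure_mono fun x hx => ?_) (measure_union_le _ _)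
          by_cases hxA : (⟨x, t⟩ : ℂ) ∈ A
          · exact Or.inl ⟨hxA, hx.1⟩
          · exact Or.inr ⟨hx, htI, hxA⟩
      _ = 0 := by rw [hz, ht, add_zero]
  exact absurd h1 (not_lt.2 this)

/-- Above `ℓ` almost all horizontal slices miss a part near the axis. -/
lemma trap2 (h : Low ρ A P k) {ℓ : ℝ} (hℓ0 : 0 < ℓ) (hℓ1 : ℓ ≤ 1) (h1 : 0 < volume (S2 ρ A ℓ)) :
    ∀ᵐ t : ℝ, t ∈ Ioo ℓ 3 → 0 < volume (Ioo (-ℓ) ℓ \ {x : ℝ | (⟨x, t⟩ : ℂ) ∈ A}) := by
  set N : Set ℂ := {z | z.re ∈ S2 ρ A ℓ ∧ z.im ∈ Ioo ℓ 3 ∧ z ∈ A} with hN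
  have hNm : MeasurableSet N :=
    (Complex.measurable_re (h.S2_meas ℓ)).inter ((Complex.measurable_im measurableSet_Ioo).inter
      h.meas)
  have hN0 : volume N = 0 := by
    rw [null2 hNm]
    filter_upwards [h.kk_eq] with x hx
    by_cases hxS : x ∈ S2 ρ A ℓ
    · have hxI : x ∈ Ioo (-1 : ℝ) 1 := ⟨by linarith [hxS.1.1], by linarith [hxS.1.2]⟩
      refine measure_mono_null (fun y hy => ?_) (ae_iff.1 (hx hxI hxS.2.1))
      rw [mem_ofPred_eq, Classical.not_imp]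
      have hy2 : y ∈ Ioo ℓ 3 := hy.2.1
      refine ⟨⟨by linarith [hy2.1], hy2.2⟩, fun h3 => ?_⟩
      have := h3.1 hy.2.2
      linarith [hy2.1, hxS.2.2]
    · exact measure_mono_null (t := ∅) (fun y hy => hxS hy.1) measure_empty
  filter_upwards [(null1 hNm).1 hN0] with t ht htI
  by_contra hcon
  have hz : volume (Ioo (-ℓ) ℓ \ {x : ℝ | (⟨x, t⟩ : ℂ) ∈ A}) = 0 := by simpa using hcon
  have : volume (S2 ρ A ℓ) ≤ 0 := by
    calc volume (S2 ρ A ℓ) ≤ volume (Ioo (-ℓ) ℓ \ {x : ℝ | (⟨x, t⟩ : ℂ) ∈ A}) +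
          volume {x : ℝ | (⟨x, t⟩ : ℂ) ∈ N} := by
          refine le_trans (measure_mono fun x hx => ?_) (measure_union_le _ _)
          by_cases hxA : (⟨x, t⟩ : ℂ) ∈ A
          · exact Or.inr ⟨hx, htI, hxA⟩
          · exact Or.inl ⟨hx.1, hxA⟩
      _ = 0 := by rw [hz, ht, add_zero]
  exact absurd h1 (not_lt.2 this)

end Low

end Pool.Agent.R224.HV
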