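import Pool.Agent.R224.HV.Pl4

/-!
# The planar problem: the final inequality
-/

set_option autoImplicit false

open MeasureTheory Set Metric Filter Topology
open scoped ENNReal Real

noncomputable section

namespace Pool.Agent.R224.HV

open Pool.Agent.TH304.MI Pool.Agent.TH703.HU Pool.Agent.TH742.HU Pool.Agent.TH663.HU
open Pool.Agent.R224.Sl

/-- the slope field -/
def sf (κ ℓ x : ℝ) : ℝ := κ * max 0 (1 / 8 + 2 * ℓ - |x|)

/-- the vertical factor -/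
def qf (κ ℓ x : ℝ) : ℝ := 1 - (sf κ ℓ x ^ 2 / 2 + sf κ ℓ x ^ 4 / 2)

lemma sf_cont (κ ℓ : ℝ) : Continuous (sf κ ℓ) := by unfold sf; fun_prop

lemma qf_cont (κ ℓ : ℝ) : Continuous (qf κ ℓ) := by
  unfold qf
  have := sf_cont κ ℓ
  fun_prop

section
variable {κ ℓ : ℝ} (hκ0 : 0 ≤ κ) (hκ1 : κ ≤ 1) (hℓ0 : 0 ≤ ℓ) (hℓ1 : ℓ ≤ 1 / 8)
include hκ0

lemma sf_nonneg (x : ℝ) : 0 ≤ sf κ ℓ x := mul_nonneg hκ0 (le_max_left _ _)

include hκ1 hℓ0 hℓ1

lemma sf_le (x : ℝ) : sf κ ℓ x ≤ 1 := by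
  unfold sf
  have h1 : max 0 (1 / 8 + 2 * ℓ - |x|) ≤ 1 :=
    max_le zero_le_one (by have := abs_nonneg x; linarith)
  calc κ * max 0 (1 / 8 + 2 * ℓ - |x|) ≤ 1 * 1 :=
        mul_le_mul hκ1 h1 (le_max_left _ _) zero_le_one
    _ = 1 := one_mul 1

lemma sf_le' (x : ℝ) : sf κ ℓ x ≤ κ := by
  unfold sf
  have h1 : max 0 (1 / 8 + 2 * ℓ - |x|) ≤ 1 :=
    max_le zero_le_one (by have := abs_nonneg x; linarith)
  calc κ * max 0 (1 / 8 + 2 * ℓ - |x|) ≤ κ * 1 := mul_le_mul_of_nonneg_left h1 hκ0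
    _ = κ := mul_one κ

lemma qf_le (x : ℝ) : qf κ ℓ x ≤ 1 := by
  unfold qf
  have := sq_nonneg (sf κ ℓ x)
  have := sq_nonneg (sf κ ℓ x ^ 2)
  nlinarith

lemma qf_nonneg (x : ℝ) : 0 ≤ qf κ ℓ x := by
  unfold qf
  have h0 := sf_nonneg (ℓ := ℓ) hκ0 x
  have h1 := sf_le hκ0 hκ1 hℓ0 hℓ1 x
  have h2 : sf κ ℓ x ^ 2 ≤ 1 := pow_le_one₀ h0 h1
  have h3 : sf κ ℓ x ^ 4 ≤ 1 := pow_le_one₀ h0 h1
  linarith

lemma sq_sum (x : ℝ) : sf κ ℓ x ^ 2 + qf κ ℓ x ^ 2 ≤ 1 := by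
  unfold qf
  have h0 := sf_nonneg (ℓ := ℓ) hκ0 x
  have h1 := sf_le hκ0 hκ1 hℓ0 hℓ1 x
  set s := sf κ ℓ x
  have h2 : s ^ 2 ≤ 1 := pow_le_one₀ h0 h1
  have h3 : s ^ 2 + (1 - (s ^ 2 / 2 + s ^ 4 / 2)) ^ 2 = 1 - s ^ 4 * (1 - ((1 + s ^ 2) / 2) ^ 2) := by
    ring
  rw [h3]
  have h4 : ((1 + s ^ 2) / 2) ^ 2 ≤ 1 := pow_le_one₀ (by positivity) (by linarith)
  have h5 : 0 ≤ s ^ 4 * (1 - ((1 + s ^ 2) / 2) ^ 2) := mul_nonneg (by positivity) (by linarith)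
  linarith

lemma one_sub_qf (x : ℝ) : 1 - qf κ ℓ x ≤ (1 + κ ^ 2) / 2 * κ ^ 2 *
    (max 0 (1 / 8 + 2 * ℓ - |x|)) ^ 2 := by
  unfold qf
  have h0 := sf_nonneg (ℓ := ℓ) hκ0 x
  have h1 := sf_le' hκ0 hκ1 hℓ0 hℓ1 x
  have h2 : sf κ ℓ x ^ 2 ≤ κ ^ 2 := pow_le_pow_left₀ h0 h1 2
  have h3 : 0 ≤ sf κ ℓ x ^ 2 := sq_nonneg _
  have h4 : (1 + κ ^ 2) / 2 * κ ^ 2 * (max 0 (1 / 8 + 2 * ℓ - |x|)) ^ 2 =
      (1 + κ ^ 2) / 2 * sf κ ℓ x ^ 2 := by
    unfold sf; ring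
  rw [h4]
  nlinarith

end

/-- `∫ (W - |x|)_+^2 = 2 W^3 / 3` -/
lemma int_tent {W : ℝ} (h0 : 0 ≤ W) (h1 : W ≤ 1) :
    ∫ x in Ioo (-1 : ℝ) 1, (max 0 (W - |x|)) ^ 2 ≤ 2 * W ^ 3 / 3 := by
  have hc : Continuous fun x : ℝ => (max 0 (W - |x|)) ^ 2 := by fun_prop
  rw [← integral_Ioc_eq_integral_Ioo, ← intervalIntegral.integral_of_le (by norm_num)]
  have ii : ∀ a b : ℝ, IntervalIntegrable (fun x : ℝ => (max 0 (W - |x|)) ^ 2) volume a b :=
    fun a b => hc.intervalIntegrable a b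
  rw [← intervalIntegral.integral_add_adjacent_intervals (ii (-1) 0) (ii 0 1),
    ← intervalIntegral.integral_add_adjacent_intervals (ii (-1) (-W)) (ii (-W) 0),
    ← intervalIntegral.integral_add_adjacent_intervals (ii 0 W) (ii W 1)]
  have e1 : ∫ x in (-1 : ℝ)..(-W), (max 0 (W - |x|)) ^ 2 = 0 := by
    rw [intervalIntegral.integral_congr (g := fun _ => (0 : ℝ)) (fun x hx => ?_)]
    · simp
    · rw [uIcc_of_le (by linarith)] at hx
      have : W ≤ |x| := by rw [abs_of_nonpos (by linarith [hx.2])]; linarith [hx.2]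
      simp only
      rw [max_eq_left (by linarith)]; ring
  have e2 : ∫ x in W..1, (max 0 (W - |x|)) ^ 2 = 0 := by
    rw [intervalIntegral.integral_congr (g := fun _ => (0 : ℝ)) (fun x hx => ?_)]
    · simp
    · rw [uIcc_of_le (by linarith)] at hx
      have : W ≤ |x| := by rw [abs_of_nonneg (by linarith [hx.1])]; linarith [hx.1]
      simp only
      rw [max_eq_left (by linarith)]; ring
  have e3 : ∫ x in (-W)..0, (max 0 (W - |x|)) ^ 2 = W ^ 3 / 3 := by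
    rw [intervalIntegral.integral_congr (g := fun x => (W + x) ^ 2) (fun x hx => ?_)]
    · have : ∫ x in (-W)..0, (W + x) ^ 2 = ∫ x in (W + -W)..(W + 0), x ^ 2 := by
        rw [← intervalIntegral.integral_comp_add_left (fun x => x ^ 2) W]
      rw [this, integral_pow]
      norm_num
    · rw [uIcc_of_le (by linarith)] at hx
      simp only
      rw [abs_of_nonpos hx.2, max_eq_right (by linarith [hx.1])]
      ring
  have e4 : ∫ x in (0 : ℝ)..W, (max 0 (W - |x|)) ^ 2 = W ^ 3 / 3 := by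
    rw [intervalIntegral.integral_congr (g := fun x => (W - x) ^ 2) (fun x hx => ?_)]
    · have : ∫ x in (0 : ℝ)..W, (W - x) ^ 2 = ∫ x in (W - W)..(W - 0), x ^ 2 := by
        rw [← intervalIntegral.integral_comp_sub_left (fun x => x ^ 2) W]
      rw [this, integral_pow]
      norm_num
    · rw [uIcc_of_le h0] at hx
      simp only
      rw [abs_of_nonneg hx.1, max_eq_right (by linarith [hx.2])]
  rw [e1, e2, e3, e4]
  linarith

namespace Low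

variable {ρ P k : ℝ} {A : Set ℂ}

/-- the region counted by the horizontal slices -/
def WW (A : Set ℂ) (ℓ : ℝ) : Set ℂ := {z | z.re ∈ Ioo (-(1 / 8) : ℝ) (1 / 8) ∧
  ((z.im ∈ Ioo ℓ 3 ∧ z ∈ A) ∨ (z.im ∈ Ioo (-3 : ℝ) (-ℓ) ∧ z ∉ A))}

lemma WW_meas (h : Low ρ A P k) (ℓ : ℝ) : MeasurableSet (WW A ℓ) :=
  (Complex.measurable_re measurableSet_Ioo).inter
    (((Complex.measurable_im measurableSet_Ioo).inter h.meas).union
      ((Complex.measurable_im measurableSet_Ioo).inter h.meas.compl))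

lemma horiz (h : Low ρ A P k) {ℓ : ℝ} (hℓ0 : 0 < ℓ) (hℓ1 : ℓ < 1 / 8)
    (t1 : ∀ᵐ t : ℝ, t ∈ Ioo (-3 : ℝ) (-ℓ) →
      0 < volume ({x : ℝ | (⟨x, t⟩ : ℂ) ∈ A} ∩ Ioo (-ℓ) ℓ))
    (t2 : ∀ᵐ t : ℝ, t ∈ Ioo ℓ 3 → 0 < volume (Ioo (-ℓ) ℓ \ {x : ℝ | (⟨x, t⟩ : ℂ) ∈ A})) :
    ENNReal.ofReal ((1 - 3 * ρ ^ 2) * ρ ^ 2) * volume (WW A ℓ) ≤
      ∫⁻ y in Ioo (-3 : ℝ) 3, Ev 1 (fun t => fp (ρ ^ 2) ⟨t, y⟩ * sf (ρ ^ 2) ℓ t)
        {t | (⟨t, y⟩ : ℂ) ∈ A} := by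
  have h0 := h.κ0
  have h1 := h.κ1
  have hk' : 0 ≤ (1 - 3 * ρ ^ 2) * ρ ^ 2 := mul_nonneg (by linarith) h0
  have hWm := h.WW_meas ℓ
  rw [vol1 hWm, ← lintegral_const_mul _ (meas_slice1 hWm), ← lintegral_indicator measurableSet_Ioo]
  refine lintegral_mono_ae ?_
  -- the pointwise lower bound of the weight
  have hu : ∀ y ∈ Ioo (-3 : ℝ) 3, ∀ t ∈ Icc (-(1 / 8) : ℝ) (1 / 8),
      (1 - 3 * ρ ^ 2) * ρ ^ 2 * (1 / 8 + 2 * ℓ - |t|) ≤ fp (ρ ^ 2) ⟨t, y⟩ * sf (ρ ^ 2) ℓ t := by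
    intro y hy t ht
    have ht1 : |t| ≤ 1 / 8 := abs_le.2 ht
    have hR : (⟨t, y⟩ : ℂ) ∈ RR := mem_RR.2 ⟨⟨by linarith [ht.1], by linarith [ht.2]⟩, hy⟩
    have hy1 : |y| ≤ 3 := abs_le.2 ⟨hy.1.le, hy.2.le⟩
    rw [fp_eq h0 h1 hR]
    have e1 : 1 - 3 * ρ ^ 2 ≤ ff (ρ ^ 2) ⟨t, y⟩ := by
      unfold ff
      simp only
      rw [ph_eq_one ht1]
      refine le_min (by linarith) ?_
      have := mul_le_mul_of_nonneg_left hy1 h0
      linarith
    have e2 : ρ ^ 2 * (1 / 8 + 2 * ℓ - |t|) = sf (ρ ^ 2) ℓ t := by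
      unfold sf
      rw [max_eq_right (by linarith)]
    rw [mul_assoc, e2]
    exact mul_le_mul_of_nonneg_right e1 (sf_nonneg h0 t)
  filter_upwards [t1, t2] with y hy1 hy2
  by_cases hya : y ∈ Ioo ℓ 3
  · have hyI : y ∈ Ioo (-3 : ℝ) 3 := ⟨by linarith [hya.1], hya.2⟩
    rw [indicator_of_mem hyI]
    have e : {x : ℝ | (⟨x, y⟩ : ℂ) ∈ WW A ℓ} = {t | (⟨t, y⟩ : ℂ) ∈ A} ∩ Ioo (-(1 / 8)) (1 / 8) := by
      ext x
      constructor
      · rintro ⟨h3, h4 | h4⟩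
        · exact ⟨h4.2, h3⟩
        · have h5 : y ∈ Ioo (-3 : ℝ) (-ℓ) := h4.1
          linarith [h5.2, hya.1]
      · rintro ⟨h3, h4⟩
        exact ⟨h4, Or.inl ⟨hya, h3⟩⟩
    rw [e]
    have := Ev_cal (slice1 h.meas y) hℓ1 (by norm_num) hk' (hu y hyI) (hy2 hya)
    refine le_trans (le_of_eq ?_) this
    rw [ENNReal.ofReal_mul hk', ENNReal.ofReal_toReal]
    exact (measure_lt_top_of_subset inter_subset_right (by
      rw [Real.volume_Ioo]; exact ENNReal.ofReal_ne_top)).ne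
  by_cases hyb : y ∈ Ioo (-3 : ℝ) (-ℓ)
  · have hyI : y ∈ Ioo (-3 : ℝ) 3 := ⟨hyb.1, by linarith [hyb.2]⟩
    rw [indicator_of_mem hyI]
    have e : {x : ℝ | (⟨x, y⟩ : ℂ) ∈ WW A ℓ} = Ioo (-(1 / 8)) (1 / 8) \ {t | (⟨t, y⟩ : ℂ) ∈ A} := by
      ext x
      constructor
      · rintro ⟨h3, h4 | h4⟩
        · exact absurd h4.1 hya
        · exact ⟨h3, h4.2⟩
      · rintro ⟨h3, h4⟩
        exact ⟨h3, Or.inr ⟨hyb, h4⟩⟩
    rw [e]
    have := Ev_cal' (slice1 h.meas y) hℓ1 (by norm_num) hk' (hu y hyI) (hy1 hyb)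
    refine le_trans (le_of_eq ?_) this
    rw [ENNReal.ofReal_mul hk', ENNReal.ofReal_toReal]
    exact (measure_lt_top_of_subset sdiff_subset (by
      rw [Real.volume_Ioo]; exact ENNReal.ofReal_ne_top)).ne
  · have e : {x : ℝ | (⟨x, y⟩ : ℂ) ∈ WW A ℓ} = ∅ := by
      ext x
      simp only [mem_empty_iff_false, iff_false]
      rintro ⟨h3, h4 | h4⟩
      · exact hya h4.1
      · exact hyb h4.1
    rw [e, measure_empty, mul_zero]
    exact zero_le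

/-- deviation length -/
def Dl (A : Set ℂ) (x : ℝ) : ℝ := (volume (Dv A x)).toReal

lemma Dv_fin (x : ℝ) : volume (Dv A x) ≠ ⊤ :=
  (measure_lt_top_of_subset (fun _ hy => hy.1) (by
      rw [Real.volume_Ioo]; exact ENNReal.ofReal_ne_top)).ne

lemma Dl_meas (hA : MeasurableSet A) : Measurable (Dl A) := by
  unfold Dl
  have hm : MeasurableSet {z : ℂ | z.im ∈ Ioo (-3 : ℝ) 3 ∧ ¬ (z ∈ A ↔ z.im < 0)} := by
    have m1 : MeasurableSet {z : ℂ | z.im < 0} :=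
      measurableSet_lt Complex.measurable_im measurable_const
    have e : {z : ℂ | z.im ∈ Ioo (-3 : ℝ) 3 ∧ ¬ (z ∈ A ↔ z.im < 0)} =
        (Complex.im ⁻¹' Ioo (-3 : ℝ) 3) ∩ symmDiff A {z : ℂ | z.im < 0} := by
      ext z
      simp only [mem_ofPred_eq, mem_inter_iff, mem_preimage, mem_symmDiff]
      tauto
    rw [e]
    exact (Complex.measurable_im measurableSet_Ioo).inter (hA.symmDiff m1)
  exact (meas_slice2 hm).ennreal_toReal

lemma Dl_nonneg (A : Set ℂ) (x : ℝ) : 0 ≤ Dl A x := ENNReal.toReal_nonneg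

lemma Dl_le6 (x : ℝ) : Dl A x ≤ 6 := by
  unfold Dl
  refine ENNReal.toReal_le_of_le_ofReal (by norm_num) ?_
  calc volume (Dv A x) ≤ volume (Ioo (-3 : ℝ) 3) := measure_mono fun y hy => hy.1
    _ = _ := by rw [Real.volume_Ioo]; norm_num

lemma Dl_le (h : Low ρ A P k) : ∀ᵐ x : ℝ, x ∈ Ioo (-1 : ℝ) 1 → Dl A x ≤ 14 * ρ := by
  have hρ := h.ρ0
  filter_upwards [h.D_le] with x hx hxI
  exact ENNReal.toReal_le_of_le_ofReal (by positivity) (hx hxI)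

lemma Dl_int (hA : MeasurableSet A) (a b : ℝ) : IntegrableOn (Dl A) (Ioo a b) := by
  refine Integrable.mono' (g := fun _ => (6 : ℝ)) (integrableOn_const (by simp))
    (Dl_meas hA).aestronglyMeasurable (Eventually.of_forall fun x => ?_)
  rw [Real.norm_eq_abs, abs_of_nonneg (Dl_nonneg A x)]
  exact Dl_le6 x

lemma vert (h : Low ρ A P k) {ℓ : ℝ} (hℓ0 : 0 < ℓ) (hℓ1 : ℓ < 1 / 8) :
    ENNReal.ofReal (∫ x in Ioo (-1 : ℝ) 1, qf (ρ ^ 2) ℓ x * min (ph x) (1 - ρ ^ 2 * Dl A x)) ≤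
      ∫⁻ x in Ioo (-1 : ℝ) 1, Ev 3 (fun t => fp (ρ ^ 2) ⟨x, t⟩ * qf (ρ ^ 2) ℓ x)
        {t | (⟨x, t⟩ : ℂ) ∈ A} := by
  have h0 := h.κ0
  have h1 := h.κ1
  have hq0 : ∀ x, 0 ≤ qf (ρ ^ 2) ℓ x := qf_nonneg h0 (by linarith) hℓ0.le hℓ1.le
  have hmin0 : ∀ x ∈ Ioo (-1 : ℝ) 1, 0 ≤ min (ph x) (1 - ρ ^ 2 * Dl A x) := fun x hx => by
    refine le_min (le_trans (by norm_num) (ph_ge (abs_le.2 ⟨hx.1.le, hx.2.le⟩))) ?_
    have := mul_le_mul_of_nonneg_left (Dl_le6 (A := A) x) h0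
    linarith
  rw [ofReal_integral_eq_lintegral_ofReal]
  · refine lintegral_mono_ae ?_
    refine (ae_restrict_iff' measurableSet_Ioo).2 ?_
    filter_upwards [nontriv h.toHyp] with x hx hxI
    have hDD : volume (Dv A x) = ENNReal.ofReal (Dl A x) := (ENNReal.ofReal_toReal (Dv_fin x)).symm
    refine Ev_vert (slice2 h.meas x) (q := qf (ρ ^ 2) ℓ x) (p := ph x)
      (κ := ρ ^ 2) (D := Dl A x) (hq0 x) h0 (fun t ht => ?_) (hx hxI).1 (hx hxI).2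
      ((measure_mono fun y hy => ?_).trans hDD.le) ((measure_mono fun y hy => ?_).trans hDD.le)
      (Dl_nonneg A x)
    · rw [fp_eq h0 h1 (mem_RR.2 ⟨hxI, ht⟩), mul_comm]
      rfl
    · exact ⟨⟨by linarith [hy.2.1], hy.2.2⟩, fun h3 => by
        have := h3.1 hy.1
        linarith [hy.2.1]⟩
    · exact ⟨⟨hy.1.1, by linarith [hy.1.2]⟩, fun h3 => hy.2 (h3.2 hy.1.2)⟩
  · refine Integrable.mono' (g := fun _ => (1 : ℝ)) (integrableOn_const (by simp)) ?_ ?_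
    · exact ((qf_cont _ _).measurable.mul (continuous_ph.measurable.min
        (measurable_const.sub ((Dl_meas h.meas).const_mul _)))).aestronglyMeasurable
    · refine (ae_restrict_iff' measurableSet_Ioo).2 (Eventually.of_forall fun x hx => ?_)
      rw [Real.norm_eq_abs, abs_of_nonneg (mul_nonneg (hq0 x) (hmin0 x hx))]
      exact mul_le_one₀ (qf_le h0 (by linarith) hℓ0.le hℓ1.le x) (hmin0 x hx)
        ((min_le_left _ _).trans (ph_le_one x))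
  · refine (ae_restrict_iff' measurableSet_Ioo).2 (Eventually.of_forall fun x hx => ?_)
    exact mul_nonneg (hq0 x) (hmin0 x hx)

/-- integral of the deviation over the central strip -/
def DD (A : Set ℂ) : ℝ := ∫ x in Ioo (-(1 / 8) : ℝ) (1 / 8), Dl A x

lemma DD_le (h : Low ρ A P k) : DD A ≤ 7 / 2 * ρ := by
  unfold DD
  have h1 : ∫ x in Ioo (-(1 / 8) : ℝ) (1 / 8), Dl A x ≤
      ∫ _x in Ioo (-(1 / 8) : ℝ) (1 / 8), 14 * ρ := by
    refine setIntegral_mono_on_ae (Dl_int h.meas _ _) (integrableOn_const (by simp))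
      measurableSet_Ioo ?_
    filter_upwards [h.Dl_le] with x hx hxI
    exact hx ⟨by linarith [hxI.1], by linarith [hxI.2]⟩
  refine h1.trans (le_of_eq ?_)
  rw [setIntegral_const, Real.volume_real_Ioo_of_le (by norm_num), smul_eq_mul]
  ring

lemma DD_nonneg : 0 ≤ DD A := integral_nonneg fun x => Dl_nonneg A x

lemma WW_ge (h : Low ρ A P k) {ℓ : ℝ} (hℓ0 : 0 < ℓ) :
    DD A - ℓ / 2 ≤ (volume (WW A ℓ)).toReal := by
  have hWm := h.WW_meas ℓ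
  have hWs : WW A ℓ ⊆ RR := by
    rintro z ⟨h1, h2⟩
    have e : z = (⟨z.re, z.im⟩ : ℂ) := rfl
    rw [e, mem_RR]
    refine ⟨⟨by linarith [h1.1], by linarith [h1.2]⟩, ?_⟩
    rcases h2 with ⟨h2, -⟩ | ⟨h2, -⟩
    · exact ⟨by linarith [h2.1], h2.2⟩
    · exact ⟨h2.1, by linarith [h2.2]⟩
  have hWf : volume (WW A ℓ) ≠ ⊤ := ((measure_mono hWs).trans_lt vol_RR_lt).ne
  have h1 : ENNReal.ofReal (DD A) ≤ volume (WW A ℓ) + ENNReal.ofReal (ℓ / 2) := by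
    unfold DD
    rw [ofReal_integral_eq_lintegral_ofReal (Dl_int h.meas _ _)
      (Eventually.of_forall fun x => Dl_nonneg A x)]
    calc ∫⁻ x in Ioo (-(1 / 8) : ℝ) (1 / 8), ENNReal.ofReal (Dl A x)
        ≤ ∫⁻ x in Ioo (-(1 / 8) : ℝ) (1 / 8),
            (volume {y : ℝ | (⟨x, y⟩ : ℂ) ∈ WW A ℓ} + ENNReal.ofReal (2 * ℓ)) := by
          refine setLIntegral_mono' measurableSet_Ioo fun x hx => ?_
          have e1 : ENNReal.ofReal (Dl A x) = volume (Dv A x) := ENNReal.ofReal_toReal (Dv_fin x)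
          rw [e1]
          calc volume (Dv A x) ≤ volume {y : ℝ | (⟨x, y⟩ : ℂ) ∈ WW A ℓ} +
                volume (Icc (-ℓ) ℓ) := by
                refine le_trans (measure_mono fun y hy => ?_) (measure_union_le _ _)
                obtain ⟨hy1, hy2⟩ := hy
                by_cases h3 : y ∈ Icc (-ℓ) ℓ
                · exact Or.inr h3
                · left
                  rw [mem_Icc, not_and_or, not_le, not_le] at h3
                  refine ⟨hx, ?_⟩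
                  rcases h3 with h3 | h3
                  · right
                    refine ⟨⟨hy1.1, h3⟩, fun h4 => hy2 ⟨fun _ => ?_, fun _ => h4⟩⟩
                    linarith
                  · left
                    refine ⟨⟨h3, hy1.2⟩, ?_⟩
                    by_contra h4
                    exact hy2 ⟨fun h5 => absurd h5 h4, fun h5 => by linarith⟩
            _ = _ := by
                rw [Real.volume_Icc]
                congr 2; ring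
      _ = (∫⁻ x in Ioo (-(1 / 8) : ℝ) (1 / 8), volume {y : ℝ | (⟨x, y⟩ : ℂ) ∈ WW A ℓ}) +
            ENNReal.ofReal (ℓ / 2) := by
          rw [lintegral_add_left (meas_slice2 hWm), setLIntegral_const, Real.volume_Ioo,
            ← ENNReal.ofReal_mul (by linarith)]
          congr 2; ring
      _ ≤ _ := by
          gcongr
          rw [vol2 hWm]
          exact setLIntegral_le_lintegral _ _
  have h2 : DD A ≤ (volume (WW A ℓ) + ENNReal.ofReal (ℓ / 2)).toReal := by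
    have h3 := ENNReal.toReal_mono (ENNReal.add_ne_top.2 ⟨hWf, ENNReal.ofReal_ne_top⟩) h1
    rwa [ENNReal.toReal_ofReal DD_nonneg] at h3
  rw [ENNReal.toReal_add hWf ENNReal.ofReal_ne_top, ENNReal.toReal_ofReal (by positivity)] at h2
  linarith

/-- Lower bound of the vertical integral. -/
lemma vert_ge (h : Low ρ A P k) {ℓ : ℝ} (hℓ0 : 0 < ℓ) (hℓ1 : ℓ < 1 / 8) :
    M0 - ρ ^ 2 * DD A - 16 * (14 * ρ ^ 3) ^ 2 -
      (1 + (ρ ^ 2) ^ 2) * (ρ ^ 2) ^ 2 * (1 / 8 + 2 * ℓ) ^ 3 / 3 ≤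
      ∫ x in Ioo (-1 : ℝ) 1, qf (ρ ^ 2) ℓ x * min (ph x) (1 - ρ ^ 2 * Dl A x) := by
  have h0 := h.κ0
  have h1 := h.κ1
  have hρ := h.ρ0
  set κ := ρ ^ 2 with hκ
  set a := 14 * ρ ^ 3 with ha
  have ha0 : 0 ≤ a := by positivity
  have hq0 : ∀ x, 0 ≤ qf κ ℓ x := qf_nonneg h0 (by linarith) hℓ0.le hℓ1.le
  have hmin0 : ∀ x ∈ Ioo (-1 : ℝ) 1, 0 ≤ min (ph x) (1 - κ * Dl A x) := fun x hx => by
    refine le_min (le_trans (by norm_num) (ph_ge (abs_le.2 ⟨hx.1.le, hx.2.le⟩))) ?_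
    have := mul_le_mul_of_nonneg_left (Dl_le6 (A := A) x) h0
    linarith
  have e1 : M0 = ∫ x in Ioo (-1 : ℝ) 1, ph x := by
    unfold M0
    rw [intervalIntegral.integral_of_le (by norm_num), integral_Ioc_eq_integral_Ioo]
  set I1 : Set ℝ := Ioo (-(1 / 8)) (1 / 8) with hI1
  set I2 : Set ℝ := Icc (-(1 / 8 + 8 * a)) (1 / 8 + 8 * a) \ I1 with hI2
  have hI2m : MeasurableSet I2 := measurableSet_Icc.diff measurableSet_Ioo
  -- pointwise
  have pw : ∀ᵐ x : ℝ, x ∈ Ioo (-1 : ℝ) 1 →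
      ph x - I1.indicator (fun x => κ * Dl A x) x - I2.indicator (fun _ => a) x -
        (1 + κ ^ 2) / 2 * κ ^ 2 * (max 0 (1 / 8 + 2 * ℓ - |x|)) ^ 2 ≤
      qf κ ℓ x * min (ph x) (1 - κ * Dl A x) := by
    filter_upwards [h.Dl_le] with x hx hxI
    have hx := hx hxI
    have q1 := one_sub_qf h0 (by linarith) hℓ0.le hℓ1.le x
    have m0 := hmin0 x hxI
    have m1 : min (ph x) (1 - κ * Dl A x) ≤ 1 := (min_le_left _ _).trans (ph_le_one x)
    have q2 := qf_le h0 (by linarith) hℓ0.le hℓ1.le x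
    have step1 : min (ph x) (1 - κ * Dl A x) - (1 - qf κ ℓ x) ≤
        qf κ ℓ x * min (ph x) (1 - κ * Dl A x) := by nlinarith
    have hDk : κ * Dl A x ≤ a := by
      calc κ * Dl A x ≤ κ * (14 * ρ) := mul_le_mul_of_nonneg_left hx h0
        _ = a := by rw [hκ, ha]; ring
    have hD0 : 0 ≤ κ * Dl A x := mul_nonneg h0 (Dl_nonneg A x)
    have step2 : ph x - I1.indicator (fun x => κ * Dl A x) x - I2.indicator (fun _ => a) x ≤
        min (ph x) (1 - κ * Dl A x) := by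
      by_cases hx1 : x ∈ I1
      · have hx2 : x ∉ I2 := fun h => h.2 hx1
        rw [indicator_of_mem hx1, indicator_of_notMem hx2]
        have := ph_le_one x
        exact le_min (by linarith) (by linarith)
      · rw [indicator_of_notMem hx1]
        have m2 : min (ph x) (1 - a) ≤ min (ph x) (1 - κ * Dl A x) :=
          min_le_min le_rfl (by linarith)
        have m3 := min_ge (x := x) ha0
        by_cases hx3 : x ∈ Icc (-(1 / 8 + 8 * a)) (1 / 8 + 8 * a)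
        · have hx2 : x ∈ I2 := ⟨hx3, hx1⟩
          rw [indicator_of_mem hx3] at m3
          rw [indicator_of_mem hx2]
          linarith
        · have hx2 : x ∉ I2 := fun h => hx3 h.1
          rw [indicator_of_notMem hx3] at m3
          rw [indicator_of_notMem hx2]
          linarith
    linarith
  -- integrability
  have i0 : IntegrableOn ph (Ioo (-1 : ℝ) 1) :=
    (continuous_ph.continuousOn.integrableOn_compact isCompact_Icc).mono_set Ioo_subset_Icc_self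
  have i1 : IntegrableOn (I1.indicator (fun x => κ * Dl A x)) (Ioo (-1 : ℝ) 1) :=
    ((Dl_int h.meas _ _).const_mul κ).indicator measurableSet_Ioo
  have i2 : IntegrableOn (I2.indicator (fun _ => a)) (Ioo (-1 : ℝ) 1) :=
    Integrable.indicator (integrableOn_const (by simp)) hI2m
  have i3 : IntegrableOn (fun x => (1 + κ ^ 2) / 2 * κ ^ 2 *
      (max 0 (1 / 8 + 2 * ℓ - |x|)) ^ 2) (Ioo (-1 : ℝ) 1) := by
    have hc : Continuous fun x : ℝ => (1 + κ ^ 2) / 2 * κ ^ 2 *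
      (max 0 (1 / 8 + 2 * ℓ - |x|)) ^ 2 := by fun_prop
    exact (hc.continuousOn.integrableOn_compact isCompact_Icc).mono_set Ioo_subset_Icc_self
  have i4 : IntegrableOn (fun x => qf κ ℓ x * min (ph x) (1 - κ * Dl A x)) (Ioo (-1 : ℝ) 1) := by
    refine Integrable.mono' (g := fun _ => (1 : ℝ)) (integrableOn_const (by simp)) ?_ ?_
    · exact ((qf_cont _ _).measurable.mul (continuous_ph.measurable.min
        (measurable_const.sub ((Dl_meas h.meas).const_mul _)))).aestronglyMeasurable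
    · refine (ae_restrict_iff' measurableSet_Ioo).2 (Eventually.of_forall fun x hx => ?_)
      rw [Real.norm_eq_abs, abs_of_nonneg (mul_nonneg (hq0 x) (hmin0 x hx))]
      exact mul_le_one₀ (qf_le h0 (by linarith) hℓ0.le hℓ1.le x) (hmin0 x hx)
        ((min_le_left _ _).trans (ph_le_one x))
  have hint := setIntegral_mono_on_ae (((i0.sub i1).sub i2).sub i3) i4 measurableSet_Ioo pw
  refine le_trans ?_ hint
  have s1 : ∫ x in Ioo (-1 : ℝ) 1, ((((ph - I1.indicator (fun x => κ * Dl A x)) -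
      I2.indicator (fun _ => a)) - (fun x => (1 + κ ^ 2) / 2 * κ ^ 2 *
      (max 0 (1 / 8 + 2 * ℓ - |x|)) ^ 2)) : ℝ → ℝ) x =
      M0 - (∫ x in Ioo (-1 : ℝ) 1, I1.indicator (fun x => κ * Dl A x) x) -
      (∫ x in Ioo (-1 : ℝ) 1, I2.indicator (fun _ => a) x) -
      ∫ x in Ioo (-1 : ℝ) 1, (1 + κ ^ 2) / 2 * κ ^ 2 * (max 0 (1 / 8 + 2 * ℓ - |x|)) ^ 2 := by
    rw [integral_sub' ((i0.sub i1).sub i2) i3, integral_sub' (i0.sub i1) i2, integral_sub' i0 i1,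
      e1]
  rw [s1]
  have t1 : ∫ x in Ioo (-1 : ℝ) 1, I1.indicator (fun x => κ * Dl A x) x = κ * DD A := by
    rw [integral_indicator measurableSet_Ioo, Measure.restrict_restrict measurableSet_Ioo,
      integral_const_mul]
    congr 2
    congr 1
    exact inter_eq_left.2 fun x hx => ⟨by linarith [hx.1], by linarith [hx.2]⟩
  have t2 : ∫ x in Ioo (-1 : ℝ) 1, I2.indicator (fun _ => a) x ≤ 16 * a ^ 2 := by
    rw [integral_indicator hI2m, Measure.restrict_restrict hI2m, setIntegral_const, smul_eq_mul]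
    have v1 : volume.real (I2 ∩ Ioo (-1 : ℝ) 1) ≤ 16 * a := by
      have v2 : volume.real (I2 ∩ Ioo (-1 : ℝ) 1) ≤ volume.real I2 :=
        measureReal_mono inter_subset_left (measure_lt_top_of_subset sdiff_subset (by
          rw [Real.volume_Icc]; exact ENNReal.ofReal_ne_top)).ne
      refine v2.trans (le_of_eq ?_)
      have v3 : I1 ⊆ Icc (-(1 / 8 + 8 * a)) (1 / 8 + 8 * a) := fun x hx =>
        ⟨by linarith [hx.1], by linarith [hx.2]⟩
      have v4 : volume.real I2 = volume.real (Icc (-(1 / 8 + 8 * a)) (1 / 8 + 8 * a)) -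
          volume.real I1 := measureReal_sdiff v3 measurableSet_Ioo
            (by rw [Real.volume_Icc]; exact ENNReal.ofReal_ne_top)
      rw [v4, hI1, Real.volume_real_Icc_of_le (by linarith),
        Real.volume_real_Ioo_of_le (by norm_num)]
      ring
    nlinarith
  have t3 : ∫ x in Ioo (-1 : ℝ) 1, (1 + κ ^ 2) / 2 * κ ^ 2 *
      (max 0 (1 / 8 + 2 * ℓ - |x|)) ^ 2 ≤
      (1 + κ ^ 2) * κ ^ 2 * (1 / 8 + 2 * ℓ) ^ 3 / 3 := by
    rw [integral_const_mul]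
    have := int_tent (W := 1 / 8 + 2 * ℓ) (by linarith) (by linarith)
    calc (1 + κ ^ 2) / 2 * κ ^ 2 * ∫ x in Ioo (-1 : ℝ) 1, (max 0 (1 / 8 + 2 * ℓ - |x|)) ^ 2
        ≤ (1 + κ ^ 2) / 2 * κ ^ 2 * (2 * (1 / 8 + 2 * ℓ) ^ 3 / 3) :=
          mul_le_mul_of_nonneg_left this (by positivity)
      _ = _ := by ring
  rw [t1]
  linarith

/-- The final inequality. -/
theorem fin_ineq (h : Low ρ A P k) {c : ℝ} (hc0 : 0 < c) (hc1 : c ≤ 1) (hρc : ρ ≤ c / 10 ^ 6)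
    (hX : c * ma (ρ ^ 2) RR ≤ ma (ρ ^ 2) (XR A)) : M0 - ρ ^ 4 / 1000 < P := by
  have h0 := h.κ0
  have h1 := h.κ1
  have hρ := h.ρ0
  have hρ1 : ρ ≤ 1 / 10 ^ 6 := hρc.trans (by
    apply div_le_div_of_nonneg_right hc1; positivity)
  set ℓ := 120 * ρ ^ 3 / c with hℓ
  have hℓ0 : 0 < ℓ := by positivity
  have hℓ2 : ℓ ≤ 12 / 10 ^ 5 * ρ ^ 2 := by
    rw [hℓ, div_le_iff₀ hc0]
    have : 120 * ρ ^ 3 = 120 * ρ ^ 2 * ρ := by ring
    rw [this]
    have := mul_le_mul_of_nonneg_left hρc (by positivity : 0 ≤ 120 * ρ ^ 2)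
    refine this.trans (le_of_eq ?_)
    ring
  have hρ2 : ρ ^ 2 ≤ 1 / 10 ^ 12 := by
    have := pow_le_pow_left₀ hρ.le hρ1 2
    refine this.trans (le_of_eq ?_)
    norm_num
  have hℓ3 : ℓ ≤ 1 / 10 ^ 12 := hℓ2.trans (by nlinarith)
  have hℓ1 : ℓ < 1 / 8 := lt_of_le_of_lt hℓ3 (by norm_num)
  obtain ⟨s1, s2⟩ := h.trap hc0 hℓ (by linarith) hX
  have t1 := h.trap1 hℓ0 (by linarith) s1
  have t2 := h.trap2 hℓ0 (by linarith) s2
  have hsl := slR h0 h1 (u₁ := fun z => fp (ρ ^ 2) z * sf (ρ ^ 2) ℓ z.re)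
    (u₂ := fun z => fp (ρ ^ 2) z * qf (ρ ^ 2) ℓ z.re)
    ((fp_cont _).mul ((sf_cont _ _).comp Complex.continuous_re))
    ((fp_cont _).mul ((qf_cont _ _).comp Complex.continuous_re))
    (fun z => mul_nonneg (fp_nonneg _ _) (sf_nonneg h0 _))
    (fun z => mul_nonneg (fp_nonneg _ _) (qf_nonneg h0 (by linarith) hℓ0.le hℓ1.le _))
    (fun z hz => by
      rw [fp_eq h0 h1 hz]
      have := sq_sum h0 (by linarith) hℓ0.le hℓ1.le z.re
      have h3 := sq_nonneg (ff (ρ ^ 2) z)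
      nlinarith) h.meas h.per
  have hsum : ENNReal.ofReal ((1 - 3 * ρ ^ 2) * ρ ^ 2) * volume (WW A ℓ) +
      ENNReal.ofReal (∫ x in Ioo (-1 : ℝ) 1, qf (ρ ^ 2) ℓ x * min (ph x) (1 - ρ ^ 2 * Dl A x)) ≤
      ENNReal.ofReal P := (add_le_add (h.horiz hℓ0 hℓ1 t1 t2) (h.vert hℓ0 hℓ1)).trans hsl
  have hk' : 0 ≤ (1 - 3 * ρ ^ 2) * ρ ^ 2 := mul_nonneg (by linarith) h0
  have hWf : volume (WW A ℓ) ≠ ⊤ := by
    intro htop
    have hk'' : 0 < (1 - 3 * ρ ^ 2) * ρ ^ 2 := mul_pos (by linarith) (by positivity)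
    rw [htop, ENNReal.mul_top (by rw [Ne, ENNReal.ofReal_eq_zero]; linarith), top_add] at hsum
    exact absurd (top_le_iff.1 hsum) ENNReal.ofReal_ne_top
  have vg := h.vert_ge hℓ0 hℓ1
  have wg := h.WW_ge hℓ0
  have dg := h.DD_le
  have d0 := DD_nonneg (A := A)
  set Z := ∫ x in Ioo (-1 : ℝ) 1, qf (ρ ^ 2) ℓ x * min (ph x) (1 - ρ ^ 2 * Dl A x) with hZ
  have hZ2 : (1 - 3 * ρ ^ 2) * ρ ^ 2 * (volume (WW A ℓ)).toReal + Z ≤ P := by
    have e1 : volume (WW A ℓ) = ENNReal.ofReal (volume (WW A ℓ)).toReal :=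
      (ENNReal.ofReal_toReal hWf).symm
    have hZ0 : 0 ≤ Z := by
      refine integral_nonneg_of_ae ((ae_restrict_iff' measurableSet_Ioo).2
        (Eventually.of_forall fun x hx => ?_))
      refine mul_nonneg (qf_nonneg h0 (by linarith) hℓ0.le hℓ1.le x) (le_min (le_trans (by norm_num)
        (ph_ge (abs_le.2 ⟨hx.1.le, hx.2.le⟩))) ?_)
      have := mul_le_mul_of_nonneg_left (Dl_le6 (A := A) x) h0
      linarith
    rw [e1, ← ENNReal.ofReal_mul hk', ← ENNReal.ofReal_add (by positivity) hZ0,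
      ENNReal.ofReal_le_ofReal_iff h.toHyp.P0] at hsum
    exact hsum
  have w1 : (1 - 3 * ρ ^ 2) * ρ ^ 2 * (DD A - ℓ / 2) ≤
      (1 - 3 * ρ ^ 2) * ρ ^ 2 * (volume (WW A ℓ)).toReal := mul_le_mul_of_nonneg_left wg hk'
  -- arithmetic
  set κ := ρ ^ 2 with hκ
  have hκ0 : 0 < κ := by positivity
  have r1 : 3 * κ ^ 2 * DD A ≤ 3 * κ ^ 2 * (7 / 2 * ρ) :=
    mul_le_mul_of_nonneg_left dg (by positivity)
  have r2 : 3 * κ ^ 2 * (7 / 2 * ρ) ≤ κ ^ 2 * (21 / 2 / 10 ^ 6) := by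
    have : 3 * κ ^ 2 * (7 / 2 * ρ) = κ ^ 2 * (21 / 2 * ρ) := by ring
    rw [this]
    apply mul_le_mul_of_nonneg_left _ (by positivity)
    linarith
  have r3 : (1 - 3 * κ) * κ * (ℓ / 2) ≤ κ ^ 2 * (6 / 10 ^ 5) := by
    have e1 : (1 - 3 * κ) * κ * (ℓ / 2) ≤ κ * (ℓ / 2) := by
      have : 0 ≤ κ * (ℓ / 2) := by positivity
      nlinarith
    have e2 : κ * (ℓ / 2) ≤ κ * (6 / 10 ^ 5 * κ) := mul_le_mul_of_nonneg_left (by linarith) hκ0.le
    refine e1.trans (e2.trans (le_of_eq ?_))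
    ring
  have r4 : 16 * (14 * ρ ^ 3) ^ 2 ≤ κ ^ 2 * (1 / 10 ^ 6) := by
    have : 16 * (14 * ρ ^ 3) ^ 2 = κ ^ 2 * (3136 * κ) := by rw [hκ]; ring
    rw [this]
    apply mul_le_mul_of_nonneg_left _ (by positivity)
    linarith
  have r5 : (1 + κ ^ 2) * κ ^ 2 * (1 / 8 + 2 * ℓ) ^ 3 / 3 ≤ κ ^ 2 * (7 / 10 ^ 4) := by
    have e1 : (1 + κ ^ 2) ≤ 1 + 1 / 10 ^ 6 := by nlinarith
    have e2 : (1 / 8 + 2 * ℓ) ^ 3 ≤ (126 / 1000) ^ 3 :=
      pow_le_pow_left₀ (by positivity) (by linarith) 3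
    have e3 : (1 + κ ^ 2) * (1 / 8 + 2 * ℓ) ^ 3 ≤ (1 + 1 / 10 ^ 6) * (126 / 1000) ^ 3 :=
      mul_le_mul e1 e2 (by positivity) (by norm_num)
    have e4 : (1 + κ ^ 2) * κ ^ 2 * (1 / 8 + 2 * ℓ) ^ 3 / 3 =
        κ ^ 2 * ((1 + κ ^ 2) * (1 / 8 + 2 * ℓ) ^ 3 / 3) := by ring
    rw [e4]
    apply mul_le_mul_of_nonneg_left _ (by positivity)
    norm_num at e3 ⊢
    linarith
  have r6 : ρ ^ 4 = κ ^ 2 := by rw [hκ]; ring
  have r7 : 0 < κ ^ 2 := by positivity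
  rw [r6]
  nlinarith

end Low

end Pool.Agent.R224.HV
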