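import Pool.Agent.R224.HV.Lim
import Pool.Agent.TH859.HU.B9

/-!
# Trapping passes to the limit; extraction of the trapping cone
-/

set_option autoImplicit false

open MeasureTheory Set Metric Filter Topology
open scoped ENNReal Real Pointwise

noncomputable section

namespace Pool.Agent.R224.HV

open Pool.Agent.TH304.MI Pool.Agent.TH703.HU
open Pool.Agent.TH73.MI

lemma jm {A : Set ℂ} (hA : MeasurableSet A) : Measurable fun q : ℝ × PP 1 =>
    (Aᶜ.indicator 1 ((q.1 : ℂ) * xc q.2) + A.indicator 1 (-((q.1 : ℂ) * xc q.2)) : ℝ≥0∞) := by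
  have h0 : Measurable fun q : ℝ × PP 1 => (q.1 : ℂ) * xc q.2 := by
    have : Continuous fun q : ℝ × PP 1 => (q.1 : ℂ) * xc q.2 :=
      (Complex.continuous_ofReal.comp continuous_fst).mul (continuous_xc.comp continuous_snd)
    exact this.measurable
  exact ((measurable_one.indicator hA.compl).comp h0).add ((measurable_one.indicator hA).comp h0.neg)

/-- the inner integral at scale `t` -/
def hk (A : Set ℂ) (K : Set (PP 1)) (t : ℝ) : ℝ≥0∞ :=
  ∫⁻ p in K, (Aᶜ.indicator 1 ((t : ℂ) * xc p) + A.indicator 1 (-((t : ℂ) * xc p)))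

lemma swap_GG {A : Set ℂ} (hA : MeasurableSet A) (K : Set (PP 1)) :
    ∫⁻ p in K, GG A (xc p) = ∫⁻ t in Ioo (0 : ℝ) 1, hk A K t := by
  unfold GG hk
  rw [lintegral_lintegral_swap]
  exact ((jm hA).comp measurable_swap).aemeasurable

lemma vol_scale {K S : Set (PP 1)} {t : ℝ} (ht : 0 < t) (h : t • S ⊆ K) :
    volume S ≤ ENNReal.ofReal (t ^ 3)⁻¹ * volume K := by
  have h1 : volume (t • S) = ENNReal.ofReal (t ^ 3) * volume S := by
    rw [Measure.addHaar_smul, finrank_euclideanSpace_fin, abs_of_pos (by positivity)]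
  have h2 : volume (t • S) ≤ volume K := measure_mono h
  rw [h1] at h2
  have h3 : ENNReal.ofReal (t ^ 3)⁻¹ * ENNReal.ofReal (t ^ 3) = 1 := by
    rw [← ENNReal.ofReal_mul (by positivity), inv_mul_cancel₀ (by positivity), ENNReal.ofReal_one]
  calc volume S = ENNReal.ofReal (t ^ 3)⁻¹ * (ENNReal.ofReal (t ^ 3) * volume S) := by
        rw [← mul_assoc, h3, one_mul]
    _ ≤ _ := by gcongr

lemma hk_le {κ : ℝ} {A : Set ℂ} (hA : MeasurableSet A) {E K : Set (PP 1)}
    (hKO : IsOpen K) (hKs : K ⊆ Bo κ) (hstar : ∀ p ∈ K, ∀ t ∈ Ioo (0 : ℝ) 1, t • p ∈ K)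
    (h1 : volume (K \ E) = 0) (h2 : volume ({p | -p ∈ K} ∩ E) = 0) {t : ℝ}
    (ht : t ∈ Ioo (0 : ℝ) 1) :
    hk A K t ≤ ENNReal.ofReal (t ^ 3)⁻¹ * (2 * volume (symmDiff E (cylO (Bo κ) A))) := by
  set D := symmDiff E (cylO (Bo κ) A) with hD
  have m1 : Measurable fun p : PP 1 => (Aᶜ.indicator 1 ((t : ℂ) * xc p) : ℝ≥0∞) := by
    have h0 : Measurable fun p : PP 1 => (t : ℂ) * xc p :=
      (continuous_const.mul continuous_xc).measurable
    exact (measurable_one.indicator hA.compl).comp h0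
  have e1 : ∫⁻ p in K, (Aᶜ.indicator 1 ((t : ℂ) * xc p) : ℝ≥0∞) =
      volume (K ∩ {p | t • p ∈ {q : PP 1 | xc q ∉ A}}) := by
    have hm : MeasurableSet {p : PP 1 | t • p ∈ {q : PP 1 | xc q ∉ A}} := by
      have : Measurable fun p : PP 1 => xc (t • p) :=
        (continuous_xc.comp (continuous_const_smul t)).measurable
      exact this hA.compl
    have h3 : ∀ p : PP 1, (Aᶜ.indicator 1 ((t : ℂ) * xc p) : ℝ≥0∞) =
        {p : PP 1 | t • p ∈ {q : PP 1 | xc q ∉ A}}.indicator 1 p := by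
      intro p
      rw [← xc_smul]
      rfl
    simp_rw [h3]
    rw [lintegral_indicator_one hm, Measure.restrict_apply hm, inter_comm]
  have e2 : ∫⁻ p in K, (A.indicator 1 (-((t : ℂ) * xc p)) : ℝ≥0∞) =
      volume (K ∩ {p | t • p ∈ {q : PP 1 | xc (-q) ∈ A}}) := by
    have hm : MeasurableSet {p : PP 1 | t • p ∈ {q : PP 1 | xc (-q) ∈ A}} := by
      have : Measurable fun p : PP 1 => xc (-(t • p)) :=
        (continuous_xc.comp (continuous_const_smul t).neg).measurable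
      exact this hA
    have h3 : ∀ p : PP 1, (A.indicator 1 (-((t : ℂ) * xc p)) : ℝ≥0∞) =
        {p : PP 1 | t • p ∈ {q : PP 1 | xc (-q) ∈ A}}.indicator 1 p := by
      intro p
      rw [← xc_smul, ← xc_neg]
      rfl
    simp_rw [h3]
    rw [lintegral_indicator_one hm, Measure.restrict_apply hm, inter_comm]
  have l1 : volume (K ∩ {p | t • p ∈ {q : PP 1 | xc q ∉ A}}) ≤
      ENNReal.ofReal (t ^ 3)⁻¹ * volume D := by
    have k1 : t • (K ∩ {p | t • p ∈ {q : PP 1 | xc q ∉ A}}) ⊆ K ∩ {q : PP 1 | xc q ∉ A} := by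
      rintro _ ⟨p, ⟨hp1, hp2⟩, rfl⟩
      exact ⟨hstar p hp1 t ht, hp2⟩
    refine (vol_scale ht.1 k1).trans (mul_le_mul_right ?_ _)
    have k2 : K ∩ {q : PP 1 | xc q ∉ A} ⊆ (K \ E) ∪ D := by
      rintro q ⟨hq1, hq2⟩
      by_cases hE : q ∈ E
      · right
        exact Or.inl ⟨hE, fun h => hq2 h.2⟩
      · exact Or.inl ⟨hq1, hE⟩
    calc _ ≤ volume ((K \ E) ∪ D) := measure_mono k2
      _ ≤ volume (K \ E) + volume D := measure_union_le _ _
      _ = volume D := by rw [h1, zero_add]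
  have l2 : volume (K ∩ {p | t • p ∈ {q : PP 1 | xc (-q) ∈ A}}) ≤
      ENNReal.ofReal (t ^ 3)⁻¹ * volume D := by
    have k1 : t • (K ∩ {p | t • p ∈ {q : PP 1 | xc (-q) ∈ A}}) ⊆
        K ∩ {q : PP 1 | xc (-q) ∈ A} := by
      rintro _ ⟨p, ⟨hp1, hp2⟩, rfl⟩
      exact ⟨hstar p hp1 t ht, hp2⟩
    refine (vol_scale ht.1 k1).trans (mul_le_mul_right ?_ _)
    have k2 : K ∩ {q : PP 1 | xc (-q) ∈ A} ⊆ -(({p | -p ∈ K} ∩ E) ∪ D) := by
      rintro q ⟨hq1, hq2⟩
      rw [Set.mem_neg]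
      by_cases hE : -q ∈ E
      · left
        exact ⟨by change - -q ∈ K; rwa [neg_neg], hE⟩
      · right
        exact Or.inr ⟨⟨Bo_neg q (hKs hq1), hq2⟩, hE⟩
    calc _ ≤ volume (-(({p | -p ∈ K} ∩ E) ∪ D)) := measure_mono k2
      _ = volume (({p | -p ∈ K} ∩ E) ∪ D) := Measure.measure_neg _ _
      _ ≤ volume ({p | -p ∈ K} ∩ E) + volume D := measure_union_le _ _
      _ = volume D := by rw [h2, zero_add]
  unfold hk
  rw [lintegral_add_left m1, e1, e2]
  calc _ ≤ ENNReal.ofReal (t ^ 3)⁻¹ * volume D + ENNReal.ofReal (t ^ 3)⁻¹ * volume D :=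
        add_le_add l1 l2
    _ = _ := by rw [← mul_add, two_mul]

/-- **Trapping passes to the limit.** -/
theorem trap_lim {κ : ℝ} (hκ0 : 0 ≤ κ) (hκ : κ ≤ 1 / 32) {c : ℝ} (hc : 0 ≤ c)
    {E K : ℕ → Set (PP 1)} {A : Set ℂ}
    (hAm : MeasurableSet A)
    (hT : Tendsto (fun k => volume (symmDiff (E k) (cylO (Bo κ) A))) atTop (𝓝 0))
    (hKo : ∀ k, IsOpen (K k)) (hKs : ∀ k, K k ⊆ Bo κ)
    (hstar : ∀ k, ∀ p ∈ K k, ∀ t ∈ Ioo (0 : ℝ) 1, t • p ∈ K k)
    (hcv : ∀ k, ENNReal.ofReal c * volume (Bo κ) ≤ volume (K k))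
    (h1 : ∀ k, volume (K k \ E k) = 0) (h2 : ∀ k, volume ({p | -p ∈ K k} ∩ E k) = 0) :
    c * ma κ RR ≤ ma κ (XR A) := by
  have hfin : volume (Bo κ) ≠ ⊤ := (Bo_bdd hκ0).measure_lt_top.ne
  -- the integral of `G` over `K k` tends to zero
  have hI : Tendsto (fun k => ∫⁻ p in K k, GG A (xc p)) atTop (𝓝 0) := by
    simp_rw [swap_GG hAm]
    have hz : ∫⁻ _t in Ioo (0 : ℝ) 1, (0 : ℝ≥0∞) = 0 := lintegral_zero
    rw [← hz]
    refine tendsto_lintegral_of_dominated_convergence (fun _ => 2 * volume (Bo κ)) ?_ ?_ ?_ ?_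
    · intro k
      exact (jm hAm).lintegral_prod_right'
    · intro k
      refine Eventually.of_forall fun t => ?_
      unfold hk
      calc _ ≤ ∫⁻ _p in K k, (2 : ℝ≥0∞) := by
            refine lintegral_mono fun p => ?_
            have a1 : (Aᶜ.indicator 1 ((t : ℂ) * xc p) : ℝ≥0∞) ≤ 1 := by
              by_cases hh : (t : ℂ) * xc p ∈ Aᶜ
              · rw [indicator_of_mem hh]; rfl
              · rw [indicator_of_notMem hh]; exact zero_le_one
            have a2 : (A.indicator 1 (-((t : ℂ) * xc p)) : ℝ≥0∞) ≤ 1 := by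
              by_cases hh : -((t : ℂ) * xc p) ∈ A
              · rw [indicator_of_mem hh]; rfl
              · rw [indicator_of_notMem hh]; exact zero_le_one
            calc _ ≤ (1 : ℝ≥0∞) + 1 := add_le_add a1 a2
              _ = 2 := one_add_one_eq_two
        _ = 2 * volume (K k) := by rw [setLIntegral_const]
        _ ≤ _ := mul_le_mul_right (measure_mono (hKs k)) _
    · rw [setLIntegral_const, Real.volume_Ioo, sub_zero, ENNReal.ofReal_one, mul_one]
      exact ENNReal.mul_ne_top ENNReal.ofNat_ne_top hfin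
    · filter_upwards [ae_restrict_mem measurableSet_Ioo] with t ht
      refine tendsto_of_tendsto_of_tendsto_of_le_of_le tendsto_const_nhds ?_ (fun _ => zero_le)
        (fun k => hk_le hAm (hKo k) (hKs k) (hstar k) (h1 k) (h2 k) ht)
      have h3 : Tendsto (fun k => ENNReal.ofReal (t ^ 3)⁻¹ *
          (2 * volume (symmDiff (E k) (cylO (Bo κ) A)))) atTop
          (𝓝 (ENNReal.ofReal (t ^ 3)⁻¹ * (2 * 0))) :=
        ENNReal.Tendsto.const_mul (ENNReal.Tendsto.const_mul hT (Or.inr ENNReal.ofNat_ne_top))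
          (Or.inr ENNReal.ofReal_ne_top)
      simpa using h3
  have hGm : Measurable fun p : PP 1 => GG A (xc p) := (GG_meas hAm).comp continuous_xc.measurable
  -- sublevel sets
  have hsub : ∀ η : ℝ≥0∞, η ≠ 0 → η ≠ ⊤ → ENNReal.ofReal c * volume (Bo κ) ≤
      volume (Bo κ ∩ {p | GG A (xc p) < η}) := by
    intro η hη hη'
    have hb : ∀ k, ENNReal.ofReal c * volume (Bo κ) ≤
        volume (Bo κ ∩ {p | GG A (xc p) < η}) + (∫⁻ p in K k, GG A (xc p)) / η := by
      intro k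
      refine (hcv k).trans ?_
      have h3 : K k ⊆ (Bo κ ∩ {p | GG A (xc p) < η}) ∪ (K k ∩ {p | η ≤ GG A (xc p)}) := by
        intro p hp
        by_cases hh : GG A (xc p) < η
        · exact Or.inl ⟨hKs k hp, hh⟩
        · exact Or.inr ⟨hp, not_lt.1 hh⟩
      refine (measure_mono h3).trans ((measure_union_le _ _).trans ?_)
      gcongr
      have h4 := meas_ge_le_lintegral_div (μ := volume.restrict (K k)) (f := fun p => GG A (xc p))
        hGm.aemeasurable hη hη'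
      have h5 : (volume.restrict (K k)) {p | η ≤ GG A (xc p)} =
          volume (K k ∩ {p | η ≤ GG A (xc p)}) := by
        rw [Measure.restrict_apply (show MeasurableSet {p : PP 1 | η ≤ GG A (xc p)} from
          hGm measurableSet_Ici), inter_comm]
      rw [← h5]
      exact h4
    have h5 : Tendsto (fun k => volume (Bo κ ∩ {p | GG A (xc p) < η}) +
        (∫⁻ p in K k, GG A (xc p)) / η) atTop
        (𝓝 (volume (Bo κ ∩ {p | GG A (xc p) < η}) + 0 / η)) :=
      tendsto_const_nhds.add (ENNReal.Tendsto.div_const hI (Or.inr hη))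
    rw [ENNReal.zero_div, add_zero] at h5
    exact ge_of_tendsto' h5 hb
  -- the limit of the sublevel sets
  have hzero : ENNReal.ofReal c * volume (Bo κ) ≤ volume (cylO (Bo κ) (XR A)) := by
    have h3 : cylO (Bo κ) (XR A) = ⋂ n : ℕ, (Bo κ ∩ {p | GG A (xc p) < ((n : ℝ≥0∞) + 1)⁻¹}) := by
      ext p
      rw [mem_iInter]
      constructor
      · rintro ⟨hp, hp2⟩ n
        refine ⟨hp, ?_⟩
        change GG A (xc p) < _
        rw [hp2.2]
        exact ENNReal.inv_pos.2 (by finiteness)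
      · intro h
        refine ⟨(h 0).1, (h 0).1.1, ?_⟩
        by_contra hne
        obtain ⟨n, hn⟩ := ENNReal.exists_inv_nat_lt hne
        have h4 : GG A (xc p) < ((n : ℝ≥0∞) + 1)⁻¹ := (h n).2
        have h5 : ((n : ℝ≥0∞) + 1)⁻¹ ≤ (n : ℝ≥0∞)⁻¹ := ENNReal.inv_le_inv.2 le_self_add
        exact absurd (hn.trans h4) (not_lt.2 h5)
    rw [h3]
    have h6 : Tendsto (fun n : ℕ => volume (Bo κ ∩ {p | GG A (xc p) < ((n : ℝ≥0∞) + 1)⁻¹})) atTop
        (𝓝 (volume (⋂ n : ℕ, (Bo κ ∩ {p | GG A (xc p) < ((n : ℝ≥0∞) + 1)⁻¹})))) := by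
      refine tendsto_measure_iInter_atTop (fun n => ?_) ?_ ⟨0, ?_⟩
      · exact ((Bo_open κ).measurableSet.inter (hGm measurableSet_Iio)).nullMeasurableSet
      · intro m n hmn p hp
        refine ⟨hp.1, lt_of_lt_of_le hp.2 (ENNReal.inv_le_inv.2 ?_)⟩
        gcongr
      · exact ((measure_mono inter_subset_left).trans_lt (lt_top_iff_ne_top.2 hfin)).ne
    refine ge_of_tendsto' h6 fun n => hsub _ ?_ ?_
    · exact ENNReal.inv_ne_zero.2 (by finiteness)
    · exact ENNReal.inv_ne_top.2 (by simp)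
  have h7 := vol_cylO hκ0 hκ isOpen_RR.measurableSet (subset_refl RR)
  rw [cylO_RR] at h7
  have hXR : XR A ⊆ RR := fun z hz => hz.1
  rw [vol_cylO hκ0 hκ (XR_meas hAm) hXR, h7, ← ENNReal.ofReal_mul hc,
    ENNReal.ofReal_le_ofReal_iff] at hzero
  · linarith
  · have : 0 ≤ ma κ (XR A) :=
      setIntegral_nonneg (XR_meas hAm) fun x hx => (ff_pos hκ0 hκ (hXR hx)).le
    linarith

open Pool.Agent.TH89.MI Pool.Agent.TH859.HU in
/-- **Extraction of the trapping cone.** -/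
theorem tr {c : ℝ} (hFH : FH c) {b : ℕ} {Ω : Set (PP b)} (go : IsOpen Ω) (gc : Convex ℝ Ω)
    (gb : Bornology.IsBounded Ω) (g0 : (0 : PP b) ∈ Ω) (gs : ∀ p ∈ Ω, -p ∈ Ω)
    (gt : ∀ p ∈ Ω, ∀ t ∈ Icc (0 : ℝ) 1, t • p ∈ Ω) {ε : ℝ} (hε : 0 < ε)
    {E : Set (PP b)} (hE : MeasurableSet E) (hEO : E ⊆ Ω) (hvE : volume E = volume Ω / 2)
    (hmin : Mnz ε Ω E) :
    ∃ K : Set (PP b), IsOpen K ∧ K ⊆ Ω ∧ (∀ p ∈ K, ∀ t ∈ Ioo (0 : ℝ) 1, t • p ∈ K) ∧
      ENNReal.ofReal c * volume Ω ≤ volume K ∧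
      volume (K \ E) = 0 ∧ volume ({p | -p ∈ K} ∩ E) = 0 := by
  have hpos : 0 < ε ^ b := by positivity
  have hp1 : ENNReal.ofReal (ε ^ b) ≠ 0 := by
    rw [Ne, ENNReal.ofReal_eq_zero, not_le]; exact hpos
  have hp2 : ENNReal.ofReal (ε ^ b) ≠ ⊤ := ENNReal.ofReal_ne_top
  set D := scE b ε hε with hD
  obtain ⟨Γ, h1, h2, h3⟩ := hFH (b + 2) (sc ε '' Ω) (sc ε '' E)
    (D.toHomeomorph.isOpenMap _ go) ⟨_, mem_image_of_mem _ g0⟩
    (gc.linear_image (scL b ε))
    (D.lipschitz.isBounded_image gb)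
    (by
      rintro _ ⟨x, hx, rfl⟩
      exact ⟨-x, gs x hx, map_neg D x⟩)
    (D.toHomeomorph.measurableEmbedding.measurableSet_image.2 hE)
    (image_mono hEO)
    (by rw [vol_sc hε, vol_sc hε, hvE, mul_div_assoc])
    (by
      intro F hF hFO hvF φ hφ1 hφ2 hφ3 hφ4 e he
      by_contra hcon
      push Not at hcon
      have hFD : sc ε '' (D ⁻¹' F) = F := image_preimage_eq F D.surjective
      have hF0 : D ⁻¹' F ⊆ Ω := by
        intro x hx
        obtain ⟨y, hy, hxy⟩ := hFO hx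
        have : y = x := D.injective hxy
        exact this ▸ hy
      have hF0m : MeasurableSet (D ⁻¹' F) := D.continuous.measurable hF
      have hF0v : volume (D ⁻¹' F) = volume E := by
        rw [← hFD, vol_sc hε, vol_sc hε] at hvF
        exact (ENNReal.mul_right_inj hp1 hp2).1 hvF
      set C := (∫ x in sc ε '' E, dv φ x) - e with hC
      have hPF : PLe 1 (sc ε '' Ω) F C := by
        intro ψ hψ
        have := hcon ψ hψ.cd hψ.cs hψ.sub (fun x => by
          have := hψ.bd x; rwa [sc_one] at this)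
        have h5 : (∫ x in F, dv ψ x) + e < ∫ x in sc ε '' E, dv φ x := this
        linarith
      have hC' : C = ε ^ b * (C / ε ^ b) := by field_simp
      rw [← hFD, hC'] at hPF
      have h6 := (b9 b Ω ε hε go _ hF0m hF0 _).2 hPF
      have h7 := (b9 b Ω ε hε go _ hE hEO _).1 (hmin _ hF0m hF0 hF0v _ h6)
      rw [← hC'] at h7
      have h8 := h7 φ ⟨hφ1, hφ2, hφ3, fun x => by rw [sc_one]; exact hφ4 x⟩
      linarith)
  refine ⟨{p | p ∈ Ω ∧ sc ε p ∈ interior (Γ : Set (PP b))}, ?_, fun p hp => hp.1, ?_, ?_, ?_, ?_⟩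
  · exact go.inter (isOpen_interior.preimage D.continuous)
  · rintro p ⟨hp1, hp2⟩ t ht
    refine ⟨gt p hp1 t ⟨ht.1.le, ht.2.le⟩, ?_⟩
    have : sc ε (t • p) = t • sc ε p := map_smul D t p
    rw [this]
    exact cone_int Γ hp2 ht.1
  · have hK : volume (sc ε '' {p | p ∈ Ω ∧ sc ε p ∈ interior (Γ : Set (PP b))}) =
        volume (sc ε '' Ω ∩ (Γ : Set (PP b))) := by
      have e1 : sc ε '' {p | p ∈ Ω ∧ sc ε p ∈ interior (Γ : Set (PP b))} =
          sc ε '' Ω ∩ interior (Γ : Set (PP b)) := by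
        ext y
        constructor
        · rintro ⟨x, ⟨hx1, hx2⟩, rfl⟩
          exact ⟨⟨x, hx1, rfl⟩, hx2⟩
        · rintro ⟨⟨x, hx1, rfl⟩, hx2⟩
          exact ⟨x, ⟨hx1, hx2⟩, rfl⟩
      rw [e1]
      apply measure_congr
      have hfr : volume (frontier (Γ : Set (PP b))) = 0 := Γ.convex.addHaar_frontier volume
      refine (ae_eq_refl _).inter (interior_ae_eq_of_null_frontier hfr)
    rw [vol_sc hε] at hK
    rw [← hK, vol_sc hε] at h3
    rw [← ENNReal.mul_le_mul_iff_right hp1 hp2]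
    calc _ = ENNReal.ofReal c * (ENNReal.ofReal (ε ^ b) * volume Ω) := by ring
      _ ≤ _ := h3
  · have h5 : volume (sc ε '' ({p | p ∈ Ω ∧ sc ε p ∈ interior (Γ : Set (PP b))} \ E)) = 0 := by
      refine measure_mono_null ?_ h1
      rintro _ ⟨x, ⟨⟨hx1, hx2⟩, hx3⟩, rfl⟩
      refine ⟨⟨⟨x, hx1, rfl⟩, interior_subset hx2⟩, ?_⟩
      rintro ⟨y, hy, hxy⟩
      have : y = x := D.injective hxy
      exact hx3 (this ▸ hy)
    rw [vol_sc hε] at h5
    exact (mul_eq_zero.1 h5).resolve_left hp1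
  · have h5 : volume (sc ε '' ({p | -p ∈ {p | p ∈ Ω ∧ sc ε p ∈ interior (Γ : Set (PP b))}} ∩
        E)) = 0 := by
      refine measure_mono_null ?_ h2
      rintro _ ⟨x, ⟨⟨hx1, hx2⟩, hx3⟩, rfl⟩
      refine ⟨⟨⟨x, hEO hx3, rfl⟩, ?_⟩, ⟨x, hx3, rfl⟩⟩
      have h6 : sc ε (-x) = - sc ε x := map_neg D x
      rw [h6] at hx2
      have h7 : - sc ε x ∈ (Γ : Set (PP b)) := interior_subset hx2
      exact h7
    rw [vol_sc hε] at h5
    exact (mul_eq_zero.1 h5).resolve_left hp1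

end Pool.Agent.R224.HV
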